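import Pool.Agent.Lib.MP_90787a_nt.B.Ring

set_option autoImplicit false
set_option linter.unusedVariables false

/-!
Counting points when the number of points controlled by a given point is bounded.
-/

namespace Pool.Agent.MP90787a.B

open Function

variable {F : Type} [Field F] {d : ℕ} {A B C D : F}

theorem AdmA.exists_periodic {x : F} (hx : AdmA d A B C D x) :
    ∃ n, (bf d A B C D)^[n] x ∈ periodicPts (bf d A B C D) := by
  obtain ⟨⟨i, j, hij, h⟩, -, -⟩ := hx
  refine ⟨i, mk_mem_periodicPts (n := j - i) (by omega) ?_⟩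
  change (bf d A B C D)^[j - i] ((bf d A B C D)^[i] x) = (bf d A B C D)^[i] x
  rw [← iterate_add_apply, Nat.sub_add_cancel hij.le, h]

/-- The tail has bounded length. -/
theorem tail_le {N₂ : ℕ}
    (H : ∀ x : F, AdmA d A B C D x → ∀ Y : Finset F,
      (∀ y ∈ Y, AdmA d A B C D y ∧ Ctrl d A B C D x y) → Y.card ≤ N₂)
    {x : F} (hx : AdmA d A B C D x) :
    (bf d A B C D)^[2 * N₂ + 1] x ∈ periodicPts (bf d A B C D) := by
  classical
  set f := bf d A B C D with hf
  have hper : ∀ n, f^[n] x ∈ periodicPts f → f^[n + 1] x ∈ periodicPts f := by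
    intro n h
    rw [iterate_succ_apply']
    exact (bijOn_periodicPts f).mapsTo h
  have hper' : ∀ n k, f^[n] x ∈ periodicPts f → f^[n + k] x ∈ periodicPts f := by
    intro n k h
    induction k with
    | zero => exact h
    | succ k ih => exact hper _ ih
  have hex := hx.exists_periodic
  set ℓ := Nat.find hex with hℓ
  have hℓ1 : f^[ℓ] x ∈ periodicPts f := Nat.find_spec hex
  have hℓ2 : ∀ n, n < ℓ → f^[n] x ∉ periodicPts f := fun n hn => Nat.find_min hex hn
  by_contra hcon
  have hℓbig : 2 * N₂ + 1 < ℓ := by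
    by_contra h
    push Not at h
    apply hcon
    have := hper' ℓ (2 * N₂ + 1 - ℓ) hℓ1
    rwa [Nat.add_sub_cancel' h] at this
  have hinj : ∀ i j, i < j → j < ℓ → f^[i] x ≠ f^[j] x := by
    intro i j hij hj h
    refine hℓ2 i (by omega) (mk_mem_periodicPts (n := j - i) (by omega) ?_)
    change f^[j - i] (f^[i] x) = f^[i] x
    rw [← iterate_add_apply, Nat.sub_add_cancel hij.le, h]
  obtain ⟨w₀, hw₀, hw₀f⟩ := (bijOn_periodicPts f).surjOn hℓ1
  have hw₀A : AdmA d A B C D w₀ := by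
    obtain ⟨n, hn, hp⟩ := hw₀
    have h1 : f^[n] w₀ = w₀ := hp
    obtain ⟨k, rfl⟩ : ∃ k, n = k + 1 := ⟨n - 1, by omega⟩
    rw [iterate_succ_apply, hw₀f] at h1
    rw [← h1]
    exact (hx.iterate ℓ).iterate k
  have hfw₀ : f w₀ ∈ periodicPts f := (bijOn_periodicPts f).mapsTo hw₀
  have hne : f w₀ ≠ w₀ := hw₀A.2.1 0
  have hperk : ∀ (k : ℕ) (w : F), w ∈ periodicPts f → f^[k] w ∈ periodicPts f := by
    intro k w hw
    induction k with
    | zero => exact hw
    | succ k ih =>
      rw [iterate_succ_apply']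
      exact (bijOn_periodicPts f).mapsTo ih
  -- the controlled points
  have hcard : ∀ p : F, p ∈ periodicPts f → AdmA d A B C D p → ∀ J : Finset ℕ,
      (∀ m ∈ J, 1 ≤ m ∧ m < ℓ ∧ f^[m] p ≠ w₀) → J.card ≤ N₂ := by
    intro p hp hpA J hJ
    have h1 : (J.image fun m => f^[ℓ - 1 - m] x).card = J.card := by
      refine Finset.card_image_of_injOn ?_
      intro m hm m' hm' h
      obtain ⟨h1, h2, -⟩ := hJ m hm
      obtain ⟨h3, h4, -⟩ := hJ m' hm'
      by_contra hmm
      rcases lt_or_gt_of_ne hmm with h5 | h5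
      · exact hinj (ℓ - 1 - m') (ℓ - 1 - m) (by omega) (by omega) h.symm
      · exact hinj (ℓ - 1 - m) (ℓ - 1 - m') (by omega) (by omega) h
    rw [← h1]
    refine H p hpA _ fun y hy => ?_
    obtain ⟨m, hm, rfl⟩ := Finset.mem_image.1 hy
    obtain ⟨h2, h3, h4⟩ := hJ m hm
    refine ⟨hx.iterate _, Or.inr ⟨m, f^[m] p, w₀, h2, hperk m p hp, hw₀, h4, rfl, ?_, ?_⟩⟩
    · rw [← hf, ← iterate_add_apply]
      have e : m + (ℓ - 1 - m) = ℓ - 1 := by omega
      rw [e]
      intro h
      exact hℓ2 (ℓ - 1) (by omega) (h ▸ hw₀)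
    · rw [← hf, ← iterate_add_apply]
      have e : m + 1 + (ℓ - 1 - m) = ℓ := by omega
      rw [e, hw₀f]
  have hJ1 := hcard w₀ hw₀ hw₀A ((Finset.Ico 1 ℓ).filter fun m => f^[m] w₀ ≠ w₀) (by
    intro m hm
    rw [Finset.mem_filter, Finset.mem_Ico] at hm
    exact ⟨hm.1.1, hm.1.2, hm.2⟩)
  have hJ2 := hcard (f w₀) hfw₀ hw₀A.step ((Finset.Ico 1 ℓ).filter fun m => ¬ f^[m] w₀ ≠ w₀) (by
    intro m hm
    rw [Finset.mem_filter, Finset.mem_Ico, not_not] at hm
    refine ⟨hm.1.1, hm.1.2, ?_⟩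
    rw [← iterate_succ_apply, iterate_succ_apply', hm.2]
    exact hne)
  have h3 := Finset.card_filter_add_card_filter_not (s := Finset.Ico 1 ℓ) fun m => f^[m] w₀ ≠ w₀
  rw [Nat.card_Ico] at h3
  omega

/-- The fibres have at most `d` elements. -/
theorem fibre_le (hd : 1 ≤ d) (hκ : A * D - B * C ≠ 0) (z : F) (Z : Finset F)
    (hZ : ∀ x ∈ Z, C * x ^ d + D ≠ 0 ∧ bf d A B C D x = z) : Z.card ≤ d := by
  classical
  by_cases h : A - z * C = 0
  · have hZe : Z = ∅ := by
      refine Finset.eq_empty_of_forall_notMem fun x hx => ?_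
      obtain ⟨h1, h2⟩ := hZ x hx
      unfold bf at h2
      rw [div_eq_iff h1] at h2
      apply hκ
      have h3 : B - z * D = 0 := by linear_combination h2 - x ^ d * h
      linear_combination D * h - C * h3
    rw [hZe, Finset.card_empty]
    omega
  · have hsub : Z ⊆ (Polynomial.nthRoots d ((z * D - B) / (A - z * C))).toFinset := by
      intro x hx
      obtain ⟨h1, h2⟩ := hZ x hx
      unfold bf at h2
      rw [div_eq_iff h1] at h2
      rw [Multiset.mem_toFinset, Polynomial.mem_nthRoots (by omega), eq_div_iff h]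
      linear_combination h2
    refine (Finset.card_le_card hsub).trans ((Multiset.toFinset_card_le _).trans ?_)
    exact Polynomial.card_nthRoots _ _

/-- B8 -/
theorem count (hd : 1 ≤ d) (N₂ : ℕ) (hκ : A * D - B * C ≠ 0)
    (H : ∀ x : F, AdmA d A B C D x → ∀ Y : Finset F,
      (∀ y ∈ Y, AdmA d A B C D y ∧ Ctrl d A B C D x y) → Y.card ≤ N₂)
    (Z : Finset F) (hZ : ∀ x ∈ Z, AdmA d A B C D x) : Z.card ≤ d ^ (2 * N₂ + 1) * (N₂ + 1) := by
  classical
  have hmain : ∀ k : ℕ, ∀ Z : Finset F, (∀ x ∈ Z, AdmA d A B C D x ∧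
      (bf d A B C D)^[k] x ∈ periodicPts (bf d A B C D)) → Z.card ≤ d ^ k * (N₂ + 1) := by
    intro k
    induction k with
    | zero =>
      intro Z hZ
      rw [pow_zero, one_mul]
      rcases Z.eq_empty_or_nonempty with rfl | ⟨x, hx⟩
      · simp
      · have h1 := H x (hZ x hx).1 (Z.erase x) fun y hy => by
          rw [Finset.mem_erase] at hy
          exact ⟨(hZ y hy.2).1, Or.inl ⟨(hZ x hx).2, (hZ y hy.2).2, hy.1.symm⟩⟩
        rw [Finset.card_erase_of_mem hx] at h1
        omega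
    | succ k ih =>
      intro Z hZ
      have h1 : (Z.image (bf d A B C D)).card ≤ d ^ k * (N₂ + 1) := by
        refine ih _ fun y hy => ?_
        obtain ⟨x, hx, rfl⟩ := Finset.mem_image.1 hy
        refine ⟨(hZ x hx).1.step, ?_⟩
        rw [← iterate_succ_apply]
        exact (hZ x hx).2
      have h2 : Z.card ≤ d * (Z.image (bf d A B C D)).card := by
        refine Finset.card_le_mul_card_image Z d fun z _ => fibre_le hd hκ z _ fun x hx => ?_
        rw [Finset.mem_filter] at hx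
        exact ⟨((hZ x hx.1).1.2.2 0).2, hx.2⟩
      calc Z.card ≤ d * (d ^ k * (N₂ + 1)) := h2.trans (Nat.mul_le_mul_left d h1)
        _ = _ := by ring
  exact hmain _ Z fun x hx => ⟨hZ x hx, tail_le H (hZ x hx)⟩

end Pool.Agent.MP90787a.B
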