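import Mathlib

set_option autoImplicit false

/-!
Definitions for the maps `x ↦ (A x ^ d + B) / (C x ^ d + D)`.
-/

namespace Pool.Agent.MP90787a.B

open NumberField Height

section

variable {F : Type} [Field F]

/-- The wedge product of two vectors. -/
def wd (P Q : F × F) : F := P.1 * Q.2 - P.2 * Q.1

/-- The homogeneous form of the map `x ↦ (A x ^ d + B) / (C x ^ d + D)`. -/
def hm (d : ℕ) (A B C D : F) (P : F × F) : F × F :=
  (A * P.1 ^ d + B * P.2 ^ d, C * P.1 ^ d + D * P.2 ^ d)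

/-- The point is preperiodic and its orbit contains no fixed point. -/
def Adm (d : ℕ) (A B C D : F) (P : F × F) : Prop :=
  (∃ i j : ℕ, i < j ∧ wd ((hm d A B C D)^[i] P) ((hm d A B C D)^[j] P) = 0) ∧
  ∀ i : ℕ, wd ((hm d A B C D)^[i] P) ((hm d A B C D)^[i + 1] P) ≠ 0

/-- The affine map. -/
def bf (d : ℕ) (A B C D : F) (x : F) : F := (A * x ^ d + B) / (C * x ^ d + D)

/-- `x` is preperiodic, its orbit contains no fixed point and avoids `0` and `∞`. -/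
def AdmA (d : ℕ) (A B C D : F) (x : F) : Prop :=
  (∃ i j : ℕ, i < j ∧ (bf d A B C D)^[i] x = (bf d A B C D)^[j] x) ∧
  (∀ i : ℕ, (bf d A B C D)^[i + 1] x ≠ (bf d A B C D)^[i] x) ∧
  ∀ i : ℕ, (bf d A B C D)^[i] x ≠ 0 ∧ C * ((bf d A B C D)^[i] x) ^ d + D ≠ 0

/-- Controlled pairs: two distinct periodic points, or two points with different shadows. -/
def Ctrl (d : ℕ) (A B C D : F) (x y : F) : Prop :=
  (x ∈ Function.periodicPts (bf d A B C D) ∧ y ∈ Function.periodicPts (bf d A B C D) ∧ x ≠ y) ∨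
  ∃ (m : ℕ) (w w' : F), 1 ≤ m ∧ w ∈ Function.periodicPts (bf d A B C D) ∧
    w' ∈ Function.periodicPts (bf d A B C D) ∧ w ≠ w' ∧ (bf d A B C D)^[m] x = w ∧
    (bf d A B C D)^[m] y ≠ w' ∧ (bf d A B C D)^[m + 1] y = bf d A B C D w'

/-- The `d`-th power of the maximum that governs the size of the map at `v`. -/
noncomputable def Vd (v : AbsoluteValue F ℝ) (d : ℕ) (A B C D : F) : ℝ :=
  max (max ((v A * v D) ^ d) ((v B * v C) ^ d))
    (max (v A ^ (d + 1) * v B ^ (d - 1)) (v D ^ (d + 1) * v C ^ (d - 1)))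

/-- The logarithmic size of the map at `v`. -/
noncomputable def Rv (v : AbsoluteValue F ℝ) (d : ℕ) (A B C D : F) : ℝ :=
  Real.log (Vd v d A B C D) / d - Real.log (v (A * D - B * C))

/-- No cancellation in the second iterate of the critical point `∞`. -/
def NR (v : AbsoluteValue F ℝ) (d : ℕ) (A B C D : F) : Prop :=
  v A ^ (d + 1) * v B ^ (d - 1) ≤ v (A * D - B * C) ^ d ∨
    v A ^ (d + 1) * v B ^ (d - 1) < v D ^ (d + 1) * v C ^ (d - 1) ∨
    v A ^ (d + 1) ≤ v (A ^ (d + 1) + B * C ^ d)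

/-- Tameness at `v`, relative to the exponent `n`: with `κ = A D - B C`, at least one of the
following holds:
* `|A| ^ (d + 1) |B| ^ (d - 1) ≤ |κ| ^ d`,
* `|A| ^ (d + 1) |B| ^ (d - 1) < |D| ^ (d + 1) |C| ^ (d - 1)`,
* `|A| ^ (d + 1) ≤ |A ^ (d + 1) + B C ^ d|`, and `|A| ^ 2 |x| ^ (d - 1) / |κ|` is the `n`-th power
  of the absolute value of an element of `F` for all `x ∈ F` with `|A| |x| ^ d = |B|`. -/
def Tame (v : AbsoluteValue F ℝ) (d n : ℕ) (A B C D : F) : Prop :=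
  v A ^ (d + 1) * v B ^ (d - 1) ≤ v (A * D - B * C) ^ d ∨
    v A ^ (d + 1) * v B ^ (d - 1) < v D ^ (d + 1) * v C ^ (d - 1) ∨
    (v A ^ (d + 1) ≤ v (A ^ (d + 1) + B * C ^ d) ∧ ∀ x : F, v A * v x ^ d = v B →
      ∃ y : F, v A ^ 2 * v x ^ (d - 1) = v (A * D - B * C) * v y ^ n)

end

/-- Uniform bound for the number of `t ∈ D` of height `O(H)` which are close to `d`-th roots of
unity at many finite places. -/
def KissB (L : Type) [Field L] [NumberField L] (d : ℕ) (D : Set L) : Prop :=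
  ∃ S : Finset (FinitePlace L), ∀ (κ C₁ : ℝ), 0 < κ → ∃ (N : ℕ) (H₀ : ℝ), ∀ H : ℝ, H₀ ≤ H →
    ∀ (A : Finset L) (F : Finset (FinitePlace L)) (w : FinitePlace L → ℝ),
      (∀ v ∈ F, v ∉ S ∧ 0 ≤ w v) → κ * H ≤ ∑ v ∈ F, w v →
      (∀ t ∈ A, t ∈ D ∧ logHeight₁ t ≤ C₁ * H ∧
        ∀ v ∈ F, ∃ ζ : L, ζ ^ d = 1 ∧ v (t - ζ) ≤ Real.exp (-w v)) → A.card ≤ N

end Pool.Agent.MP90787a.B
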