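import Pool.Agent.Lib.MP_90787a_nt.B.Final
import Pool.Agent.Lib.MP_90787a_nt.T.Dyn

set_option autoImplicit false
set_option linter.unusedVariables false

/-!
One-parameter families of bicritical maps with constant determinant.
-/

namespace Pool.Agent.MP90787a.B

open NumberField Height Polynomial

section

variable {K : Type} [Field K] [NumberField K]

/-- Values of a polynomial at all but finitely many places. -/
theorem exists_eval_abs (P : K[X]) : ∃ S : Finset (FinitePlace K), ∀ v : FinitePlace K, v ∉ S →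
    ∀ t : K, (v.1 t ≤ 1 → v.1 (P.eval t) ≤ 1) ∧
      (1 < v.1 t → P ≠ 0 → v.1 (P.eval t) = v.1 t ^ P.natDegree) := by
  classical
  obtain ⟨S, hS⟩ := UBC90787a.exists_finset_places
    ((Finset.range (P.natDegree + 1)).image fun i => P.coeff i)
  have hcoef : ∀ v : FinitePlace K, v ∉ S → ∀ i ∈ Finset.range (P.natDegree + 1),
      v.1 (P.coeff i) ≤ 1 := by
    intro v hv i hi
    by_cases h : P.coeff i = 0
    · rw [h, map_zero]; exact zero_le_one
    · exact (hS v hv _ (Finset.mem_image_of_mem _ hi) h).le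
  refine ⟨S, fun v hv t => ⟨fun ht => ?_, fun ht hP => ?_⟩⟩
  · rw [eval_eq_sum_range]
    refine T.v_sum_le v.1 (nonarch v) _ _ zero_le_one fun i hi => ?_
    rw [map_mul, map_pow]
    exact mul_le_one₀ (hcoef v hv i hi) (pow_nonneg (v.1.nonneg _) _)
      (pow_le_one₀ (v.1.nonneg _) ht)
  · rw [eval_eq_sum_range, Finset.sum_range_succ]
    have hl : v.1 (P.coeff P.natDegree * t ^ P.natDegree) = v.1 t ^ P.natDegree := by
      have h1 : v.1 (P.coeff P.natDegree) = 1 :=
        hS v hv _ (Finset.mem_image_of_mem _ (Finset.self_mem_range_succ _))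
          (by rw [coeff_natDegree]; exact leadingCoeff_ne_zero.2 hP)
      rw [map_mul, map_pow, h1, one_mul]
    rcases Nat.eq_zero_or_pos P.natDegree with h0 | h0
    · rw [h0] at hl ⊢
      simp only [Finset.range_zero, Finset.sum_empty, zero_add]
      exact hl
    · have hs : v.1 (∑ i ∈ Finset.range P.natDegree, P.coeff i * t ^ i) ≤
          v.1 t ^ (P.natDegree - 1) := by
        refine T.v_sum_le v.1 (nonarch v) _ _ (pow_nonneg (v.1.nonneg _) _) fun i hi => ?_
        rw [Finset.mem_range] at hi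
        rw [map_mul, map_pow]
        have h1 := hcoef v hv i (Finset.mem_range.2 (by omega))
        calc v.1 (P.coeff i) * v.1 t ^ i ≤ 1 * v.1 t ^ (P.natDegree - 1) :=
              mul_le_mul h1 (pow_le_pow_right₀ ht.le (by omega)) (pow_nonneg (v.1.nonneg _) _)
                zero_le_one
          _ = _ := one_mul _
      have hlt : v.1 t ^ (P.natDegree - 1) < v.1 t ^ P.natDegree :=
        pow_lt_pow_right₀ ht (by omega)
      rw [add_comm]
      have h2 := T.v_sub_of_lt v.1 (nonarch v) (x := P.coeff P.natDegree * t ^ P.natDegree)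
        (y := -∑ i ∈ Finset.range P.natDegree, P.coeff i * t ^ i) (by
          rw [v.1.map_neg, hl]
          exact hs.trans_lt hlt)
      rw [sub_neg_eq_add] at h2
      rw [h2, hl]

/-- No cancellation at the place `∞` of `K(t)`. -/
def NRInf (d : ℕ) (A B C D : K[X]) : Prop :=
  (A ^ (d + 1) * B ^ (d - 1)).degree ≤ 0 ∨
    (A ^ (d + 1) * B ^ (d - 1)).degree < (D ^ (d + 1) * C ^ (d - 1)).degree ∨
    (A ^ (d + 1)).degree ≤ (A ^ (d + 1) + B * C ^ d).degree

theorem tame_family {d : ℕ} (hodd : Odd d) (A B C' D : K[X]) {κ : K} (hκ : κ ≠ 0)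
    (hdet : A * D - B * C' = C κ) (h : NRInf d A B C' D) :
    ∃ S : Finset (FinitePlace K), ∀ v : FinitePlace K, v ∉ S → ∀ t : K,
      Tame v.1 d 2 (A.eval t) (B.eval t) (C'.eval t) (D.eval t) := by
  classical
  obtain ⟨S₁, hS₁⟩ := exists_eval_abs (A ^ (d + 1) * B ^ (d - 1))
  obtain ⟨S₂, hS₂⟩ := exists_eval_abs (D ^ (d + 1) * C' ^ (d - 1))
  obtain ⟨S₃, hS₃⟩ := exists_eval_abs (A ^ (d + 1))
  obtain ⟨S₄, hS₄⟩ := exists_eval_abs (A ^ (d + 1) + B * C' ^ d)
  obtain ⟨S₅, hS₅⟩ := UBC90787a.exists_finset_places ({κ} : Finset K)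
  refine ⟨S₁ ∪ (S₂ ∪ (S₃ ∪ (S₄ ∪ S₅))), fun v hv t => ?_⟩
  simp only [Finset.mem_union, not_or] at hv
  obtain ⟨hv1, hv2, hv3, hv4, hv5⟩ := hv
  have hk : v.1 κ = 1 := hS₅ v hv5 κ (Finset.mem_singleton_self _) hκ
  have hdet' : A.eval t * D.eval t - B.eval t * C'.eval t = κ := by
    have := congrArg (fun P => eval t P) hdet
    simpa using this
  have e1 : v.1 (A.eval t) ^ (d + 1) * v.1 (B.eval t) ^ (d - 1) =
      v.1 ((A ^ (d + 1) * B ^ (d - 1)).eval t) := by simp
  have e2 : v.1 (D.eval t) ^ (d + 1) * v.1 (C'.eval t) ^ (d - 1) =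
      v.1 ((D ^ (d + 1) * C' ^ (d - 1)).eval t) := by simp
  have e3 : v.1 (A.eval t) ^ (d + 1) = v.1 ((A ^ (d + 1)).eval t) := by simp
  have e4 : v.1 (A.eval t ^ (d + 1) + B.eval t * C'.eval t ^ d) =
      v.1 ((A ^ (d + 1) + B * C' ^ d).eval t) := by simp
  unfold Tame
  rw [hdet', hk, one_pow, e1, e2, e3, e4]
  rcases le_or_gt (v.1 t) 1 with ht | ht
  · left
    exact (hS₁ v hv1 t).1 ht
  · have hval : ∀ (P : K[X]), (1 < v.1 t → P ≠ 0 → v.1 (P.eval t) = v.1 t ^ P.natDegree) →
        P ≠ 0 → v.1 (P.eval t) = v.1 t ^ P.natDegree := fun P hP h0 => hP ht h0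
    rcases h with h | h | h
    · left
      by_cases h0 : A ^ (d + 1) * B ^ (d - 1) = 0
      · rw [h0, eval_zero, map_zero]; exact zero_le_one
      · rw [(hS₁ v hv1 t).2 ht h0]
        have : (A ^ (d + 1) * B ^ (d - 1)).natDegree = 0 := natDegree_eq_zero_iff_degree_le_zero.2 h
        rw [this, pow_zero]
    · right; left
      have h0 : D ^ (d + 1) * C' ^ (d - 1) ≠ 0 := by
        intro h0
        rw [h0, degree_zero] at h
        exact not_lt_bot h
      rw [(hS₂ v hv2 t).2 ht h0]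
      by_cases h1 : A ^ (d + 1) * B ^ (d - 1) = 0
      · rw [h1, eval_zero, map_zero]
        exact pow_pos (by linarith) _
      · rw [(hS₁ v hv1 t).2 ht h1]
        refine pow_lt_pow_right₀ ht ?_
        exact natDegree_lt_natDegree h1 h
    · right; right
      refine ⟨?_, fun x _ => ?_⟩
      · by_cases h1 : A ^ (d + 1) = 0
        · rw [h1, eval_zero, map_zero]
          exact v.1.nonneg _
        · have h0 : A ^ (d + 1) + B * C' ^ d ≠ 0 := by
            intro h0
            rw [h0, degree_zero, le_bot_iff, degree_eq_bot] at h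
            exact h1 h
          rw [(hS₃ v hv3 t).2 ht h1, (hS₄ v hv4 t).2 ht h0]
          exact pow_le_pow_right₀ ht.le (natDegree_le_natDegree h)
      · obtain ⟨m, hm⟩ := hodd
        refine ⟨A.eval t * x ^ m, ?_⟩
        have hm2 : d - 1 = 2 * m := by omega
        rw [one_mul, map_mul, map_pow, hm2]
        ring

end

/-- One-parameter families of odd degree with constant determinant. -/
theorem family (K : Type) [Field K] [NumberField K] (d : ℕ) (hd : 5 ≤ d) (hodd : Odd d)
    (A B C' D : K[X]) {κ : K} (hκ : κ ≠ 0) (hdet : A * D - B * C' = C κ)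
    (h : NRInf d A B C' D) (h' : NRInf d D C' B A) :
    ∃ N : ℕ, ∀ t : K, ∀ Z : Finset K,
      (∀ x ∈ Z, Adm d (A.eval t) (B.eval t) (C'.eval t) (D.eval t) (x, 1)) → Z.card ≤ N := by
  classical
  obtain ⟨S₁, hS₁⟩ := tame_family hodd A B C' D hκ hdet h
  obtain ⟨S₂, hS₂⟩ := tame_family hodd D C' B A (κ := κ) hκ (by rw [← hdet]; ring) h'
  obtain ⟨N, hN⟩ := main K d 2 (by omega) le_rfl (Or.inl hd) (S₁ ∪ S₂)
  refine ⟨N, fun t Z hZ => hN _ _ _ _ ?_ (fun v hv => ?_) Z hZ⟩
  · have := congrArg (fun P => eval t P) hdet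
    simp only [eval_sub, eval_mul, eval_C] at this
    rw [this]
    exact hκ
  · rw [Finset.mem_union, not_or] at hv
    exact ⟨hS₁ v hv.1 t, hS₂ v hv.2 t⟩

end Pool.Agent.MP90787a.B
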