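import Pool.Agent.Lib.MP_90787a_nt.B.Size

set_option autoImplicit false

/-!
# Good places
-/

namespace Pool.Agent.MP90787a.B

open NumberField Height Polynomial

namespace GoodAux

section
variable {F : Type} [Field F] (v : AbsoluteValue F ℝ) (hv : IsNonarchimedean v)

include hv in
theorem sub_le (x y : F) : v (x - y) ≤ max (v x) (v y) := by
  rw [sub_eq_add_neg]
  refine (hv _ _).trans (le_of_eq ?_)
  rw [map_neg_eq_map v]

/-- the size of the point `x` -/
noncomputable def nn (r : ℝ) (x : F) : ℝ := max (v x) r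

/-- the chordal distance -/
noncomputable def dl (r : ℝ) (x y : F) : ℝ := r * v (x - y) / (nn v r x * nn v r y)

theorem nn_pos {r : ℝ} (hr : 0 < r) (x : F) : 0 < nn v r x := lt_max_of_lt_right hr

theorem dl_nonneg {r : ℝ} (hr : 0 < r) (x y : F) : 0 ≤ dl v r x y := by
  have h1 := nn_pos v hr x
  have h2 := nn_pos v hr y
  have h3 := v.nonneg (x - y)
  unfold dl
  positivity

include hv in
theorem dl_le_one {r : ℝ} (hr : 0 < r) (x y : F) : dl v r x y ≤ 1 := by
  have h1 := nn_pos v hr x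
  have h2 := nn_pos v hr y
  unfold dl
  rw [div_le_one (by positivity)]
  have h3 := sub_le v hv x y
  rcases le_max_iff.1 h3 with h | h
  · calc r * v (x - y) ≤ r * v x := by gcongr
      _ ≤ nn v r y * nn v r x :=
        mul_le_mul (le_max_right _ _) (le_max_left _ _) (v.nonneg _) h2.le
      _ = _ := mul_comm _ _
  · calc r * v (x - y) ≤ r * v y := by gcongr
      _ ≤ nn v r x * nn v r y :=
        mul_le_mul (le_max_right _ _) (le_max_left _ _) (v.nonneg _) h1.le

include hv in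
theorem add_le (x y : F) : v (x + y) ≤ max (v x) (v y) := hv x y

/-- the size of the image, squared: upper bound for the first coordinate and so on -/
theorem sq_max (p q : ℝ) (hp : 0 ≤ p) (hq : 0 ≤ q) : (max p q) ^ 2 = max (p ^ 2) (q ^ 2) := by
  rcases le_total p q with h | h
  · rw [max_eq_right h, max_eq_right (pow_le_pow_left₀ hp h 2)]
  · rw [max_eq_left h, max_eq_left (pow_le_pow_left₀ hq h 2)]

include hv in
theorem norm_eq {d : ℕ} (hd : 1 ≤ d) {A B C D : F} (hκ : A * D - B * C ≠ 0) {r : ℝ} (hr : 0 < r)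
    (h1 : v A ^ 2 * r ^ (d - 1) ≤ v (A * D - B * C))
    (h2 : v C ^ 2 * r ^ (d + 1) ≤ v (A * D - B * C))
    (h3 : v B ^ 2 ≤ v (A * D - B * C) * r ^ (d + 1))
    (h4 : v D ^ 2 ≤ v (A * D - B * C) * r ^ (d - 1)) (x : F) :
    (max (v (A * x ^ d + B)) (r * v (C * x ^ d + D))) ^ 2 * r ^ (d - 1) =
      v (A * D - B * C) * nn v r x ^ (2 * d) := by
  obtain ⟨n, rfl⟩ : ∃ n, d = n + 1 := ⟨d - 1, by omega⟩
  rw [Nat.add_sub_cancel] at h1 h4 ⊢
  set k := v (A * D - B * C) with hk
  have hk0 : 0 < k := v.pos hκ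
  set N := nn v r x with hN
  have hN0 : 0 < N := nn_pos v hr x
  have hxN : v x ≤ N := le_max_left _ _
  have hrN : r ≤ N := le_max_right _ _
  have a0 := v.nonneg A
  have b0 := v.nonneg B
  have c0 := v.nonneg C
  have e0 := v.nonneg D
  have x0 := v.nonneg x
  set s : ℝ := v x ^ (n + 1) with hs
  have hs0 : 0 ≤ s := by positivity
  have hsN : s ≤ N ^ (n + 1) := pow_le_pow_left₀ x0 hxN _
  have hrN' : r ^ (n + 1) ≤ N ^ (n + 1) := pow_le_pow_left₀ hr.le hrN _
  set X' := v (A * x ^ (n + 1) + B) with hX'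
  set Y' := v (C * x ^ (n + 1) + D) with hY'
  have hX0 : 0 ≤ X' := v.nonneg _
  have hY0 : 0 ≤ Y' := v.nonneg _
  have sN : s ^ 2 ≤ N ^ (2 * (n + 1)) := by
    calc s ^ 2 ≤ (N ^ (n + 1)) ^ 2 := pow_le_pow_left₀ hs0 hsN 2
      _ = _ := by ring
  have rN : (r ^ (n + 1)) ^ 2 ≤ N ^ (2 * (n + 1)) := by
    calc (r ^ (n + 1)) ^ 2 ≤ (N ^ (n + 1)) ^ 2 := pow_le_pow_left₀ (by positivity) hrN' 2
      _ = _ := by ring
  apply le_antisymm
  · -- upper bound
    rw [sq_max _ _ hX0 (by positivity), max_mul_of_nonneg _ _ (by positivity)]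
    apply max_le
    · have h5 : X' ≤ max (v A * s) (v B) := by
        refine (hv _ _).trans (le_of_eq ?_)
        rw [map_mul, map_pow]
      rcases le_max_iff.1 h5 with h | h
      · calc X' ^ 2 * r ^ n ≤ (v A * s) ^ 2 * r ^ n := by gcongr
          _ = (v A ^ 2 * r ^ n) * s ^ 2 := by ring
          _ ≤ k * N ^ (2 * (n + 1)) := mul_le_mul h1 sN (by positivity) hk0.le
      · calc X' ^ 2 * r ^ n ≤ v B ^ 2 * r ^ n := by gcongr
          _ ≤ (k * r ^ (n + 1 + 1)) * r ^ n := by gcongr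
          _ = k * (r ^ (n + 1)) ^ 2 := by ring
          _ ≤ k * N ^ (2 * (n + 1)) := by gcongr
    · have h5 : Y' ≤ max (v C * s) (v D) := by
        refine (hv _ _).trans (le_of_eq ?_)
        rw [map_mul, map_pow]
      rcases le_max_iff.1 h5 with h | h
      · calc (r * Y') ^ 2 * r ^ n ≤ (r * (v C * s)) ^ 2 * r ^ n := by gcongr
          _ = (v C ^ 2 * r ^ (n + 1 + 1)) * s ^ 2 := by ring
          _ ≤ k * N ^ (2 * (n + 1)) := mul_le_mul h2 sN (by positivity) hk0.le
      · calc (r * Y') ^ 2 * r ^ n ≤ (r * v D) ^ 2 * r ^ n := by gcongr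
          _ = v D ^ 2 * r ^ (n + 1 + 1) := by ring
          _ ≤ (k * r ^ n) * r ^ (n + 1 + 1) := by gcongr
          _ = k * (r ^ (n + 1)) ^ 2 := by ring
          _ ≤ k * N ^ (2 * (n + 1)) := by gcongr
  · -- lower bound
    set M := max X' (r * Y') with hM
    have hM0 : 0 ≤ M := le_max_of_le_left hX0
    have hXM : X' ≤ M := le_max_left _ _
    have hYM : r * Y' ≤ M := le_max_right _ _
    -- first: k * s ^ 2 ≤ M ^ 2 * r ^ n
    have e1 : (A * D - B * C) * x ^ (n + 1) =
        D * (A * x ^ (n + 1) + B) - B * (C * x ^ (n + 1) + D) := by ring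
    have e2 : (A * D - B * C) = A * (C * x ^ (n + 1) + D) - C * (A * x ^ (n + 1) + B) := by ring
    have f1 : k * s ≤ max (v D * X') (v B * Y') := by
      have := sub_le v hv (D * (A * x ^ (n + 1) + B)) (B * (C * x ^ (n + 1) + D))
      rw [← e1, map_mul, map_mul, map_mul, map_pow] at this
      exact this
    have f2 : k ≤ max (v A * Y') (v C * X') := by
      have := sub_le v hv (A * (C * x ^ (n + 1) + D)) (C * (A * x ^ (n + 1) + B))
      rw [← e2, map_mul, map_mul] at this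
      exact this
    have g1 : k * s ^ 2 ≤ M ^ 2 * r ^ n := by
      have h5 : (k * s) ^ 2 ≤ k * (M ^ 2 * r ^ n) := by
        rcases le_max_iff.1 f1 with h | h
        · calc (k * s) ^ 2 ≤ (v D * X') ^ 2 := by gcongr
            _ = v D ^ 2 * X' ^ 2 := by ring
            _ ≤ (k * r ^ n) * M ^ 2 := by gcongr
            _ = _ := by ring
        · calc (k * s) ^ 2 ≤ (v B * Y') ^ 2 := by gcongr
            _ = v B ^ 2 * Y' ^ 2 := by ring
            _ ≤ (k * r ^ (n + 1 + 1)) * Y' ^ 2 := by gcongr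
            _ = (k * r ^ n) * (r * Y') ^ 2 := by ring
            _ ≤ (k * r ^ n) * M ^ 2 := by gcongr
            _ = _ := by ring
      have h6 : k * (k * s ^ 2) ≤ k * (M ^ 2 * r ^ n) := by
        calc k * (k * s ^ 2) = (k * s) ^ 2 := by ring
          _ ≤ _ := h5
      exact le_of_mul_le_mul_left h6 hk0
    have g2 : k * (r ^ (n + 1)) ^ 2 ≤ M ^ 2 * r ^ n := by
      have h5 : k ^ 2 * r ^ (n + 1 + 1) ≤ k * M ^ 2 := by
        rcases le_max_iff.1 f2 with h | h
        · calc k ^ 2 * r ^ (n + 1 + 1) ≤ (v A * Y') ^ 2 * r ^ (n + 1 + 1) := by gcongr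
            _ = (v A ^ 2 * r ^ n) * (r * Y') ^ 2 := by ring
            _ ≤ k * M ^ 2 := by gcongr
        · calc k ^ 2 * r ^ (n + 1 + 1) ≤ (v C * X') ^ 2 * r ^ (n + 1 + 1) := by gcongr
            _ = (v C ^ 2 * r ^ (n + 1 + 1)) * X' ^ 2 := by ring
            _ ≤ k * M ^ 2 := by gcongr
      have h6 : k * (k * (r ^ (n + 1)) ^ 2) ≤ k * (M ^ 2 * r ^ n) := by
        calc k * (k * (r ^ (n + 1)) ^ 2) = (k ^ 2 * r ^ (n + 1 + 1)) * r ^ n := by ring
          _ ≤ (k * M ^ 2) * r ^ n := by gcongr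
          _ = _ := by ring
      exact le_of_mul_le_mul_left h6 hk0
    have h7 : N ^ (2 * (n + 1)) = s ^ 2 ∨ N ^ (2 * (n + 1)) = (r ^ (n + 1)) ^ 2 := by
      rcases max_choice (v x) r with h | h
      · left
        rw [hN, nn, h, hs]; ring
      · right
        rw [hN, nn, h]; ring
    rcases h7 with h | h <;> rw [h]
    · exact g1
    · exact g2

include hv in
theorem nn_bf {d : ℕ} (hd : 1 ≤ d) {A B C D : F} (hκ : A * D - B * C ≠ 0) {r : ℝ} (hr : 0 < r)
    (h1 : v A ^ 2 * r ^ (d - 1) ≤ v (A * D - B * C))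
    (h2 : v C ^ 2 * r ^ (d + 1) ≤ v (A * D - B * C))
    (h3 : v B ^ 2 ≤ v (A * D - B * C) * r ^ (d + 1))
    (h4 : v D ^ 2 ≤ v (A * D - B * C) * r ^ (d - 1)) {x : F} (hx : C * x ^ d + D ≠ 0) :
    (nn v r (bf d A B C D x) * v (C * x ^ d + D)) ^ 2 * r ^ (d - 1) =
      v (A * D - B * C) * nn v r x ^ (2 * d) := by
  rw [← norm_eq v hv hd hκ hr h1 h2 h3 h4 x]
  have h5 : nn v r (bf d A B C D x) * v (C * x ^ d + D) =
      max (v (A * x ^ d + B)) (r * v (C * x ^ d + D)) := by
    rw [nn, max_mul_of_nonneg _ _ (v.nonneg _), bf, map_div₀,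
      div_mul_cancel₀ _ (v.ne_zero hx)]
  rw [h5]

theorem v_root {d : ℕ} (hd : 1 ≤ d) {ζ : F} (hζ : ζ ^ d = 1) : v ζ = 1 := by
  have h := congrArg v hζ
  rw [map_pow, map_one] at h
  exact (pow_eq_one_iff_of_nonneg (v.nonneg _) (by omega)).1 h

theorem bf_sub {d : ℕ} {A B C D x y : F} (hx : C * x ^ d + D ≠ 0) (hy : C * y ^ d + D ≠ 0) :
    bf d A B C D x - bf d A B C D y =
      (A * D - B * C) * (x ^ d - y ^ d) / ((C * x ^ d + D) * (C * y ^ d + D)) := by
  rw [bf, bf, div_sub_div _ _ hx hy]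
  congr 1
  ring

include hv in
theorem dl_step {d : ℕ} (hd : 1 ≤ d) {ω : F} (hω : IsPrimitiveRoot ω d) {A B C D : F}
    (hκ : A * D - B * C ≠ 0) {r : ℝ} (hr : 0 < r)
    (h1 : v A ^ 2 * r ^ (d - 1) ≤ v (A * D - B * C))
    (h2 : v C ^ 2 * r ^ (d + 1) ≤ v (A * D - B * C))
    (h3 : v B ^ 2 ≤ v (A * D - B * C) * r ^ (d + 1))
    (h4 : v D ^ 2 ≤ v (A * D - B * C) * r ^ (d - 1)) {x y : F} (hx : C * x ^ d + D ≠ 0)
    (hy : C * y ^ d + D ≠ 0) :
    dl v r (bf d A B C D x) (bf d A B C D y) =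
      ∏ ζ ∈ nthRootsFinset d (1 : F), dl v r x (ζ * y) := by
  have ex := nn_bf v hv hd hκ hr h1 h2 h3 h4 hx
  have ey := nn_bf v hv hd hκ hr h1 h2 h3 h4 hy
  set k := v (A * D - B * C) with hk
  have hk0 : 0 < k := v.pos hκ
  set N := nn v r x with hN
  set M := nn v r y with hM
  have hN0 : 0 < N := nn_pos v hr x
  have hM0 : 0 < M := nn_pos v hr y
  set N' := nn v r (bf d A B C D x) with hN'
  set M' := nn v r (bf d A B C D y) with hM'
  have hN0' : 0 < N' := nn_pos v hr _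
  have hM0' : 0 < M' := nn_pos v hr _
  set p := v (C * x ^ d + D) with hp
  set q := v (C * y ^ d + D) with hq
  have hp0 : 0 < p := v.pos hx
  have hq0 : 0 < q := v.pos hy
  have e1 : (N' * p) * (M' * q) * r ^ (d - 1) = k * (N ^ d * M ^ d) := by
    have h5 : ((N' * p) * (M' * q) * r ^ (d - 1)) ^ 2 = (k * (N ^ d * M ^ d)) ^ 2 := by
      calc ((N' * p) * (M' * q) * r ^ (d - 1)) ^ 2 =
          ((N' * p) ^ 2 * r ^ (d - 1)) * ((M' * q) ^ 2 * r ^ (d - 1)) := by ring
        _ = (k * N ^ (2 * d)) * (k * M ^ (2 * d)) := by rw [ex, ey]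
        _ = _ := by ring
    exact (pow_left_inj₀ (by positivity) (by positivity) two_ne_zero).1 h5
  have e2 : ∏ ζ ∈ nthRootsFinset d (1 : F), dl v r x (ζ * y) =
      r ^ d * v (x ^ d - y ^ d) / (N ^ d * M ^ d) := by
    have h6 : ∀ ζ ∈ nthRootsFinset d (1 : F), dl v r x (ζ * y) =
        (r / (N * M)) * v (x - ζ * y) := by
      intro ζ hζ
      rw [mem_nthRootsFinset (by omega)] at hζ
      have h7 : nn v r (ζ * y) = M := by
        rw [hM, nn, nn, map_mul, v_root v hd hζ, one_mul]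
      rw [dl, h7]
      ring
    rw [Finset.prod_congr rfl h6, Finset.prod_mul_distrib, Finset.prod_const,
      hω.card_nthRootsFinset, ← map_prod,
      ← hω.pow_sub_pow_eq_prod_sub_mul x y (by omega), div_pow, mul_pow]
    ring
  rw [e2, dl, bf_sub hx hy, map_div₀, map_mul, map_mul, ← hk, ← hp, ← hq, ← hN', ← hM']
  have hrd : r ^ d = r * r ^ (d - 1) := by
    rw [← pow_succ']
    congr 1
    omega
  have hrp : (0 : ℝ) < r ^ (d - 1) := by positivity
  have e3 : N ^ d * M ^ d = (N' * p) * (M' * q) * r ^ (d - 1) / k := by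
    rw [e1]
    field_simp
  rw [e3, hrd]
  field_simp

end

end GoodAux

open GoodAux

/-- B2 -/
theorem good_struct {F : Type} [Field F] (v : AbsoluteValue F ℝ) (hv : IsNonarchimedean v) {d : ℕ}
    (hd : 3 ≤ d) {ω : F} (hω : IsPrimitiveRoot ω d) {A B C D : F} (hκ : A * D - B * C ≠ 0)
    (hgood : Rv v d A B C D ≤ 0) {x y : F} (hx : AdmA d A B C D x)
    (hy : AdmA d A B C D y) (hxy : Ctrl d A B C D x y) {ζ ζ' : F} (hζ : ζ ^ d = 1) (hζ1 : ζ ≠ 1)
    (hζ' : ζ' ^ d = 1) (hζ1' : ζ' ≠ 1) : v (x - ζ * y) = v (x - ζ' * y) := by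
  classical
  have hd1 : 1 ≤ d := by omega
  have hk0 : 0 < v (A * D - B * C) := v.pos hκ
  have hVd : Vd v d A B C D ≤ v (A * D - B * C) ^ d := by
    have h1 := kappa_pow_le v hv (d := d) (A := A) (B := B) (C := C) (D := D)
    have h2 : 0 < Vd v d A B C D := (pow_pos hk0 d).trans_le h1
    rw [Rv, sub_nonpos, div_le_iff₀ (by positivity)] at hgood
    rw [← Real.log_le_log_iff h2 (pow_pos hk0 d), Real.log_pow]
    linarith
  obtain ⟨r, hr, h1, h2, h3, h4⟩ := exists_scale (d := d) (by omega) (v.nonneg A) (v.nonneg B)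
    (v.nonneg C) (v.nonneg D) (by
      by_contra h
      push Not at h
      have hA : A = 0 := v.eq_zero.1 (le_antisymm h.1 (v.nonneg _))
      have hC : C = 0 := v.eq_zero.1 (le_antisymm h.2 (v.nonneg _))
      exact hκ (by rw [hA, hC]; ring)) (by
      by_contra h
      push Not at h
      have hB : B = 0 := v.eq_zero.1 (le_antisymm h.1 (v.nonneg _))
      have hD : D = 0 := v.eq_zero.1 (le_antisymm h.2 (v.nonneg _))
      exact hκ (by rw [hB, hD]; ring)) hk0
    (((le_max_left _ _).trans (le_max_left _ _)).trans hVd)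
    (((le_max_right _ _).trans (le_max_left _ _)).trans hVd)
    (((le_max_left _ _).trans (le_max_right _ _)).trans hVd)
    (((le_max_right _ _).trans (le_max_right _ _)).trans hVd)
  have step : ∀ {s t : F}, C * s ^ d + D ≠ 0 → C * t ^ d + D ≠ 0 →
      dl v r (bf d A B C D s) (bf d A B C D t) =
        ∏ ζ ∈ nthRootsFinset d (1 : F), dl v r s (ζ * t) :=
    fun hs ht => dl_step v hv hd1 hω hκ hr h1 h2 h3 h4 hs ht
  have hone : (1 : F) ∈ nthRootsFinset d (1 : F) := by
    rw [mem_nthRootsFinset (by omega)]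
    exact one_pow d
  have step' : ∀ {s t : F}, C * s ^ d + D ≠ 0 → C * t ^ d + D ≠ 0 →
      dl v r (bf d A B C D s) (bf d A B C D t) =
        dl v r s t * ∏ ζ ∈ (nthRootsFinset d (1 : F)).erase 1, dl v r s (ζ * t) := by
    intro s t hs ht
    rw [step hs ht, ← Finset.mul_prod_erase _ _ hone, one_mul]
  have hprod : ∀ s t : F, ∏ ζ ∈ (nthRootsFinset d (1 : F)).erase 1, dl v r s (ζ * t) ≤ 1 :=
    fun s t => Finset.prod_le_one (fun _ _ => dl_nonneg v hr _ _) fun _ _ => dl_le_one v hv hr _ _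
  have mono1 : ∀ {s t : F}, C * s ^ d + D ≠ 0 → C * t ^ d + D ≠ 0 →
      dl v r (bf d A B C D s) (bf d A B C D t) ≤ dl v r s t := by
    intro s t hs ht
    rw [step' hs ht]
    exact mul_le_of_le_one_right (dl_nonneg v hr _ _) (hprod s t)
  -- an orbit
  have anti : ∀ {s t : F}, (∀ i, C * ((bf d A B C D)^[i] s) ^ d + D ≠ 0) →
      (∀ i, C * ((bf d A B C D)^[i] t) ^ d + D ≠ 0) →
      Antitone fun i => dl v r ((bf d A B C D)^[i] s) ((bf d A B C D)^[i] t) := by
    intro s t hs ht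
    refine antitone_nat_of_succ_le fun i => ?_
    rw [Function.iterate_succ_apply', Function.iterate_succ_apply']
    exact mono1 (hs i) (ht i)
  -- all factors are one
  have all_one : ∀ {s t : F} (T : Finset F),
      1 ≤ ∏ ζ ∈ T, dl v r s (ζ * t) → ∀ ζ ∈ T, dl v r s (ζ * t) = 1 := by
    intro s t T hT ζ hζ
    apply le_antisymm (dl_le_one v hv hr _ _)
    by_contra hlt
    push Not at hlt
    have h5 : ∏ ζ ∈ T, dl v r s (ζ * t) ≤ dl v r s (ζ * t) := by
      rw [← Finset.mul_prod_erase _ _ hζ]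
      exact mul_le_of_le_one_right (dl_nonneg v hr _ _)
        (Finset.prod_le_one (fun _ _ => dl_nonneg v hr _ _) fun _ _ => dl_le_one v hv hr _ _)
    linarith
  have periodic : ∀ {s t : F}, s ∈ Function.periodicPts (bf d A B C D) →
      t ∈ Function.periodicPts (bf d A B C D) → s ≠ t →
      (∀ i, C * ((bf d A B C D)^[i] s) ^ d + D ≠ 0) →
      (∀ i, C * ((bf d A B C D)^[i] t) ^ d + D ≠ 0) →
      ∀ ζ ∈ (nthRootsFinset d (1 : F)).erase 1, dl v r s (ζ * t) = 1 := by
    intro s t hs ht hst hs1 ht1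
    obtain ⟨m, hm, hm'⟩ := hs
    obtain ⟨n, hn, hn'⟩ := ht
    have e1 : (bf d A B C D)^[m * n] s = s := hm'.mul_const n
    have e2 : (bf d A B C D)^[m * n] t = t := hn'.const_mul m
    have h5 := anti hs1 ht1 (Nat.mul_pos hm hn : 1 ≤ m * n)
    simp only [e1, e2, Function.iterate_one] at h5
    have hs0 : C * s ^ d + D ≠ 0 := hs1 0
    have ht0 : C * t ^ d + D ≠ 0 := ht1 0
    rw [step' hs0 ht0] at h5
    have h6 : 0 < dl v r s t := by
      have := nn_pos v hr s
      have := nn_pos v hr t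
      have : 0 < v (s - t) := v.pos (sub_ne_zero.2 hst)
      unfold dl
      positivity
    refine all_one _ ?_
    by_contra hlt
    push Not at hlt
    have h7 := mul_lt_mul_of_pos_left hlt h6
    rw [mul_one] at h7
    exact absurd h5 (not_le.2 h7)
  have hx1 : ∀ i, C * ((bf d A B C D)^[i] x) ^ d + D ≠ 0 := fun i => (hx.2.2 i).2
  have hy1 : ∀ i, C * ((bf d A B C D)^[i] y) ^ d + D ≠ 0 := fun i => (hy.2.2 i).2
  have main : ∀ ζ ∈ (nthRootsFinset d (1 : F)).erase 1, dl v r x (ζ * y) = 1 := by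
    rcases hxy with ⟨hpx, hpy, hne⟩ | ⟨m, w, w', hm, hw, hw', hww, hxw, hyw, hyw'⟩
    · exact periodic hpx hpy hne hx1 hy1
    · -- `w'` is an iterate of `y`
      obtain ⟨n, hn, hn'⟩ := hw'
      have e1 : w' = (bf d A B C D)^[(n - 1) + (m + 1)] y := by
        have h5 : (n - 1).succ = n := by omega
        rw [Function.iterate_add_apply, hyw', ← Function.iterate_succ_apply, h5]
        exact hn'.symm
      have hw1 : ∀ i, C * ((bf d A B C D)^[i] w) ^ d + D ≠ 0 := by
        intro i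
        rw [← hxw, ← Function.iterate_add_apply]
        exact hx1 _
      have hw1' : ∀ i, C * ((bf d A B C D)^[i] w') ^ d + D ≠ 0 := by
        intro i
        rw [e1, ← Function.iterate_add_apply]
        exact hy1 _
      have hw0' : w' ≠ 0 := by
        rw [e1]
        exact (hy.2.2 _).1
      set u := (bf d A B C D)^[m] y with hu
      have hu1 : C * u ^ d + D ≠ 0 := hy1 m
      have e2 : bf d A B C D u = bf d A B C D w' := by
        rw [← hyw', Function.iterate_succ_apply']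
      have e3 : u ^ d = w' ^ d := by
        have h5 := bf_sub (A := A) (B := B) (C := C) (D := D) hu1 (hw1' 0)
        rw [Function.iterate_zero, id, e2, sub_self] at h5
        have h6 : (A * D - B * C) * (u ^ d - w' ^ d) = 0 := by
          rcases div_eq_zero_iff.1 h5.symm with h | h
          · exact h
          · exact absurd h (mul_ne_zero hu1 (hw1' 0))
        exact sub_eq_zero.1 ((mul_eq_zero.1 h6).resolve_left hκ)
      have e4 : (u / w') ∈ (nthRootsFinset d (1 : F)).erase 1 := by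
        rw [Finset.mem_erase, mem_nthRootsFinset (by omega)]
        refine ⟨fun h => hyw ((div_eq_one_iff_eq hw0').1 h), ?_⟩
        rw [div_pow, e3, div_self (pow_ne_zero _ hw0')]
      have h5 := periodic hw ⟨n, hn, hn'⟩ hww hw1 hw1' _ e4
      rw [div_mul_cancel₀ _ hw0', ← hxw] at h5
      have h6 := anti hx1 hy1 hm
      simp only [Function.iterate_one] at h6
      have hx0 : C * x ^ d + D ≠ 0 := hx1 0
      have hy0 : C * y ^ d + D ≠ 0 := hy1 0
      rw [← hu, h5, step hx0 hy0] at h6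
      intro ζ hζ
      exact all_one _ h6 ζ (Finset.mem_of_mem_erase hζ)
  have fin : ∀ ζ : F, ζ ^ d = 1 → ζ ≠ 1 → v (x - ζ * y) = nn v r x * nn v r y / r := by
    intro ζ hζ hζ1
    have h5 := main ζ (by
      rw [Finset.mem_erase, mem_nthRootsFinset (by omega)]
      exact ⟨hζ1, hζ⟩)
    have h7 : nn v r (ζ * y) = nn v r y := by
      rw [nn, nn, map_mul, v_root v hd1 hζ, one_mul]
    have hp1 := nn_pos v hr x
    have hp2 := nn_pos v hr y
    rw [dl, h7, div_eq_one_iff_eq (by positivity)] at h5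
    rw [eq_div_iff hr.ne', mul_comm]
    exact h5
  rw [fin ζ hζ hζ1, fin ζ' hζ' hζ1']

end Pool.Agent.MP90787a.B
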