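import Pool.Agent.Lib.MP_90787a_nt.B.Defs
import Pool.Agent.Lib.MP_90787a_nt.Places

set_option autoImplicit false

/-!
# The size of the map at a place, and a real lemma
-/

namespace Pool.Agent.MP90787a.B

open NumberField Height

theorem kappa_pow_le {F : Type} [Field F] (v : AbsoluteValue F ℝ) (hv : IsNonarchimedean v)
    {d : ℕ} {A B C D : F} : v (A * D - B * C) ^ d ≤ Vd v d A B C D := by
  have h1 : v (A * D - B * C) ≤ max (v A * v D) (v B * v C) := by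
    rw [sub_eq_add_neg]
    refine (hv _ _).trans (le_of_eq ?_)
    rw [map_neg_eq_map v, map_mul, map_mul]
  rcases le_max_iff.1 h1 with h | h
  · refine (pow_le_pow_left₀ (v.nonneg _) h d).trans ?_
    exact (le_max_left _ _).trans (le_max_left _ _)
  · refine (pow_le_pow_left₀ (v.nonneg _) h d).trans ?_
    exact (le_max_right _ _).trans (le_max_left _ _)

/-- B0 -/
theorem Rv_nonneg {F : Type} [Field F] (v : AbsoluteValue F ℝ) (hv : IsNonarchimedean v) {d : ℕ}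
    (hd : 1 ≤ d) {A B C D : F} (hκ : A * D - B * C ≠ 0) : 0 ≤ Rv v d A B C D := by
  have h1 := kappa_pow_le v hv (d := d) (A := A) (B := B) (C := C) (D := D)
  have hk : 0 < v (A * D - B * C) := v.pos hκ
  have h2 := Real.log_le_log (pow_pos hk d) h1
  rw [Real.log_pow] at h2
  have hd' : (0 : ℝ) < d := by exact_mod_cast hd
  rw [Rv, sub_nonneg, le_div_iff₀ hd']
  linarith

/-- B0' -/
theorem Rv_finite (L : Type) [Field L] [NumberField L] (d : ℕ) (hd : 1 ≤ d) (A B C D : L)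
    (hκ : A * D - B * C ≠ 0) :
    ∃ U : Finset (FinitePlace L), ∀ v : FinitePlace L, v ∉ U → Rv v.1 d A B C D = 0 := by
  classical
  obtain ⟨U, hU⟩ := UBC90787a.exists_finset_places ({A, B, C, D, A * D - B * C} : Finset L)
  refine ⟨U, fun v hv => ?_⟩
  have hle : ∀ x ∈ ({A, B, C, D, A * D - B * C} : Finset L), v.1 x ≤ 1 := by
    intro x hx
    by_cases h : x = 0
    · rw [h, map_zero]; exact zero_le_one
    · exact (hU v hv x hx h).le
  have hA := hle A (by simp)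
  have hB := hle B (by simp)
  have hC := hle C (by simp)
  have hD := hle D (by simp)
  have hk : v.1 (A * D - B * C) = 1 := hU v hv _ (by simp) hκ
  have h1 := kappa_pow_le v.1 (fun x y => FinitePlace.add_le v x y) (d := d) (A := A) (B := B) (C := C) (D := D)
  have h2 : Vd v.1 d A B C D ≤ 1 := by
    have a0 := v.1.nonneg A
    have b0 := v.1.nonneg B
    have c0 := v.1.nonneg C
    have e0 := v.1.nonneg D
    refine max_le (max_le ?_ ?_) (max_le ?_ ?_)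
    · exact pow_le_one₀ (by positivity) (mul_le_one₀ hA e0 hD)
    · exact pow_le_one₀ (by positivity) (mul_le_one₀ hB c0 hC)
    · exact mul_le_one₀ (pow_le_one₀ a0 hA) (by positivity) (pow_le_one₀ b0 hB)
    · exact mul_le_one₀ (pow_le_one₀ e0 hD) (by positivity) (pow_le_one₀ c0 hC)
  rw [hk, one_pow] at h1
  rw [Rv, le_antisymm h2 h1, hk, Real.log_one]
  simp

/-- a root of a nonnegative real number -/
theorem exists_root {x : ℝ} (hx : 0 ≤ x) {n : ℕ} (hn : n ≠ 0) : ∃ r : ℝ, 0 ≤ r ∧ r ^ n = x :=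
  ⟨x ^ ((n : ℝ)⁻¹), Real.rpow_nonneg hx _, Real.rpow_inv_natCast_pow hx hn⟩

theorem exists_scale {d : ℕ} (hd : 2 ≤ d) {a b c e V : ℝ} (ha : 0 ≤ a) (hb : 0 ≤ b) (hc : 0 ≤ c)
    (he : 0 ≤ e) (_hac : 0 < a ∨ 0 < c) (hbe : 0 < b ∨ 0 < e) (hV : 0 < V)
    (h1 : (a * e) ^ d ≤ V ^ d) (h2 : (b * c) ^ d ≤ V ^ d)
    (h3 : a ^ (d + 1) * b ^ (d - 1) ≤ V ^ d) (h4 : e ^ (d + 1) * c ^ (d - 1) ≤ V ^ d) :
    ∃ r, 0 < r ∧ a ^ 2 * r ^ (d - 1) ≤ V ∧ c ^ 2 * r ^ (d + 1) ≤ V ∧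
      b ^ 2 ≤ V * r ^ (d + 1) ∧ e ^ 2 ≤ V * r ^ (d - 1) := by
  obtain ⟨n, rfl⟩ : ∃ n, d = n + 1 := ⟨d - 1, by omega⟩
  have hn : n ≠ 0 := by omega
  rw [Nat.add_sub_cancel] at h3 h4 ⊢
  have hae : a * e ≤ V := le_of_pow_le_pow_left₀ (by omega) hV.le h1
  have hbc : b * c ≤ V := le_of_pow_le_pow_left₀ (by omega) hV.le h2
  obtain ⟨r1, hr1, hr1'⟩ := exists_root (x := b ^ 2 / V) (by positivity) (n := n + 1 + 1) (by omega)
  obtain ⟨r2, hr2, hr2'⟩ := exists_root (x := e ^ 2 / V) (by positivity) (n := n) hn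
  have hpos : 0 < max r1 r2 := by
    rcases hbe with h | h
    · apply lt_max_of_lt_left
      rcases hr1.eq_or_lt with h0 | h0
      · rw [← h0, zero_pow (by omega)] at hr1'
        have : 0 < b ^ 2 / V := by positivity
        linarith
      · exact h0
    · apply lt_max_of_lt_right
      rcases hr2.eq_or_lt with h0 | h0
      · rw [← h0, zero_pow hn] at hr2'
        have : 0 < e ^ 2 / V := by positivity
        linarith
      · exact h0
  -- the four facts for r1 and r2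
  have A1 : a ^ 2 * r1 ^ n ≤ V := by
    refine le_of_pow_le_pow_left₀ (n := n + 1 + 1) (by omega) hV.le ?_
    have e1 : (a ^ 2 * r1 ^ n) ^ (n + 1 + 1) = (a ^ (n + 1 + 1)) ^ 2 * (r1 ^ (n + 1 + 1)) ^ n := by
      ring
    rw [e1, hr1', div_pow, ← mul_div_assoc, div_le_iff₀ (by positivity)]
    calc (a ^ (n + 1 + 1)) ^ 2 * (b ^ 2) ^ n = (a ^ (n + 1 + 1) * b ^ n) ^ 2 := by ring
      _ ≤ (V ^ (n + 1)) ^ 2 := pow_le_pow_left₀ (by positivity) h3 2
      _ = V ^ (n + 1 + 1) * V ^ n := by ring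
  have C1 : c ^ 2 * r1 ^ (n + 1 + 1) ≤ V := by
    rw [hr1', ← mul_div_assoc, div_le_iff₀ hV]
    calc c ^ 2 * b ^ 2 = (b * c) ^ 2 := by ring
      _ ≤ V ^ 2 := pow_le_pow_left₀ (by positivity) hbc 2
      _ = V * V := by ring
  have A2 : a ^ 2 * r2 ^ n ≤ V := by
    rw [hr2', ← mul_div_assoc, div_le_iff₀ hV]
    calc a ^ 2 * e ^ 2 = (a * e) ^ 2 := by ring
      _ ≤ V ^ 2 := pow_le_pow_left₀ (by positivity) hae 2
      _ = V * V := by ring
  have C2 : c ^ 2 * r2 ^ (n + 1 + 1) ≤ V := by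
    refine le_of_pow_le_pow_left₀ (n := n) hn hV.le ?_
    have e1 : (c ^ 2 * r2 ^ (n + 1 + 1)) ^ n = (c ^ n) ^ 2 * (r2 ^ n) ^ (n + 1 + 1) := by
      ring
    rw [e1, hr2', div_pow, ← mul_div_assoc, div_le_iff₀ (by positivity)]
    calc (c ^ n) ^ 2 * (e ^ 2) ^ (n + 1 + 1) = (e ^ (n + 1 + 1) * c ^ n) ^ 2 := by ring
      _ ≤ (V ^ (n + 1)) ^ 2 := pow_le_pow_left₀ (by positivity) h4 2
      _ = V ^ n * V ^ (n + 1 + 1) := by ring
  refine ⟨max r1 r2, hpos, ?_, ?_, ?_, ?_⟩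
  · rcases max_choice r1 r2 with h | h <;> rw [h]
    · exact A1
    · exact A2
  · rcases max_choice r1 r2 with h | h <;> rw [h]
    · exact C1
    · exact C2
  · have h5 : r1 ^ (n + 1 + 1) ≤ (max r1 r2) ^ (n + 1 + 1) :=
      pow_le_pow_left₀ hr1 (le_max_left _ _) _
    rw [hr1', div_le_iff₀ hV] at h5
    linarith
  · have h5 : r2 ^ n ≤ (max r1 r2) ^ n := pow_le_pow_left₀ hr2 (le_max_right _ _) _
    rw [hr2', div_le_iff₀ hV] at h5
    linarith

end Pool.Agent.MP90787a.B
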