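import Pool.Agent.Lib.MP_90787a_nt.B.Ring
import Pool.Agent.Lib.MP_90787a_nt.B.Good
import Pool.Agent.Lib.MP_90787a_nt.B.Size
import Pool.Agent.Lib.MP_90787a_nt.G.Places

set_option autoImplicit false
set_option linter.unusedVariables false

/-!
Change of field and of place; the classes of the differences of controlled points.
-/

namespace Pool.Agent.MP90787a.B

open NumberField Height

/-! ### Change of field -/

section field

variable {F F' : Type} [Field F] [Field F'] (φ : F →+* F') {d : ℕ} {A B C D : F}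

theorem hm_map (P : F × F) :
    hm d (φ A) (φ B) (φ C) (φ D) (φ P.1, φ P.2) =
      (φ (hm d A B C D P).1, φ (hm d A B C D P).2) := by
  simp [hm]

theorem hm_iterate_map (P : F × F) (n : ℕ) :
    (hm d (φ A) (φ B) (φ C) (φ D))^[n] (φ P.1, φ P.2) =
      (φ ((hm d A B C D)^[n] P).1, φ ((hm d A B C D)^[n] P).2) := by
  induction n with
  | zero => rfl
  | succ n ih =>
    rw [Function.iterate_succ_apply', ih, hm_map, Function.iterate_succ_apply']

theorem wd_map (P Q : F × F) : wd (φ P.1, φ P.2) (φ Q.1, φ Q.2) = φ (wd P Q) := by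
  simp [wd]

theorem bf_map (x : F) : bf d (φ A) (φ B) (φ C) (φ D) (φ x) = φ (bf d A B C D x) := by
  simp [bf]

theorem bf_iterate_map (x : F) (n : ℕ) :
    (bf d (φ A) (φ B) (φ C) (φ D))^[n] (φ x) = φ ((bf d A B C D)^[n] x) := by
  induction n with
  | zero => rfl
  | succ n ih =>
    rw [Function.iterate_succ_apply', ih, bf_map, Function.iterate_succ_apply']

theorem Adm.field_map {x : F} (h : Adm d A B C D (x, 1)) :
    Adm d (φ A) (φ B) (φ C) (φ D) (φ x, 1) := by
  have e : ((φ x, 1) : F' × F') = (φ ((x, 1) : F × F).1, φ ((x, 1) : F × F).2) := by simp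
  obtain ⟨⟨i, j, hij, h1⟩, h2⟩ := h
  refine ⟨⟨i, j, hij, ?_⟩, fun n => ?_⟩
  · rw [e, hm_iterate_map, hm_iterate_map, wd_map, h1, map_zero]
  · rw [e, hm_iterate_map, hm_iterate_map, wd_map]
    exact (map_ne_zero φ).2 (h2 n)

theorem AdmA.field_map {x : F} (h : AdmA d A B C D x) :
    AdmA d (φ A) (φ B) (φ C) (φ D) (φ x) := by
  obtain ⟨⟨i, j, hij, h1⟩, h2, h3⟩ := h
  refine ⟨⟨i, j, hij, ?_⟩, fun n => ?_, fun n => ⟨?_, ?_⟩⟩
  · rw [bf_iterate_map, bf_iterate_map, h1]
  · rw [bf_iterate_map, bf_iterate_map]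
    exact φ.injective.ne (h2 n)
  · rw [bf_iterate_map]
    exact (map_ne_zero φ).2 (h3 n).1
  · rw [bf_iterate_map, ← map_pow, ← map_mul, ← map_add]
    exact (map_ne_zero φ).2 (h3 n).2

theorem periodic_map {x : F} (h : x ∈ Function.periodicPts (bf d A B C D)) :
    φ x ∈ Function.periodicPts (bf d (φ A) (φ B) (φ C) (φ D)) := by
  obtain ⟨n, hn, hp⟩ := h
  refine ⟨n, hn, ?_⟩
  change (bf d (φ A) (φ B) (φ C) (φ D))^[n] (φ x) = φ x
  rw [bf_iterate_map]
  exact congrArg φ hp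

theorem Ctrl.field_map {x y : F} (h : Ctrl d A B C D x y) :
    Ctrl d (φ A) (φ B) (φ C) (φ D) (φ x) (φ y) := by
  rcases h with ⟨hx, hy, hne⟩ | ⟨m, w, w', hm, hw, hw', hne, h1, h2, h3⟩
  · exact Or.inl ⟨periodic_map φ hx, periodic_map φ hy, φ.injective.ne hne⟩
  · refine Or.inr ⟨m, φ w, φ w', hm, periodic_map φ hw, periodic_map φ hw', φ.injective.ne hne,
      ?_, ?_, ?_⟩
    · rw [bf_iterate_map, h1]
    · rw [bf_iterate_map]
      exact φ.injective.ne h2
    · rw [bf_iterate_map, bf_map, h3]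

theorem det_map : φ A * φ D - φ B * φ C = φ (A * D - B * C) := by simp

theorem Rv_comp (v : AbsoluteValue F' ℝ) :
    Rv (v.comp φ.injective) d A B C D = Rv v d (φ A) (φ B) (φ C) (φ D) := by
  have hκ : φ A * φ D - φ B * φ C = φ (A * D - B * C) := by simp
  unfold Rv Vd
  rw [hκ]
  rfl

theorem NR_comp (v : AbsoluteValue F' ℝ) :
    NR (v.comp φ.injective) d A B C D ↔ NR v d (φ A) (φ B) (φ C) (φ D) := by
  have hκ : φ A * φ D - φ B * φ C = φ (A * D - B * C) := by simp
  have hκ' : φ A ^ (d + 1) + φ B * φ C ^ d = φ (A ^ (d + 1) + B * C ^ d) := by simp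
  unfold NR
  rw [hκ, hκ']
  exact Iff.rfl

theorem nonarch_comp {v : AbsoluteValue F' ℝ} (hv : IsNonarchimedean v) :
    IsNonarchimedean (v.comp φ.injective) := by
  intro x y
  change v (φ (x + y)) ≤ max (v (φ x)) (v (φ y))
  rw [map_add]
  exact hv _ _

end field

/-- Controlled points have different images. -/
theorem Ctrl.ne {F : Type} [Field F] {d : ℕ} {A B C D : F} {x y : F} (h : Ctrl d A B C D x y) :
    bf d A B C D x ≠ bf d A B C D y := by
  intro he
  rcases h with ⟨hx, hy, hne⟩ | ⟨m, w, w', hm, hw, hw', hne, h1, h2, h3⟩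
  · exact hne ((Function.bijOn_periodicPts (bf d A B C D)).injOn hx hy he)
  · obtain ⟨k, rfl⟩ : ∃ k, m = k + 1 := ⟨m - 1, by omega⟩
    have h4 : (bf d A B C D)^[k + 1] y = w := by
      rw [← h1, Function.iterate_succ_apply, Function.iterate_succ_apply, he]
    rw [Function.iterate_succ_apply', h4] at h3
    exact hne ((Function.bijOn_periodicPts (bf d A B C D)).injOn hw hw' h3)

/-! ### Tameness -/

section tame

variable {F : Type} [Field F] {v : AbsoluteValue F ℝ} {d n : ℕ} {A B C D : F}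

theorem Tame.nr (h : Tame v d n A B C D) : NR v d A B C D := by
  rcases h with h | h | h
  · exact Or.inl h
  · exact Or.inr (Or.inl h)
  · exact Or.inr (Or.inr h.1)

theorem rpow_pow_comm {x s : ℝ} (hx : 0 ≤ x) (n : ℕ) : (x ^ s) ^ n = (x ^ n) ^ s := by
  rw [← Real.rpow_natCast, ← Real.rpow_mul hx, mul_comm, Real.rpow_mul hx, Real.rpow_natCast]

/-- Tameness depends only on the equivalence class of the absolute value. -/
theorem Tame.rpow {v' : AbsoluteValue F ℝ} {s : ℝ} (hs : 0 < s) (h' : ∀ x : F, v' x = v x ^ s)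
    (hT : Tame v d n A B C D) : Tame v' d n A B C D := by
  have h0 : ∀ x : F, 0 ≤ v x := fun x => v.nonneg x
  have hp : ∀ (x : F) (n : ℕ), v' x ^ n = (v x ^ n) ^ s := fun x n => by
    rw [h', rpow_pow_comm (h0 x)]
  have hm : ∀ (x y : F) (m n : ℕ), v' x ^ m * v' y ^ n = (v x ^ m * v y ^ n) ^ s :=
    fun x y m n => by
      rw [hp, hp, Real.mul_rpow (pow_nonneg (h0 x) m) (pow_nonneg (h0 y) n)]
  have hm1 : ∀ (x y : F) (n : ℕ), v' x * v' y ^ n = (v x * v y ^ n) ^ s := fun x y n => by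
    have := hm x y 1 n
    rwa [pow_one, pow_one] at this
  unfold Tame
  rcases hT with h1 | h1 | ⟨h1, h2⟩
  · left
    rw [hm, hp]
    exact Real.rpow_le_rpow (mul_nonneg (pow_nonneg (h0 _) _) (pow_nonneg (h0 _) _)) h1 hs.le
  · right; left
    rw [hm, hm]
    exact Real.rpow_lt_rpow (mul_nonneg (pow_nonneg (h0 _) _) (pow_nonneg (h0 _) _)) h1 hs
  · right; right
    refine ⟨?_, fun x hx => ?_⟩
    · rw [hp, h']
      exact Real.rpow_le_rpow (pow_nonneg (h0 _) _) h1 hs.le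
    · rw [hm1, h'] at hx
      have h3 : v A * v x ^ d = v B :=
        (Real.rpow_left_inj (mul_nonneg (h0 _) (pow_nonneg (h0 _) _)) (h0 _) hs.ne').1 hx
      obtain ⟨y, hy⟩ := h2 x h3
      refine ⟨y, ?_⟩
      rw [hm, hm1, hy]

/-- The ratio is an `n`-th power. -/
theorem Tame.ratio (hv : IsNonarchimedean v) (hd : 3 ≤ d) (hn : 0 < n) (hκ : A * D - B * C ≠ 0)
    (hbad : 0 < Rv v d A B C D) (h1 : Tame v d n A B C D) (h2 : Tame v d n D C B A) {x : F}
    (hx : AdmA d A B C D x) : ∃ b : F, b ≠ 0 ∧ Real.exp (-Rv v d A B C D) = v b ^ n := by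
  have key : ∀ {A B C D x : F} {q : ℝ}, v (A * D - B * C) ≠ 0 → 0 < q → Tame v d n A B C D →
      v (A * D - B * C) ^ d < v A ^ (d + 1) * v B ^ (d - 1) →
      v D ^ (d + 1) * v C ^ (d - 1) ≤ v A ^ (d + 1) * v B ^ (d - 1) →
      v A * v x ^ d = v B → q * (v A ^ 2 * v x ^ (d - 1)) = v (A * D - B * C) →
      ∃ b : F, b ≠ 0 ∧ q = v b ^ n := by
    intro A B C D x q hκ hq hT a1 a2 a3 a4
    rcases hT with h | h | ⟨-, h⟩
    · exact absurd a1 (not_lt.2 h)
    · exact absurd h (not_lt.2 a2)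
    · obtain ⟨y, hy⟩ := h x a3
      rw [hy] at a4
      have h5 : q * v y ^ n = 1 := by
        have h6 : v (A * D - B * C) * (q * v y ^ n) = v (A * D - B * C) * 1 := by
          rw [mul_one]
          linear_combination a4
        exact mul_left_cancel₀ hκ h6
      have hy0 : y ≠ 0 := by
        rintro rfl
        rw [map_zero, zero_pow hn.ne', mul_zero] at h5
        exact zero_ne_one h5
      have hvy := v.pos hy0
      refine ⟨y⁻¹, inv_ne_zero hy0, ?_⟩
      rw [map_inv₀, inv_pow]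
      exact eq_inv_of_mul_eq_one_left h5
  have hq := Real.exp_pos (-Rv v d A B C D)
  rcases ring_level v hv hd hκ hbad h1.nr h2.nr hx with ⟨a1, a2, a3, a4⟩ | ⟨a1, a2, a3, a4⟩
  · exact key (v.pos hκ).ne' hq h1 a1 a2 a3 a4
  · have e : D * A - C * B = A * D - B * C := by ring
    refine key (A := D) (B := C) (C := B) (D := A) (x := x⁻¹) ?_ hq h2 ?_ a2 ?_ ?_
    · rw [e]; exact (v.pos hκ).ne'
    · rw [e]; exact a1
    · rw [map_inv₀] at a3 ⊢; exact a3
    · rw [e]
      rw [map_inv₀] at a4 ⊢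
      exact a4

end tame

/-- The classes of the `x - ζ y` modulo `n`-th powers at the places where the conditions hold. -/
theorem power_class {F F' : Type} [Field F] [Field F'] (φ : F →+* F') (v : AbsoluteValue F' ℝ)
    (hv : IsNonarchimedean v) {d n : ℕ} (hn : 0 < n)
    (hd : 3 ≤ d) (hvd : v (d : F') = 1) {ω : F'} (hω : IsPrimitiveRoot ω d)
    {A B C D : F} (hκ : A * D - B * C ≠ 0)
    (h1 : Tame (v.comp φ.injective) d n A B C D) (h2 : Tame (v.comp φ.injective) d n D C B A)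
    {x y : F} (hx : AdmA d A B C D x) (hy : AdmA d A B C D y) (hxy : Ctrl d A B C D x y)
    {ζ ζ' : F'} (hζ : ζ ^ d = 1) (hζ1 : ζ ≠ 1) (hζ' : ζ' ^ d = 1) (hζ1' : ζ' ≠ 1) :
    ∃ b : F', b ≠ 0 ∧ v (φ x - ζ * φ y) = v (φ x - ζ' * φ y) * v b ^ n := by
  have hκ' : φ A * φ D - φ B * φ C ≠ 0 := by
    rw [det_map]
    exact (map_ne_zero φ).2 hκ
  rcases le_or_gt (Rv v d (φ A) (φ B) (φ C) (φ D)) 0 with hR | hR
  · refine ⟨1, one_ne_zero, ?_⟩
    rw [map_one, one_pow, mul_one]
    exact good_struct v hv hd hω hκ' hR (hx.field_map φ) (hy.field_map φ) (hxy.field_map φ)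
      hζ hζ1 hζ' hζ1'
  · have hR' : 0 < Rv (v.comp φ.injective) d A B C D := by rwa [Rv_comp]
    obtain ⟨b, hb, hqb⟩ := Tame.ratio (nonarch_comp φ hv) hd hn hκ hR' h1 h2 hx
    rw [Rv_comp] at hqb
    have hqb' : Real.exp (-Rv v d (φ A) (φ B) (φ C) (φ D)) = v (φ b) ^ n := hqb
    have hb' : φ b ≠ 0 := (map_ne_zero φ).2 hb
    obtain ⟨-, h3⟩ := ring_struct v hv hd hvd hω hκ' hR ((NR_comp φ v).1 h1.nr)
      ((NR_comp φ v).1 h2.nr) (hx.field_map φ) (hy.field_map φ)
    obtain ⟨k, hk⟩ := h3 (hxy.field_map φ).ne ζ hζ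
    obtain ⟨k', hk'⟩ := h3 (hxy.field_map φ).ne ζ' hζ'
    have hvb := v.pos hb'
    refine ⟨φ b ^ k / φ b ^ k', div_ne_zero (pow_ne_zero _ hb') (pow_ne_zero _ hb'), ?_⟩
    have e1 : (v (φ b) ^ k / v (φ b) ^ k') ^ n = (v (φ b) ^ n) ^ k / (v (φ b) ^ n) ^ k' := by
      rw [div_pow, ← pow_mul, ← pow_mul, ← pow_mul, ← pow_mul, mul_comm k, mul_comm k']
    rw [hk, hk', hqb', map_div₀, map_pow, map_pow, e1]
    field_simp

/-! ### Places of an extension -/

section above

variable {K L : Type} [Field K] [NumberField K] [Field L] [NumberField L]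

theorem nonarch (w : FinitePlace L) : IsNonarchimedean w.1 := fun x y => FinitePlace.add_le w x y

/-- All but finitely many places of `L` restrict to places outside `S`. -/
theorem exists_above (φ : K →+* L) (S : Finset (FinitePlace K)) :
    ∃ S' : Finset (FinitePlace L), ∀ w : FinitePlace L, w ∉ S' →
      ∃ v : FinitePlace K, v ∉ S ∧ ∃ s : ℝ, 0 < s ∧
        ∀ x : K, (w.1.comp φ.injective) x = v.1 x ^ s := by
  classical
  choose e he using fun v : FinitePlace K => UBC90787a.exists_one_lt v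
  obtain ⟨S', hS'⟩ := UBC90787a.exists_finset_places (S.image fun v => φ (e v))
  refine ⟨S', fun w hw => ?_⟩
  obtain ⟨v, s, hs, h⟩ := G.exists_restrict φ w
  refine ⟨v, fun hv => ?_, s, hs, h⟩
  have h1 := he v
  have h2 : e v ≠ 0 := by
    intro h0
    rw [h0, map_zero] at h1
    linarith
  have h3 := hS' w hw (φ (e v)) (Finset.mem_image_of_mem _ hv) ((map_ne_zero φ).2 h2)
  rw [h] at h3
  have h4 := Real.one_lt_rpow h1 hs
  linarith

end above

end Pool.Agent.MP90787a.B
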