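import Pool.Agent.Lib.MP_90787a_nt.B.Defs
import Pool.Agent.Lib.MP_90787a_nt.T.Heights
import Pool.Agent.Lib.MP_90787a_nt.B.Size

set_option autoImplicit false

/-!
Heights of quotients of admissible preperiodic points of `x ↦ (A x ^ d + B) / (C x ^ d + D)`.
-/

namespace Pool.Agent.MP90787a.B

open NumberField Height

/-- The archimedean part. -/
noncomputable def archR {L : Type} [Field L] [NumberField L] (d : ℕ) (A B C D : L) : ℝ :=
  ∑ w : InfinitePlace L, (w.mult : ℝ) * max 0 (Rv w.1 d A B C D)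

/-! ### Orbits -/

theorem orbit_rep {X : Type} (f : X → X) (x : X) {i j : ℕ} (hij : i < j)
    (h : f^[i] x = f^[j] x) (n : ℕ) : ∃ m : ℕ, m < j ∧ f^[n] x = f^[m] x := by
  induction n using Nat.strong_induction_on with
  | _ n ih =>
    by_cases hn : n < j
    · exact ⟨n, hn, rfl⟩
    · push Not at hn
      obtain ⟨m, hm, hm'⟩ := ih (n - j + i) (by omega)
      refine ⟨m, hm, ?_⟩
      rw [← hm']
      have e1 : n = (n - j) + j := by omega
      conv_lhs => rw [e1]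
      rw [Function.iterate_add_apply, ← h, ← Function.iterate_add_apply]

/-- A function on a finite orbit attains its maximum. -/
theorem orbit_max {X : Type} (f : X → X) (x : X) {i j : ℕ} (hij : i < j)
    (h : f^[i] x = f^[j] x) (H : X → ℝ) :
    ∃ m : ℕ, ∀ n : ℕ, H (f^[n] x) ≤ H (f^[m] x) := by
  obtain ⟨m, -, hm⟩ := Finset.exists_max_image (Finset.range j) (fun n => H (f^[n] x))
    ⟨i, Finset.mem_range.2 hij⟩
  refine ⟨m, fun n => ?_⟩
  obtain ⟨k, hk, hk'⟩ := orbit_rep f x hij h n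
  rw [hk']
  exact hm k (Finset.mem_range.2 hk)

/-! ### The local inequality -/

section Local

variable {F : Type} [Field F]

/-- scale data at a place -/
theorem exists_scale_Rv (v : AbsoluteValue F ℝ) {d : ℕ} (hd : 2 ≤ d) {A B C D : F}
    (hκ : A * D - B * C ≠ 0) {R : ℝ} (hR : Rv v d A B C D ≤ R) :
    ∃ r : ℝ, 0 < r ∧ v A ^ 2 * r ^ (d - 1) ≤ Real.exp R * v (A * D - B * C) ∧
      v C ^ 2 * r ^ (d + 1) ≤ Real.exp R * v (A * D - B * C) ∧
      v B ^ 2 ≤ Real.exp R * v (A * D - B * C) * r ^ (d + 1) ∧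
      v D ^ 2 ≤ Real.exp R * v (A * D - B * C) * r ^ (d - 1) := by
  have hk : 0 < v (A * D - B * C) := v.pos hκ
  have hd0 : (0 : ℝ) < d := by exact_mod_cast (by omega : 0 < d)
  have hA0 : 0 ≤ v A := v.nonneg A
  have hB0 : 0 ≤ v B := v.nonneg B
  have hC0 : 0 ≤ v C := v.nonneg C
  have hD0 : 0 ≤ v D := v.nonneg D
  have hac : 0 < v A ∨ 0 < v C := by
    by_contra h
    push Not at h
    have h1 : A = 0 := v.eq_zero.1 (le_antisymm h.1 hA0)
    have h2 : C = 0 := v.eq_zero.1 (le_antisymm h.2 hC0)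
    apply hκ
    rw [h1, h2]; ring
  have hbe : 0 < v B ∨ 0 < v D := by
    by_contra h
    push Not at h
    have h1 : B = 0 := v.eq_zero.1 (le_antisymm h.1 hB0)
    have h2 : D = 0 := v.eq_zero.1 (le_antisymm h.2 hD0)
    apply hκ
    rw [h1, h2]; ring
  have hVd0 : 0 ≤ Vd v d A B C D := le_trans (by positivity) ((le_max_left _ _).trans (le_max_left _ _))
  have hVd : Vd v d A B C D ≤ (Real.exp R * v (A * D - B * C)) ^ d := by
    rcases hVd0.eq_or_lt with h | h
    · rw [← h]; positivity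
    · rw [← Real.log_le_log_iff h (by positivity), Real.log_pow,
        Real.log_mul (Real.exp_pos R).ne' hk.ne', Real.log_exp]
      rw [Rv, sub_le_iff_le_add, div_le_iff₀ hd0] at hR
      linarith
  refine exists_scale hd hA0 hB0 hC0 hD0 hac hbe (mul_pos (Real.exp_pos R) hk) ?_ ?_ ?_ ?_
  · exact ((le_max_left _ _).trans (le_max_left _ _)).trans hVd
  · exact ((le_max_right _ _).trans (le_max_left _ _)).trans hVd
  · exact ((le_max_left _ _).trans (le_max_right _ _)).trans hVd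
  · exact ((le_max_right _ _).trans (le_max_right _ _)).trans hVd

/-- the local inequality, in squared form -/
theorem local_ineq (v : AbsoluteValue F ℝ) {d : ℕ} (hd : 2 ≤ d) {A B C D : F}
    {c r V : ℝ} (hc : 0 < c) (hr : 0 < r) (hV : 0 < V)
    (hadd : ∀ s t : F, v (s + t) ≤ c * max (v s) (v t))
    (h1 : v A ^ 2 * r ^ (d - 1) ≤ V) (h2 : v C ^ 2 * r ^ (d + 1) ≤ V)
    (h3 : v B ^ 2 ≤ V * r ^ (d + 1)) (h4 : v D ^ 2 ≤ V * r ^ (d - 1))
    {x : F} (hY : C * x ^ d + D ≠ 0) :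
    (v (A * D - B * C) * max (v x) r ^ d) ^ 2 ≤
      (c * v (C * x ^ d + D) * max (v (bf d A B C D x)) r) ^ 2 * (V * r ^ (d - 1)) := by
  set X := A * x ^ d + B with hX
  set Y := C * x ^ d + D with hYdef
  have hvY : 0 < v Y := v.pos hY
  have hbf : bf d A B C D x = X / Y := rfl
  have hM : v Y * max (v (bf d A B C D x)) r = max (v X) (v Y * r) := by
    rw [hbf, map_div₀, mul_max_of_nonneg _ _ hvY.le, mul_div_cancel₀ _ hvY.ne']
  set M := max (v X) (v Y * r) with hMdef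
  have hM0 : 0 ≤ M := le_trans (v.nonneg X) (le_max_left _ _)
  have hXM : v X ≤ M := le_max_left _ _
  have hYM : v Y * r ≤ M := le_max_right _ _
  have hA0 : 0 ≤ v A := v.nonneg A
  have hB0 : 0 ≤ v B := v.nonneg B
  have hC0 : 0 ≤ v C := v.nonneg C
  have hD0 : 0 ≤ v D := v.nonneg D
  have hX0 : 0 ≤ v X := v.nonneg X
  have hk0 : 0 ≤ v (A * D - B * C) := v.nonneg _
  have hrr : r ^ (d + 1) = r ^ (d - 1) * r ^ 2 := by
    rw [← pow_add]; congr 1; omega
  -- a product with a bounded square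
  have key : ∀ p q : ℝ, 0 ≤ p → 0 ≤ q → q ^ 2 ≤ M ^ 2 → ∀ T : ℝ, p ^ 2 ≤ T → (p * q) ^ 2 ≤ M ^ 2 * T := by
    intro p q _ _ hq T hp
    rw [mul_pow, mul_comm]
    exact mul_le_mul hq hp (by positivity) (by positivity)
  have hXM2 : v X ^ 2 ≤ M ^ 2 := pow_le_pow_left₀ hX0 hXM 2
  have hYM2 : (v Y * r) ^ 2 ≤ M ^ 2 := pow_le_pow_left₀ (by positivity) hYM 2
  have sqle : ∀ s t : ℝ, 0 ≤ t → s ^ 2 ≤ t ^ 2 → s ≤ t := fun s t ht h => by
    exact abs_le_of_sq_le_sq' h ht |>.2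
  -- the four products
  have p1 : (v D * v X) ^ 2 ≤ M ^ 2 * (V * r ^ (d - 1)) := key _ _ hD0 hX0 hXM2 _ h4
  have p2 : (v B * v Y) ^ 2 ≤ M ^ 2 * (V * r ^ (d - 1)) := by
    have h5 : (v B * r⁻¹) ^ 2 ≤ V * r ^ (d - 1) := by
      rw [mul_pow, inv_pow, ← div_eq_mul_inv, div_le_iff₀ (by positivity), mul_assoc, ← hrr]
      exact h3
    have := key (v B * r⁻¹) (v Y * r) (by positivity) (by positivity) hYM2 _ h5
    calc (v B * v Y) ^ 2 = ((v B * r⁻¹) * (v Y * r)) ^ 2 := by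
          congr 1; field_simp
      _ ≤ _ := this
  have p3 : (r ^ d * (v C * v X)) ^ 2 ≤ M ^ 2 * (V * r ^ (d - 1)) := by
    have h5 : (r ^ d * v C) ^ 2 ≤ V * r ^ (d - 1) := by
      have e1 : (r ^ d * v C) ^ 2 = (v C ^ 2 * r ^ (d + 1)) * r ^ (d - 1) := by
        have : (r ^ d) ^ 2 = r ^ (d + 1) * r ^ (d - 1) := by
          rw [← pow_mul, ← pow_add]; congr 1; omega
        rw [mul_pow, this]; ring
      rw [e1]
      exact mul_le_mul_of_nonneg_right h2 (by positivity)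
    have := key (r ^ d * v C) (v X) (by positivity) hX0 hXM2 _ h5
    calc (r ^ d * (v C * v X)) ^ 2 = ((r ^ d * v C) * v X) ^ 2 := by ring
      _ ≤ _ := this
  have p4 : (r ^ d * (v A * v Y)) ^ 2 ≤ M ^ 2 * (V * r ^ (d - 1)) := by
    have h5 : (r ^ (d - 1) * v A) ^ 2 ≤ V * r ^ (d - 1) := by
      have e1 : (r ^ (d - 1) * v A) ^ 2 = (v A ^ 2 * r ^ (d - 1)) * r ^ (d - 1) := by ring
      rw [e1]
      exact mul_le_mul_of_nonneg_right h1 (by positivity)
    have := key (r ^ (d - 1) * v A) (v Y * r) (by positivity) (by positivity) hYM2 _ h5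
    have e2 : r ^ d = r ^ (d - 1) * r := by
      rw [← pow_succ]; congr 1; omega
    calc (r ^ d * (v A * v Y)) ^ 2 = ((r ^ (d - 1) * v A) * (v Y * r)) ^ 2 := by
          rw [e2]; ring
      _ ≤ _ := this
  have hT0 : 0 ≤ M ^ 2 * (V * r ^ (d - 1)) := by positivity
  set S := Real.sqrt (M ^ 2 * (V * r ^ (d - 1))) with hS
  have hS0 : 0 ≤ S := Real.sqrt_nonneg _
  have hS2 : S ^ 2 = M ^ 2 * (V * r ^ (d - 1)) := Real.sq_sqrt hT0
  have q1 : v D * v X ≤ S := sqle _ _ hS0 (by rw [hS2]; exact p1)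
  have q2 : v B * v Y ≤ S := sqle _ _ hS0 (by rw [hS2]; exact p2)
  have q3 : r ^ d * (v C * v X) ≤ S := sqle _ _ hS0 (by rw [hS2]; exact p3)
  have q4 : r ^ d * (v A * v Y) ≤ S := sqle _ _ hS0 (by rw [hS2]; exact p4)
  have i1 : v (A * D - B * C) * v x ^ d ≤ c * S := by
    have e1 : (A * D - B * C) * x ^ d = D * X + -(B * Y) := by
      rw [hX, hYdef]; ring
    calc v (A * D - B * C) * v x ^ d = v ((A * D - B * C) * x ^ d) := by rw [map_mul, map_pow]
      _ = v (D * X + -(B * Y)) := by rw [e1]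
      _ ≤ c * max (v (D * X)) (v (-(B * Y))) := hadd _ _
      _ = c * max (v D * v X) (v B * v Y) := by rw [v.map_neg, map_mul, map_mul]
      _ ≤ c * S := mul_le_mul_of_nonneg_left (max_le q1 q2) hc.le
  have i2 : v (A * D - B * C) * r ^ d ≤ c * S := by
    have e1 : (A * D - B * C) = A * Y + -(C * X) := by
      rw [hX, hYdef]; ring
    calc v (A * D - B * C) * r ^ d = v (A * Y + -(C * X)) * r ^ d := by rw [← e1]
      _ ≤ (c * max (v (A * Y)) (v (-(C * X)))) * r ^ d :=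
          mul_le_mul_of_nonneg_right (hadd _ _) (by positivity)
      _ = c * max (r ^ d * (v A * v Y)) (r ^ d * (v C * v X)) := by
          rw [v.map_neg, map_mul, map_mul, mul_assoc, max_mul_of_nonneg _ _ (by positivity)]
          congr 2 <;> ring
      _ ≤ c * S := mul_le_mul_of_nonneg_left (max_le q4 q3) hc.le
  have i3 : v (A * D - B * C) * max (v x) r ^ d ≤ c * S := by
    rcases max_choice (v x) r with h | h
    · rw [h]; exact i1
    · rw [h]; exact i2
  calc (v (A * D - B * C) * max (v x) r ^ d) ^ 2 ≤ (c * S) ^ 2 :=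
        pow_le_pow_left₀ (mul_nonneg hk0 (by positivity)) i3 2
    _ = c ^ 2 * (M ^ 2 * (V * r ^ (d - 1))) := by rw [mul_pow, hS2]
    _ = (c * v Y * max (v (bf d A B C D x)) r) ^ 2 * (V * r ^ (d - 1)) := by
        rw [mul_assoc c, hM]; ring

/-- the local inequality, logarithmic form -/
theorem local_log (v : AbsoluteValue F ℝ) {d : ℕ} (hd : 2 ≤ d) {A B C D : F}
    (hκ : A * D - B * C ≠ 0) {c r R : ℝ} (hc : 0 < c) (hr : 0 < r)
    (hadd : ∀ s t : F, v (s + t) ≤ c * max (v s) (v t))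
    (h1 : v A ^ 2 * r ^ (d - 1) ≤ Real.exp R * v (A * D - B * C))
    (h2 : v C ^ 2 * r ^ (d + 1) ≤ Real.exp R * v (A * D - B * C))
    (h3 : v B ^ 2 ≤ Real.exp R * v (A * D - B * C) * r ^ (d + 1))
    (h4 : v D ^ 2 ≤ Real.exp R * v (A * D - B * C) * r ^ (d - 1))
    {x : F} (hY : C * x ^ d + D ≠ 0) :
    d * Real.log (max (v x) r) ≤ Real.log c + R / 2 - Real.log (v (A * D - B * C)) / 2 +
      (d - 1) / 2 * Real.log r + Real.log (v (C * x ^ d + D)) +
      Real.log (max (v (bf d A B C D x)) r) := by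
  have hk : 0 < v (A * D - B * C) := v.pos hκ
  have hvY : 0 < v (C * x ^ d + D) := v.pos hY
  have hm1 : 0 < max (v x) r := lt_max_of_lt_right hr
  have hm2 : 0 < max (v (bf d A B C D x)) r := lt_max_of_lt_right hr
  have h := local_ineq v hd hc hr (mul_pos (Real.exp_pos R) hk) hadd h1 h2 h3 h4 hY
  have h' := Real.log_le_log (by positivity) h
  rw [Real.log_mul (by positivity) (by positivity), Real.log_pow, Real.log_pow,
    Real.log_mul hk.ne' (by positivity), Real.log_pow, Real.log_mul (by positivity) hm2.ne',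
    Real.log_mul hc.ne' hvY.ne', Real.log_mul (by positivity) (by positivity),
    Real.log_mul (Real.exp_pos R).ne' hk.ne', Real.log_exp, Real.log_pow] at h'
  have e1 : ((d - 1 : ℕ) : ℝ) = d - 1 := by
    rw [Nat.cast_sub (by omega)]; simp
  rw [e1] at h'
  push_cast at h'
  linarith

/-- the quotient at one place -/
theorem posLog_quot_le (v : AbsoluteValue F ℝ) {x y : F} (hy : y ≠ 0) {r : ℝ} (hr : 0 < r) :
    Real.posLog (v (x / y)) ≤ Real.log (max (v x) r) + Real.log (max (v y) r) - Real.log r -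
      Real.log (v y) := by
  have hvy : 0 < v y := v.pos hy
  have h1 : 0 < max (v x) r := lt_max_of_lt_right hr
  have h2 : 0 < max (v y) r := lt_max_of_lt_right hr
  rw [← T.log_max_one (v.nonneg _), map_div₀, ← Real.log_mul h1.ne' h2.ne',
    ← Real.log_div (by positivity) hr.ne', ← Real.log_div (by positivity) hvy.ne']
  refine Real.log_le_log (lt_max_of_lt_left one_pos) ?_
  rw [le_div_iff₀ hvy, le_div_iff₀ hr, max_mul_of_nonneg _ _ hvy.le, one_mul,
    div_mul_cancel₀ _ hvy.ne', max_mul_of_nonneg _ _ hr.le]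
  refine max_le ?_ ?_
  · rw [mul_comm]
    exact mul_le_mul (le_max_right _ _) (le_max_left _ _) hvy.le h1.le
  · exact mul_le_mul (le_max_left _ _) (le_max_right _ _) hr.le h1.le

end Local

/-! ### The global inequality -/

section Global

variable {L : Type} [Field L] [NumberField L]

/-- The size of a point. -/
noncomputable def Hts (U : Finset (FinitePlace L)) (rI : InfinitePlace L → ℝ)
    (rF : FinitePlace L → ℝ) (x : L) : ℝ :=
  ∑ w : InfinitePlace L, (w.mult : ℝ) * Real.log (max (w x) (rI w)) +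
    ∑ v ∈ U, Real.log (max (v x) (rF v))

/-- The size of the scale. -/
noncomputable def Rho (U : Finset (FinitePlace L)) (rI : InfinitePlace L → ℝ)
    (rF : FinitePlace L → ℝ) : ℝ :=
  ∑ w : InfinitePlace L, (w.mult : ℝ) * Real.log (rI w) + ∑ v ∈ U, Real.log (rF v)

theorem quot_le (U : Finset (FinitePlace L)) {rI : InfinitePlace L → ℝ}
    {rF : FinitePlace L → ℝ} (hI : ∀ w, 0 < rI w) (hF : ∀ v, 0 < rF v) {x y : L}
    (hy : y ≠ 0) (hUx : ∀ v, v ∉ U → v x = 1) (hUy : ∀ v, v ∉ U → v y = 1) :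
    logHeight₁ (x / y) ≤ Hts U rI rF x + Hts U rI rF y - Rho U rI rF := by
  have h0 := UBC90787a.sum_log_eq_zero hy U hUy
  rw [T.logHeight₁_eq_sum (x / y) U fun v hv => by
    rw [map_div₀, hUx v hv, hUy v hv, div_one]]
  have h1 : ∑ w : InfinitePlace L, (w.mult : ℝ) * Real.posLog (w (x / y)) ≤
      ∑ w : InfinitePlace L, ((w.mult : ℝ) * Real.log (max (w x) (rI w)) +
        (w.mult : ℝ) * Real.log (max (w y) (rI w)) - (w.mult : ℝ) * Real.log (rI w) -
        (w.mult : ℝ) * Real.log (w y)) := by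
    refine Finset.sum_le_sum fun w _ => ?_
    have h2 := posLog_quot_le w.1 (x := x) hy (hI w)
    rw [← InfinitePlace.coe_apply, ← InfinitePlace.coe_apply, ← InfinitePlace.coe_apply] at h2
    have h3 := mul_le_mul_of_nonneg_left h2 (Nat.cast_nonneg (α := ℝ) w.mult)
    linarith
  have h2 : ∑ v ∈ U, Real.posLog (v (x / y)) ≤
      ∑ v ∈ U, (Real.log (max (v x) (rF v)) + Real.log (max (v y) (rF v)) - Real.log (rF v) -
        Real.log (v y)) := by
    refine Finset.sum_le_sum fun v _ => ?_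
    have h2 := posLog_quot_le v.1 (x := x) hy (hF v)
    rwa [← FinitePlace.coe_apply, ← FinitePlace.coe_apply, ← FinitePlace.coe_apply] at h2
  rw [Finset.sum_sub_distrib, Finset.sum_sub_distrib, Finset.sum_add_distrib] at h1 h2
  rw [Hts, Hts, Rho]
  linarith

theorem step_le {d : ℕ} (hd : 2 ≤ d) {A B C D : L} (hκ : A * D - B * C ≠ 0)
    (U : Finset (FinitePlace L)) {rI : InfinitePlace L → ℝ}
    {rF : FinitePlace L → ℝ} {RI : InfinitePlace L → ℝ} {RF : FinitePlace L → ℝ}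
    (hI : ∀ w : InfinitePlace L, 0 < rI w ∧
      w.1 A ^ 2 * rI w ^ (d - 1) ≤ Real.exp (RI w) * w.1 (A * D - B * C) ∧
      w.1 C ^ 2 * rI w ^ (d + 1) ≤ Real.exp (RI w) * w.1 (A * D - B * C) ∧
      w.1 B ^ 2 ≤ Real.exp (RI w) * w.1 (A * D - B * C) * rI w ^ (d + 1) ∧
      w.1 D ^ 2 ≤ Real.exp (RI w) * w.1 (A * D - B * C) * rI w ^ (d - 1))
    (hF : ∀ v : FinitePlace L, 0 < rF v ∧
      v.1 A ^ 2 * rF v ^ (d - 1) ≤ Real.exp (RF v) * v.1 (A * D - B * C) ∧
      v.1 C ^ 2 * rF v ^ (d + 1) ≤ Real.exp (RF v) * v.1 (A * D - B * C) ∧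
      v.1 B ^ 2 ≤ Real.exp (RF v) * v.1 (A * D - B * C) * rF v ^ (d + 1) ∧
      v.1 D ^ 2 ≤ Real.exp (RF v) * v.1 (A * D - B * C) * rF v ^ (d - 1))
    (hUκ : ∀ v, v ∉ U → v (A * D - B * C) = 1) {x : L} (hY : C * x ^ d + D ≠ 0)
    (hUY : ∀ v, v ∉ U → v (C * x ^ d + D) = 1) :
    d * Hts U rI rF x ≤ Real.log 2 * T.wt L +
      (∑ w : InfinitePlace L, (w.mult : ℝ) * RI w + ∑ v ∈ U, RF v) / 2 +
      (d - 1) / 2 * Rho U rI rF + Hts U rI rF (bf d A B C D x) := by
  have hκ0 := UBC90787a.sum_log_eq_zero hκ U hUκ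
  have hY0 := UBC90787a.sum_log_eq_zero hY U hUY
  have h1 : ∑ w : InfinitePlace L, (d : ℝ) * ((w.mult : ℝ) * Real.log (max (w x) (rI w))) ≤
      ∑ w : InfinitePlace L, (Real.log 2 * (w.mult : ℝ) + (w.mult : ℝ) * RI w / 2 -
        (w.mult : ℝ) * Real.log (w (A * D - B * C)) / 2 +
        (d - 1) / 2 * ((w.mult : ℝ) * Real.log (rI w)) +
        (w.mult : ℝ) * Real.log (w (C * x ^ d + D)) +
        (w.mult : ℝ) * Real.log (max (w (bf d A B C D x)) (rI w))) := by
    refine Finset.sum_le_sum fun w _ => ?_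
    obtain ⟨hr, a1, a2, a3, a4⟩ := hI w
    have h2 := local_log w.1 hd hκ (c := 2) two_pos hr (fun s t => by
      calc w.1 (s + t) ≤ w.1 s + w.1 t := w.1.add_le s t
        _ ≤ max (w.1 s) (w.1 t) + max (w.1 s) (w.1 t) :=
          add_le_add (le_max_left _ _) (le_max_right _ _)
        _ = 2 * max (w.1 s) (w.1 t) := by ring) a1 a2 a3 a4 hY
    simp only [← InfinitePlace.coe_apply] at h2
    have h3 := mul_le_mul_of_nonneg_left h2 (Nat.cast_nonneg (α := ℝ) w.mult)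
    linarith
  have h2 : ∑ v ∈ U, (d : ℝ) * Real.log (max (v x) (rF v)) ≤
      ∑ v ∈ U, (RF v / 2 - Real.log (v (A * D - B * C)) / 2 + (d - 1) / 2 * Real.log (rF v) +
        Real.log (v (C * x ^ d + D)) + Real.log (max (v (bf d A B C D x)) (rF v))) := by
    refine Finset.sum_le_sum fun v _ => ?_
    obtain ⟨hr, a1, a2, a3, a4⟩ := hF v
    have h2 := local_log v.1 hd hκ (c := 1) one_pos hr (fun s t => by
      rw [one_mul]; exact FinitePlace.add_le v s t) a1 a2 a3 a4 hY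
    simp only [← FinitePlace.coe_apply] at h2
    rw [Real.log_one] at h2
    linarith
  simp only [Finset.sum_sub_distrib, Finset.sum_add_distrib, ← Finset.mul_sum,
    ← Finset.sum_div] at h1 h2
  rw [Hts, Hts, Rho, T.wt]
  linarith

end Global

/-- B3 -/
theorem height_quot (L : Type) [Field L] [NumberField L] (d : ℕ) (hd : 2 ≤ d) : ∃ C₀ : ℝ, 0 ≤ C₀ ∧
    ∀ A B C D : L, A * D - B * C ≠ 0 → ∀ U : Finset (FinitePlace L),
      (∀ v : FinitePlace L, v ∉ U → Rv v.1 d A B C D = 0) →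
      ∀ x y : L, AdmA d A B C D x → AdmA d A B C D y →
        logHeight₁ (x / y) ≤ ∑ v ∈ U, Rv v.1 d A B C D + archR d A B C D + C₀ := by
  classical
  have hwt := T.wt_nonneg L
  have hlog2 : 0 ≤ Real.log 2 := Real.log_nonneg (by norm_num)
  have hd1 : (1 : ℝ) ≤ (d : ℝ) - 1 := by
    have : (2 : ℝ) ≤ d := by exact_mod_cast hd
    linarith
  refine ⟨2 * (Real.log 2 * T.wt L), by positivity, ?_⟩
  intro A B C D hκ U hU x y hx hy
  obtain ⟨⟨i, j, hij, hij'⟩, -, hx3⟩ := hx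
  obtain ⟨⟨k, l, hkl, hkl'⟩, -, hy3⟩ := hy
  have hx0 : x ≠ 0 := (hx3 0).1
  have hy0 : y ≠ 0 := (hy3 0).1
  obtain ⟨F₀, hF₀⟩ := UBC90787a.exists_finset_places
    (({A * D - B * C, x, y} : Finset L) ∪
      ((Finset.range j).image fun n => C * ((bf d A B C D)^[n] x) ^ d + D) ∪
      ((Finset.range l).image fun n => C * ((bf d A B C D)^[n] y) ^ d + D))
  set V : Finset (FinitePlace L) := F₀ ∪ U with hV
  have hVF : ∀ v, v ∉ V → v ∉ F₀ := fun v hv h => hv (Finset.mem_union_left _ h)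
  have hVκ : ∀ v, v ∉ V → v (A * D - B * C) = 1 := fun v hv =>
    hF₀ v (hVF v hv) _ (by simp) hκ
  have hVx : ∀ v, v ∉ V → v x = 1 := fun v hv => hF₀ v (hVF v hv) _ (by simp) hx0
  have hVy : ∀ v, v ∉ V → v y = 1 := fun v hv => hF₀ v (hVF v hv) _ (by simp) hy0
  have hVYx : ∀ n : ℕ, ∀ v, v ∉ V → v (C * ((bf d A B C D)^[n] x) ^ d + D) = 1 := by
    intro n v hv
    obtain ⟨m, hm, hm'⟩ := orbit_rep _ x hij hij' n
    rw [hm']
    refine hF₀ v (hVF v hv) _ ?_ (hx3 m).2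
    exact Finset.mem_union_left _ (Finset.mem_union_right _
      (Finset.mem_image.2 ⟨m, Finset.mem_range.2 hm, rfl⟩))
  have hVYy : ∀ n : ℕ, ∀ v, v ∉ V → v (C * ((bf d A B C D)^[n] y) ^ d + D) = 1 := by
    intro n v hv
    obtain ⟨m, hm, hm'⟩ := orbit_rep _ y hkl hkl' n
    rw [hm']
    refine hF₀ v (hVF v hv) _ ?_ (hy3 m).2
    exact Finset.mem_union_right _ (Finset.mem_image.2 ⟨m, Finset.mem_range.2 hm, rfl⟩)
  choose rI hrI using fun w : InfinitePlace L =>
    exists_scale_Rv w.1 hd hκ (le_max_right 0 (Rv w.1 d A B C D))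
  choose rF hrF using fun v : FinitePlace L =>
    exists_scale_Rv v.1 hd hκ (le_refl (Rv v.1 d A B C D))
  have hRF : ∀ v : FinitePlace L, 0 ≤ Rv v.1 d A B C D := fun v =>
    Rv_nonneg v.1 (fun s t => FinitePlace.add_le v s t) (by omega) hκ
  set R : ℝ := ∑ w : InfinitePlace L, (w.mult : ℝ) * max 0 (Rv w.1 d A B C D) +
    ∑ v ∈ V, Rv v.1 d A B C D with hR
  have hR0 : 0 ≤ R := by
    have h1 : 0 ≤ ∑ w : InfinitePlace L, (w.mult : ℝ) * max 0 (Rv w.1 d A B C D) :=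
      Finset.sum_nonneg fun w _ => mul_nonneg (Nat.cast_nonneg _) (le_max_left _ _)
    have h2 : 0 ≤ ∑ v ∈ V, Rv v.1 d A B C D := Finset.sum_nonneg fun v _ => hRF v
    linarith
  have hRU : R = ∑ v ∈ U, Rv v.1 d A B C D + archR d A B C D := by
    have h1 : ∑ v ∈ U, Rv v.1 d A B C D = ∑ v ∈ V, Rv v.1 d A B C D :=
      Finset.sum_subset Finset.subset_union_right fun v _ hv => hU v hv
    rw [hR, h1, archR, add_comm]
  set ρ := Rho V rI rF with hρ
  have main : ∀ z : L, (∃ i j : ℕ, i < j ∧ (bf d A B C D)^[i] z = (bf d A B C D)^[j] z) →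
      (∀ n : ℕ, C * ((bf d A B C D)^[n] z) ^ d + D ≠ 0) →
      (∀ n : ℕ, ∀ v, v ∉ V → v (C * ((bf d A B C D)^[n] z) ^ d + D) = 1) →
      (d - 1) * Hts V rI rF z ≤ Real.log 2 * T.wt L + R / 2 + (d - 1) / 2 * ρ := by
    intro z hz hz1 hz2
    obtain ⟨i, j, hij, hij'⟩ := hz
    obtain ⟨m, hm⟩ := orbit_max (bf d A B C D) z hij hij' (Hts V rI rF)
    have h1 := step_le hd hκ V hrI hrF hVκ (hz1 m) (hz2 m)
    have h2 := hm (m + 1)
    rw [Function.iterate_succ_apply'] at h2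
    have h3 := hm 0
    rw [Function.iterate_zero, id] at h3
    have h4 : (d - 1) * Hts V rI rF z ≤ (d - 1) * Hts V rI rF ((bf d A B C D)^[m] z) :=
      mul_le_mul_of_nonneg_left h3 (by linarith)
    rw [← hR, ← hρ] at h1
    linarith
  have hx4 := main x ⟨i, j, hij, hij'⟩ (fun n => (hx3 n).2) hVYx
  have hy4 := main y ⟨k, l, hkl, hkl'⟩ (fun n => (hy3 n).2) hVYy
  have hq := quot_le V (fun w => (hrI w).1) (fun v => (hrF v).1) hy0 hVx hVy
  rw [← hρ] at hq
  rw [← hRU]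
  have h5 : (d - 1) * logHeight₁ (x / y) ≤
      (d - 1) * (Hts V rI rF x + Hts V rI rF y - ρ) :=
    mul_le_mul_of_nonneg_left hq (by linarith)
  have h6 : (d - 1) * logHeight₁ (x / y) ≤ 2 * (Real.log 2 * T.wt L) + R := by
    linarith
  have h7 : 2 * (Real.log 2 * T.wt L) + R ≤ (d - 1) * (2 * (Real.log 2 * T.wt L) + R) := by
    have h8 : 0 ≤ 2 * (Real.log 2 * T.wt L) + R := by positivity
    exact le_mul_of_one_le_left h8 hd1
  have h8 : (d - 1) * logHeight₁ (x / y) ≤ (d - 1) * (2 * (Real.log 2 * T.wt L) + R) :=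
    h6.trans h7
  have h9 := le_of_mul_le_mul_left h8 (by linarith)
  linarith

end Pool.Agent.MP90787a.B
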