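import Pool.Agent.Lib.MP_90787a_nt.B.Wgt
import Pool.Agent.Lib.MP_90787a_nt.RF.Main2
import Pool.Agent.Lib.MP_90787a_nt.B.Hgt

set_option autoImplicit false

/-!
The bound from the theorem on rational maps.
-/

namespace Pool.Agent.MP90787a.B

open NumberField Height Polynomial

section poly

variable {F : Type} [Field F]

open Classical in
theorem natDegree_bin {A B : F} {d : ℕ} (hd : 1 ≤ d) :
    (C A * X ^ d + C B : F[X]).natDegree = if A = 0 then 0 else d := by
  split_ifs with h
  · simp [h]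
  · rw [natDegree_add_C, natDegree_C_mul_X_pow _ _ h]

theorem coprime_bin {A B C₁ D : F} (hκ : A * D - B * C₁ ≠ 0) (d : ℕ) :
    IsCoprime (C A * X ^ d + C B : F[X]) (C C₁ * X ^ d + C D) := by
  refine ⟨C (-(C₁ / (A * D - B * C₁))), C (A / (A * D - B * C₁)), ?_⟩
  have h1 : (C (-(C₁ / (A * D - B * C₁))) * (C A * X ^ d + C B) +
      C (A / (A * D - B * C₁)) * (C C₁ * X ^ d + C D) : F[X]) =
      C (-(C₁ / (A * D - B * C₁)) * A + A / (A * D - B * C₁) * C₁) * X ^ d +
        C (-(C₁ / (A * D - B * C₁)) * B + A / (A * D - B * C₁) * D) := by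
    simp only [map_add, map_mul]
    ring
  rw [h1]
  have e1 : -(C₁ / (A * D - B * C₁)) * A + A / (A * D - B * C₁) * C₁ = 0 := by ring
  have e2 : -(C₁ / (A * D - B * C₁)) * B + A / (A * D - B * C₁) * D = 1 := by
    have e3 : -(C₁ / (A * D - B * C₁)) * B + A / (A * D - B * C₁) * D =
        (A * D - B * C₁) / (A * D - B * C₁) := by ring
    rw [e3, div_self hκ]
  rw [e1, e2]
  simp

theorem sum_bin {A B : F} {d : ℕ} (hd : 1 ≤ d) (v : F × F) :
    ∑ i ∈ Finset.range (d + 1), (C A * X ^ d + C B : F[X]).coeff i * v.1 ^ i * v.2 ^ (d - i) =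
      A * v.1 ^ d + B * v.2 ^ d := by
  have hc : ∀ i, (C A * X ^ d + C B : F[X]).coeff i =
      (if i = d then A else 0) + (if i = 0 then B else 0) := by
    intro i
    rw [coeff_add, coeff_C_mul, coeff_X_pow, coeff_C]
    simp
  simp only [hc, add_mul, Finset.sum_add_distrib, ite_mul, zero_mul]
  rw [Finset.sum_ite_eq' (Finset.range (d + 1)) d, Finset.sum_ite_eq' (Finset.range (d + 1)) 0]
  simp

end poly

/-- B6 -/
theorem rm_bound (L : Type) [Field L] [NumberField L] (d : ℕ) (hd : 2 ≤ d)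
    (S : Finset (FinitePlace L)) (σ : ℝ) (hσ : 0 ≤ σ) : ∃ N : ℕ, ∀ A B C D : L, A * D - B * C ≠ 0 →
      (∀ U : Finset (FinitePlace L), Disjoint U S → ∑ v ∈ U, Rv v.1 d A B C D ≤
        σ * (1 + ∑ v ∈ S, Rv v.1 d A B C D + archR d A B C D)) →
      ∀ Z : Finset L, (∀ x ∈ Z, ∃ i j : ℕ, i < j ∧
        wd ((hm d A B C D)^[i] (x, 1)) ((hm d A B C D)^[j] (x, 1)) = 0) → Z.card ≤ N := by
  classical
  choose cf hcf0 hcf using fun v : FinitePlace L => le_finWeight v d hd
  choose ca hca0 hca using fun w : InfinitePlace L => le_archWeight w d hd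
  set c₁ : ℝ := ∑ v ∈ S, cf v with hc₁
  set c₂ : ℝ := ∑ w : InfinitePlace L, ca w with hc₂
  have hc₁0 : 0 ≤ c₁ := Finset.sum_nonneg fun v _ => hcf0 v
  have hc₂0 : 0 ≤ c₂ := Finset.sum_nonneg fun w _ => hca0 w
  set M : ℝ := ∑ w : InfinitePlace L, (w.mult : ℝ) with hM
  have hM0 : 0 ≤ M := Finset.sum_nonneg fun w _ => by positivity
  set c : ℝ := 1 + c₁ * (1 + S.card) + c₂ * (1 + M) with hc
  obtain ⟨Cst, hC⟩ := UBC90787a.rf_main' (Module.finrank ℚ L) d Module.finrank_pos hd (σ * c)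
  refine ⟨⌈Cst * (S.card + 1) * Real.log (S.card + 2)⌉₊, ?_⟩
  intro A B C₁ D hκ hU Z hZ
  have hd1 : 1 ≤ d := by omega
  have hkey := hC L rfl (C A * X ^ d + C B) (C C₁ * X ^ d + C D) (coprime_bin hκ d) (by
      rw [natDegree_bin hd1, natDegree_bin hd1]
      by_cases hA : A = 0
      · have hC1 : C₁ ≠ 0 := by
          rintro rfl
          apply hκ
          rw [hA]
          ring
        simp [hA, hC1]
      · rw [if_neg hA]
        split_ifs
        · simp
        · simp) (hm d A B C₁ D) (fun v => by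
      rw [sum_bin hd1, sum_bin hd1]
      rfl) S ?_ Z ?_
  · have := hkey.trans (Nat.le_ceil _)
    exact_mod_cast this
  · intro U hUS hUg
    have h1 : ∑ v ∈ U, UBC90787a.finWeight v (C A * X ^ d + C B) (C C₁ * X ^ d + C D) d ≤
        ∑ v ∈ U, Rv v.1 d A B C₁ D := Finset.sum_le_sum fun v _ => finWeight_le v d hd hκ
    have h2 := hU U hUS
    set fw : FinitePlace L → ℝ := fun v =>
      UBC90787a.finWeight v (C A * X ^ d + C B) (C C₁ * X ^ d + C D) d with hfw
    set aw : InfinitePlace L → ℝ := fun w =>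
      UBC90787a.archWeight w.embedding (C A * X ^ d + C B) (C C₁ * X ^ d + C D) d with haw
    have hfw0 : ∀ v, 0 ≤ fw v := fun v => UBC90787a.finWeight_nonneg v _ _ d
    have haw0 : ∀ w, 0 ≤ aw w := fun w => UBC90787a.archWeight_nonneg w.embedding _ _ d
    have h3 : ∑ v ∈ S, Rv v.1 d A B C₁ D ≤ c₁ * (S.card + ∑ v ∈ S, fw v) := by
      calc ∑ v ∈ S, Rv v.1 d A B C₁ D ≤ ∑ v ∈ S, c₁ * (1 + fw v) := by
            refine Finset.sum_le_sum fun v hv => (hcf v A B C₁ D hκ).trans ?_
            refine mul_le_mul_of_nonneg_right ?_ (by have := hfw0 v; linarith)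
            exact Finset.single_le_sum (f := cf) (fun v _ => hcf0 v) hv
        _ = _ := by
            rw [← Finset.mul_sum, Finset.sum_add_distrib, Finset.sum_const, nsmul_eq_mul, mul_one]
    have h4 : archR d A B C₁ D ≤ c₂ * (M + ∑ w : InfinitePlace L, (w.mult : ℝ) * aw w) := by
      calc archR d A B C₁ D ≤ ∑ w : InfinitePlace L, (w.mult : ℝ) * (c₂ * (1 + aw w)) := by
            refine Finset.sum_le_sum fun w _ => mul_le_mul_of_nonneg_left ?_ (by positivity)
            have h5 : ca w * (1 + aw w) ≤ c₂ * (1 + aw w) := by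
              refine mul_le_mul_of_nonneg_right ?_ (by have := haw0 w; linarith)
              exact Finset.single_le_sum (f := ca) (fun w _ => hca0 w) (Finset.mem_univ w)
            refine max_le ?_ ((hca w A B C₁ D hκ).trans h5)
            have := haw0 w
            positivity
        _ = _ := by
            rw [hM, ← Finset.sum_add_distrib, Finset.mul_sum]
            exact Finset.sum_congr rfl fun w _ => by ring
    have hF0 : 0 ≤ ∑ v ∈ S, fw v := Finset.sum_nonneg fun v _ => hfw0 v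
    have hA0 : 0 ≤ ∑ w : InfinitePlace L, (w.mult : ℝ) * aw w :=
      Finset.sum_nonneg fun w _ => mul_nonneg (by positivity) (haw0 w)
    set a := ∑ v ∈ S, fw v with ha
    set b := ∑ w : InfinitePlace L, (w.mult : ℝ) * aw w with hb
    have hs0 : (0 : ℝ) ≤ S.card := by positivity
    have h5 : 1 + ∑ v ∈ S, Rv v.1 d A B C₁ D + archR d A B C₁ D ≤ c * (1 + a + b) := by
      have e1 : 1 + ∑ v ∈ S, Rv v.1 d A B C₁ D + archR d A B C₁ D ≤
          1 + c₁ * (S.card + a) + c₂ * (M + b) := by linarith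
      refine e1.trans ?_
      rw [hc]
      have i1 : 0 ≤ c₁ * S.card := by positivity
      have i2 : 0 ≤ c₂ * M := by positivity
      have i3 : 0 ≤ c₁ * S.card * a := by positivity
      have i4 : 0 ≤ c₁ * S.card * b := by positivity
      have i5 : 0 ≤ c₂ * M * a := by positivity
      have i6 : 0 ≤ c₂ * M * b := by positivity
      have i7 : 0 ≤ c₁ * a := by positivity
      have i8 : 0 ≤ c₁ * b := by positivity
      have i9 : 0 ≤ c₂ * a := by positivity
      have i10 : 0 ≤ c₂ * b := by positivity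
      nlinarith
    calc ∑ v ∈ U, fw v ≤ ∑ v ∈ U, Rv v.1 d A B C₁ D := h1
      _ ≤ _ := h2
      _ ≤ σ * (c * (1 + a + b)) := mul_le_mul_of_nonneg_left h5 hσ
      _ = _ := by ring
  · intro x hx
    obtain ⟨i, j, hij, h⟩ := hZ x hx
    refine ⟨j, i, hij, ?_⟩
    unfold wd at h
    linear_combination -h

end Pool.Agent.MP90787a.B
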