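import Pool.Agent.Lib.MP_90787a_nt.B.KissPack
import Pool.Agent.Lib.MP_90787a_nt.B.Field
import Pool.Agent.Lib.MP_90787a_nt.B.Count
import Pool.Agent.Lib.MP_90787a_nt.B.Rm
import Pool.Agent.Lib.MP_90787a_nt.B.Hgt
import Pool.Agent.Lib.MP_90787a_nt.T.Ext

set_option autoImplicit false
set_option linter.unusedVariables false

/-!
The uniform bound for tame bicritical maps.
-/

namespace Pool.Agent.MP90787a.B

open NumberField Height

/-- B9 -/
theorem main (K : Type) [Field K] [NumberField K] (d n : ℕ) (hd : 4 ≤ d) (hn : 2 ≤ n)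
    (hdn : 5 ≤ d ∨ 3 ≤ n) (S : Finset (FinitePlace K)) :
    ∃ N : ℕ, ∀ A B C D : K, A * D - B * C ≠ 0 →
      (∀ v : FinitePlace K, v ∉ S → Tame v.1 d n A B C D ∧ Tame v.1 d n D C B A) →
      ∀ Z : Finset K, (∀ x ∈ Z, Adm d A B C D (x, 1)) → Z.card ≤ N := by
  classical
  obtain ⟨K₁, _, _, φ₁, ω, hω⟩ := T.Ext.exists_ext_primitive K d (by omega)
  obtain ⟨S₀', hS₀'⟩ := exists_above φ₁ S
  obtain ⟨S₀'', hS₀''⟩ := UBC90787a.exists_finset_places ({(d : K₁)} : Finset K₁)
  obtain ⟨L, _, _, φ₂, DD, E, ⟨S₁, hS₁⟩, hD⟩ := pack_gen K₁ d n hd hn hdn ω hω (S₀' ∪ S₀'')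
  obtain ⟨ψ, hψ⟩ : ∃ ψ : K →+* L, ψ = φ₂.comp φ₁ := ⟨_, rfl⟩
  have hψx : ∀ x, ψ x = φ₂ (φ₁ x) := fun x => by rw [hψ]; rfl
  obtain ⟨S₂, hS₂⟩ := exists_above ψ S
  obtain ⟨S₃, hS₃⟩ := UBC90787a.exists_finset_places ({(d : L)} : Finset L)
  obtain ⟨C₀, hC₀, hht⟩ := height_quot L d (by omega)
  obtain ⟨N, H₀, hkiss⟩ := hS₁ 1 3 one_pos
  set σ : ℝ := max (max H₀ C₀) 1 with hσ
  have hσ1 : 1 ≤ σ := le_max_right _ _
  have hσH : H₀ ≤ σ := (le_max_left _ _).trans (le_max_left _ _)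
  have hσC : C₀ ≤ σ := (le_max_right _ _).trans (le_max_left _ _)
  set S' : Finset (FinitePlace L) := S₁ ∪ (S₂ ∪ S₃) with hS'
  obtain ⟨N₁, hN₁⟩ := rm_bound L d (by omega) S' σ (by linarith)
  set M : ℕ := E.card + N with hM
  refine ⟨max N₁ (d ^ (2 * M + 1) * (M + 1)), ?_⟩
  intro A B C D hκ hcond Z hZ
  have hd0 : d ≠ 0 := by omega
  have hdK : (d : K₁) ≠ 0 := by exact_mod_cast hd0
  have hdL : (d : L) ≠ 0 := by exact_mod_cast hd0
  have hκ₁ : φ₁ A * φ₁ D - φ₁ B * φ₁ C ≠ 0 := by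
    rw [det_map]
    exact (map_ne_zero φ₁).2 hκ
  have hκ₂ : ψ A * ψ D - ψ B * ψ C ≠ 0 := by
    rw [det_map]
    exact (map_ne_zero ψ).2 hκ
  have hcond₁ : ∀ v : FinitePlace K₁, v ∉ S₀' →
      Tame (v.1.comp φ₁.injective) d n A B C D ∧ Tame (v.1.comp φ₁.injective) d n D C B A := by
    intro v hv
    obtain ⟨u, hu, s, hs, h⟩ := hS₀' v hv
    obtain ⟨h2, h3⟩ := hcond u hu
    exact ⟨h2.rpow hs h, h3.rpow hs h⟩
  have hcond₂ : ∀ w : FinitePlace L, w ∉ S₂ →
      NR (w.1.comp ψ.injective) d A B C D ∧ NR (w.1.comp ψ.injective) d D C B A := by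
    intro w hw
    obtain ⟨u, hu, s, hs, h⟩ := hS₂ w hw
    obtain ⟨h2, h3⟩ := hcond u hu
    exact ⟨(h2.rpow hs h).nr, (h3.rpow hs h).nr⟩
  by_cases hU : ∀ U : Finset (FinitePlace L), Disjoint U S' →
      ∑ v ∈ U, Rv v.1 d (ψ A) (ψ B) (ψ C) (ψ D) ≤
        σ * (1 + ∑ v ∈ S', Rv v.1 d (ψ A) (ψ B) (ψ C) (ψ D) + archR d (ψ A) (ψ B) (ψ C) (ψ D))
  · -- the theorem on rational maps
    have h1 := hN₁ _ _ _ _ hκ₂ hU (Z.image ψ) (by
      intro x hx
      obtain ⟨z, hz, rfl⟩ := Finset.mem_image.1 hx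
      exact ((hZ z hz).field_map ψ).1)
    rw [Finset.card_image_of_injective _ ψ.injective] at h1
    exact h1.trans (le_max_left _ _)
  · -- the kissing argument
    push Not at hU
    obtain ⟨U, hUS, hUbig⟩ := hU
    obtain ⟨U₀, hU₀⟩ := Rv_finite L d (by omega) _ _ _ _ hκ₂
    set R : FinitePlace L → ℝ := fun v => Rv v.1 d (ψ A) (ψ B) (ψ C) (ψ D) with hR
    have hR0 : ∀ v, 0 ≤ R v := fun v => Rv_nonneg v.1 (nonarch v) (by omega) hκ₂
    set F : Finset (FinitePlace L) := (U₀ \ S').filter fun v => 0 < R v with hF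
    set H : ℝ := ∑ v ∈ F, R v with hH
    have hFH : ∑ v ∈ U₀ \ S', R v = H := by
      rw [hH, hF, Finset.sum_filter]
      refine Finset.sum_congr rfl fun v _ => ?_
      split_ifs with h
      · rfl
      · exact le_antisymm (not_lt.1 h) (hR0 v)
    have hUH : ∑ v ∈ U, R v ≤ H := by
      rw [← hFH]
      calc ∑ v ∈ U, R v = ∑ v ∈ U ∩ U₀, R v := by
            refine (Finset.sum_subset Finset.inter_subset_left fun v hv hv' => ?_).symm
            refine hU₀ v fun h => hv' (Finset.mem_inter.2 ⟨hv, h⟩)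
        _ ≤ _ := by
            refine Finset.sum_le_sum_of_subset_of_nonneg (fun v hv => ?_) fun v _ _ => hR0 v
            rw [Finset.mem_inter] at hv
            rw [Finset.mem_sdiff]
            exact ⟨hv.2, Finset.disjoint_left.1 hUS hv.1⟩
    have hS0 : 0 ≤ ∑ v ∈ S', R v := Finset.sum_nonneg fun v _ => hR0 v
    have ha0 : 0 ≤ archR d (ψ A) (ψ B) (ψ C) (ψ D) :=
      Finset.sum_nonneg fun w _ => mul_nonneg (by positivity) (le_max_left _ _)
    have hbig : σ * (1 + ∑ v ∈ S', R v + archR d (ψ A) (ψ B) (ψ C) (ψ D)) < H :=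
      hUbig.trans_le hUH
    have hHσ : σ < H := by nlinarith
    have hHa : ∑ v ∈ S', R v + archR d (ψ A) (ψ B) (ψ C) (ψ D) ≤ H := by nlinarith
    have hH0 : 0 < H := by linarith
    have hFS : ∀ v ∈ F, v ∉ S' ∧ 0 < R v := fun v hv => by
      rw [hF, Finset.mem_filter, Finset.mem_sdiff] at hv
      exact ⟨hv.1.2, hv.2⟩
    have hFS₂ : ∀ w ∈ F, w ∉ S₂ := fun w hw h => (hFS w hw).1 (by
      rw [hS']
      exact Finset.mem_union_right _ (Finset.mem_union_left _ h))
    -- one bad place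
    obtain ⟨w₀, hw₀⟩ : F.Nonempty := by
      rw [Finset.nonempty_iff_ne_empty]
      intro h
      rw [hH, h, Finset.sum_empty] at hH0
      exact lt_irrefl _ hH0
    have hZ₁ : ∀ x ∈ Z, AdmA d A B C D x := by
      intro x hx
      obtain ⟨h2, h3⟩ := hcond₂ w₀ (hFS₂ w₀ hw₀)
      refine admA_of_adm (w₀.1.comp ψ.injective) (nonarch_comp ψ (nonarch w₀)) (by omega) hκ ?_
        h2 h3 (hZ x hx)
      rw [Rv_comp]
      exact (hFS w₀ hw₀).2
    have hmain : Z.card ≤ d ^ (2 * M + 1) * (M + 1) := by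
      refine count (by omega) M hκ (fun x hx Y hY => ?_) _ hZ₁
      have hx0 : x ≠ 0 := (hx.2.2 0).1
      have hY0 : ∀ y ∈ Y, y ≠ 0 := fun y hy => ((hY y hy).1.2.2 0).1
      have hYE : (Y.filter fun y => φ₁ x / φ₁ y ∈ E).card ≤ E.card := by
        refine Finset.card_le_card_of_injOn (fun y => φ₁ x / φ₁ y) (fun y hy => ?_) ?_
        · exact (Finset.mem_filter.1 hy).2
        · intro a ha b hb hab
          have ha0 := hY0 a (Finset.mem_filter.1 ha).1
          have hb0 := hY0 b (Finset.mem_filter.1 hb).1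
          have hab' : φ₁ x / φ₁ a = φ₁ x / φ₁ b := hab
          rw [div_eq_div_iff ((map_ne_zero φ₁).2 ha0) ((map_ne_zero φ₁).2 hb0)] at hab'
          exact (φ₁.injective (mul_left_cancel₀ ((map_ne_zero φ₁).2 hx0) hab')).symm
      have hsplit := Finset.card_filter_add_card_filter_not (s := Y) fun y => φ₁ x / φ₁ y ∈ E
      set Y₁ := Y.filter fun y => ¬ φ₁ x / φ₁ y ∈ E with hY₁
      have hY₁Y : ∀ y ∈ Y₁, y ∈ Y ∧ φ₁ x / φ₁ y ∉ E := fun y hy => by
        rw [hY₁, Finset.mem_filter] at hy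
        exact hy
      have hinj : (Y₁.image fun y => φ₂ (φ₁ x / φ₁ y)).card = Y₁.card := by
        refine Finset.card_image_of_injOn ?_
        intro y hy y' hy' h
        have hy0 := hY0 y (hY₁Y y hy).1
        have hy0' := hY0 y' (hY₁Y y' hy').1
        have h1 := φ₂.injective h
        rw [div_eq_div_iff ((map_ne_zero φ₁).2 hy0) ((map_ne_zero φ₁).2 hy0')] at h1
        exact (φ₁.injective (mul_left_cancel₀ ((map_ne_zero φ₁).2 hx0) h1)).symm
      have hkey : Y₁.card ≤ N := by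
        rw [← hinj]
        refine hkiss H (hσH.trans hHσ.le) _ F R (fun v hv => ?_) (by rw [one_mul]) ?_
        · obtain ⟨h1, h2⟩ := hFS v hv
          exact ⟨fun h => h1 (Finset.mem_union_left _ h), h2.le⟩
        · intro t ht
          obtain ⟨y, hy, rfl⟩ := Finset.mem_image.1 ht
          obtain ⟨hyY, hyE⟩ := hY₁Y y hy
          obtain ⟨hyA, hxy⟩ := hY y hyY
          have hy0 := hY0 y hyY
          have hy1 : φ₁ y ≠ 0 := (map_ne_zero φ₁).2 hy0
          refine ⟨?_, ?_, ?_⟩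
          · refine hD (φ₁ x) (φ₁ y) hy1 hyE ?_ ?_
            · intro i hi h0
              refine (hxy.field_map φ₁).ne ?_
              have h1 : φ₁ x ^ d = φ₁ y ^ d := by
                rw [sub_eq_zero.1 h0, mul_pow, ← pow_mul, mul_comm i d, pow_mul,
                  hω.pow_eq_one, one_pow, one_mul]
              unfold bf
              rw [h1]
            · intro v hv ζ ζ' hζ hζ' hζ1 hζ1'
              rw [Finset.mem_union, not_or] at hv
              obtain ⟨h2, h3⟩ := hcond₁ v hv.1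
              exact power_class φ₁ v.1 (nonarch v) (by omega) (by omega)
                (hS₀'' v hv.2 _ (Finset.mem_singleton_self _) hdK) hω hκ h2 h3 hx hyA hxy
                hζ hζ1 hζ' hζ1'
          · have h1 := hht _ _ _ _ hκ₂ U₀ hU₀ _ _ (hx.field_map ψ) (hyA.field_map ψ)
            rw [map_div₀, ← hψx, ← hψx]
            have h2 : ∑ v ∈ U₀, R v ≤ ∑ v ∈ S', R v + H := by
              rw [← hFH, ← Finset.sum_inter_add_sum_sdiff U₀ S']
              refine add_le_add ?_ le_rfl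
              exact Finset.sum_le_sum_of_subset_of_nonneg Finset.inter_subset_right
                fun v _ _ => hR0 v
            linarith
          · intro w hw
            obtain ⟨h2, h3⟩ := hcond₂ w (hFS₂ w hw)
            have h1 := (hFS w hw).2
            have hwS := (hFS w hw).1
            have hwd : (w.1.comp φ₂.injective) (d : K₁) = 1 := by
              change w.1 (φ₂ (d : K₁)) = 1
              rw [map_natCast]
              refine hS₃ w (fun h => hwS ?_) _ (Finset.mem_singleton_self _) hdL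
              rw [hS']
              exact Finset.mem_union_right _ (Finset.mem_union_right _ h)
            have e0 : Rv (w.1.comp φ₂.injective) d (φ₁ A) (φ₁ B) (φ₁ C) (φ₁ D) = R w := by
              rw [Rv_comp, hR]
              simp only [hψx]
            have h2' : NR (w.1.comp φ₂.injective) d (φ₁ A) (φ₁ B) (φ₁ C) (φ₁ D) := by
              rw [NR_comp] at h2 ⊢
              simpa only [hψx] using h2
            have h3' : NR (w.1.comp φ₂.injective) d (φ₁ D) (φ₁ C) (φ₁ B) (φ₁ A) := by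
              rw [NR_comp] at h3 ⊢
              simpa only [hψx] using h3
            obtain ⟨⟨ζ, hζ, hle⟩, -⟩ := ring_struct (w.1.comp φ₂.injective)
              (nonarch_comp φ₂ (nonarch w)) (by omega) hwd hω hκ₁ (by rw [e0]; exact h1) h2' h3'
              (hyA.field_map φ₁) (hx.field_map φ₁)
            refine ⟨φ₂ ζ, by rw [← map_pow, hζ, map_one], ?_⟩
            have hvy : 0 < w (φ₂ (φ₁ y)) := T.v_pos w ((map_ne_zero φ₂).2 hy1)
            have e1 : φ₂ (φ₁ x / φ₁ y) - φ₂ ζ = φ₂ (φ₁ x - ζ * φ₁ y) / φ₂ (φ₁ y) := by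
              rw [map_div₀, map_sub, map_mul]
              have := (map_ne_zero φ₂).2 hy1
              field_simp
            rw [e1, map_div₀, div_le_iff₀ hvy]
            rw [e0] at hle
            exact hle
      omega
    exact hmain.trans (le_max_right _ _)

end Pool.Agent.MP90787a.B
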