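import Pool.Agent.Lib.MP_90787a_nt.B.Defs
import Pool.Agent.Lib.MP_90787a_nt.T.KissSq
import Pool.Agent.Lib.MP_90787a_nt.T.Para

set_option autoImplicit false
set_option linter.unusedSectionVars false
set_option linter.unusedVariables false

/-!
The kissing argument on an elliptic curve with arbitrary centres.
-/

namespace Pool.Agent.MP90787a.B

open NumberField Height MvPolynomial

section local_lemmas

variable {L : Type} [Field L] [NumberField L]

/-- Local size of a pair. -/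
noncomputable def n2 (v : FinitePlace L) (x : Fin 2 → L) : ℝ := max (v (x 0)) (v (x 1))

/-- Local size of a triple. -/
noncomputable def n3 (v : FinitePlace L) (x : Fin 3 → L) : ℝ :=
  max (v (x 0)) (max (v (x 1)) (v (x 2)))

lemma le_n3 (v : FinitePlace L) (x : Fin 3 → L) (i : Fin 3) : v (x i) ≤ n3 v x := by
  unfold n3
  fin_cases i
  · exact le_max_left _ _
  · exact (le_max_left _ _).trans (le_max_right _ _)
  · exact (le_max_right _ _).trans (le_max_right _ _)

lemma v_sum_le' (v : FinitePlace L) {ι : Type*} (s : Finset ι) (g : ι → L) {B : ℝ} (hB : 0 ≤ B)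
    (h : ∀ i ∈ s, v (g i) ≤ B) : v (∑ i ∈ s, g i) ≤ B := by
  classical
  induction s using Finset.induction_on with
  | empty => simpa using hB
  | insert a s ha ih =>
    rw [Finset.sum_insert ha]
    refine (T.v_add_le v _ _).trans (max_le (h a (Finset.mem_insert_self _ _)) (ih fun i hi => ?_))
    exact h i (Finset.mem_insert_of_mem hi)

lemma eval_le (v : FinitePlace L) {p : MvPolynomial (Fin 3) L} (hp : p.IsHomogeneous 2)
    (hc : ∀ m, v (p.coeff m) ≤ 1) (z : Fin 3 → L) {N : ℝ} (hN : 0 ≤ N) (hz : ∀ i, v (z i) ≤ N) :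
    v (p.eval z) ≤ N ^ 2 := by
  rw [MvPolynomial.eval_eq]
  refine v_sum_le' v _ _ (by positivity) fun m hm => ?_
  have hm0 : p.coeff m ≠ 0 := MvPolynomial.mem_support_iff.1 hm
  have hdeg : ∑ i ∈ m.support, m i = 2 := by
    have := hp hm0
    rw [Finsupp.weight_apply] at this
    simpa [Finsupp.sum] using this
  rw [map_mul, map_prod]
  calc v (p.coeff m) * ∏ i ∈ m.support, v (z i ^ m i) ≤ 1 * ∏ i ∈ m.support, N ^ m i := by
        refine mul_le_mul (hc m) ?_ (Finset.prod_nonneg fun i _ => T.v_nonneg v _) zero_le_one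
        refine Finset.prod_le_prod (fun i _ => T.v_nonneg v _) fun i _ => ?_
        rw [map_pow]
        exact pow_le_pow_left₀ (T.v_nonneg v _) (hz i) _
    _ = N ^ 2 := by rw [one_mul, Finset.prod_pow_eq_pow_sum, hdeg]

/-- The product of two linear forms. -/
lemma gauss (v : FinitePlace L) (a b : Fin 2 → L) :
    n2 v a * n2 v b ≤ n3 v ![a 0 * b 0, a 0 * b 1 + a 1 * b 0, a 1 * b 1] := by
  have h0 := le_n3 v ![a 0 * b 0, a 0 * b 1 + a 1 * b 0, a 1 * b 1] 0
  have h1 := le_n3 v ![a 0 * b 0, a 0 * b 1 + a 1 * b 0, a 1 * b 1] 1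
  have h2 := le_n3 v ![a 0 * b 0, a 0 * b 1 + a 1 * b 0, a 1 * b 1] 2
  simp only [Matrix.cons_val_zero, Matrix.cons_val_one, Matrix.cons_val] at h0 h1 h2
  rw [map_mul] at h0 h2
  set M := n3 v ![a 0 * b 0, a 0 * b 1 + a 1 * b 0, a 1 * b 1] with hM
  have p0 := T.v_nonneg v (a 0)
  have p1 := T.v_nonneg v (a 1)
  have q0 := T.v_nonneg v (b 0)
  have q1 := T.v_nonneg v (b 1)
  unfold n2
  rcases le_total (v (a 0)) (v (a 1)) with ha | ha <;> rcases le_total (v (b 0)) (v (b 1)) with hb | hb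
  · rw [max_eq_right ha, max_eq_right hb]
    exact h2
  · rw [max_eq_right ha, max_eq_left hb]
    -- a1 b0
    by_contra hcon
    push Not at hcon
    have h3 : v (a 0 * b 1) < v (a 1 * b 0) := by
      rw [map_mul, map_mul]
      rcases eq_or_lt_of_le ha with h4 | h4
      · rcases eq_or_lt_of_le hb with h5 | h5
        · rw [h4] at h0
          linarith
        · rw [h4]
          have : 0 < v (a 1) := by
            rcases eq_or_lt_of_le p1 with h6 | h6
            · rw [← h6, zero_mul] at hcon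
              have := (mul_nonneg p0 q0).trans h0
              linarith
            · exact h6
          exact mul_lt_mul_of_pos_left h5 this
      · have : 0 < v (b 0) := by
          rcases eq_or_lt_of_le q0 with h6 | h6
          · rw [← h6, mul_zero] at hcon
            have := (mul_nonneg p1 q1).trans h2
            linarith
          · exact h6
        calc v (a 0) * v (b 1) ≤ v (a 0) * v (b 0) := mul_le_mul_of_nonneg_left hb p0
          _ < v (a 1) * v (b 0) := mul_lt_mul_of_pos_right h4 this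
    have h4 : v (a 0 * b 1 + a 1 * b 0) = v (a 1 * b 0) := by
      rw [add_comm]
      exact T.v_add_eq v h3
    rw [h4, map_mul] at h1
    linarith
  · rw [max_eq_left ha, max_eq_right hb]
    by_contra hcon
    push Not at hcon
    have h3 : v (a 1 * b 0) < v (a 0 * b 1) := by
      rw [map_mul, map_mul]
      rcases eq_or_lt_of_le ha with h4 | h4
      · rcases eq_or_lt_of_le hb with h5 | h5
        · rw [← h5] at hcon
          linarith
        · rw [h4]
          have : 0 < v (a 0) := by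
            rcases eq_or_lt_of_le p0 with h6 | h6
            · rw [← h6, zero_mul] at hcon
              have := (mul_nonneg p1 q1).trans h2
              linarith
            · exact h6
          exact mul_lt_mul_of_pos_left h5 this
      · have : 0 < v (b 1) := by
          rcases eq_or_lt_of_le q1 with h6 | h6
          · rw [← h6, mul_zero] at hcon
            have := (mul_nonneg p0 q0).trans h0
            linarith
          · exact h6
        calc v (a 1) * v (b 0) ≤ v (a 1) * v (b 1) := mul_le_mul_of_nonneg_left hb p1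
          _ < v (a 0) * v (b 1) := mul_lt_mul_of_pos_right h4 this
    have h4 : v (a 0 * b 1 + a 1 * b 0) = v (a 0 * b 1) := T.v_add_eq v h3
    rw [h4, map_mul] at h1
    linarith
  · rw [max_eq_left ha, max_eq_left hb]
    exact h0

/-- The easy inequality. -/
lemma gauss' (v : FinitePlace L) (a b : Fin 2 → L) :
    n3 v ![a 0 * b 0, a 0 * b 1 + a 1 * b 0, a 1 * b 1] ≤ n2 v a * n2 v b := by
  have p0 := T.v_nonneg v (a 0)
  have p1 := T.v_nonneg v (a 1)
  have q0 := T.v_nonneg v (b 0)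
  have q1 := T.v_nonneg v (b 1)
  have a0 : v (a 0) ≤ n2 v a := le_max_left _ _
  have a1 : v (a 1) ≤ n2 v a := le_max_right _ _
  have b0 : v (b 0) ≤ n2 v b := le_max_left _ _
  have b1 : v (b 1) ≤ n2 v b := le_max_right _ _
  have na : 0 ≤ n2 v a := p0.trans a0
  unfold n3
  simp only [Matrix.cons_val_zero, Matrix.cons_val_one, Matrix.cons_val]
  refine max_le ?_ (max_le ?_ ?_)
  · rw [map_mul]
    exact mul_le_mul a0 b0 q0 na
  · refine (T.v_add_le v _ _).trans (max_le ?_ ?_)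
    · rw [map_mul]
      exact mul_le_mul a0 b1 q1 na
    · rw [map_mul]
      exact mul_le_mul a1 b0 q0 na
  · rw [map_mul]
    exact mul_le_mul a1 b1 q1 na

/-- The place is good for the curve. -/
structure GoodV (W : WeierstrassCurve L) [W.IsElliptic] (v : FinitePlace L) : Prop where
  h1 : ∀ i m, v ((W.addSubMap i).coeff m) ≤ 1
  h2 : ∀ i j m, v ((C (↑W.Δ'⁻¹ : L) * W.addSubMapCoeff (i, j)).coeff m) ≤ 1

theorem goodV_finite (W : WeierstrassCurve L) [W.IsElliptic] :
    ∃ S : Finset (FinitePlace L), ∀ v, v ∉ S → GoodV W v := by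
  classical
  obtain ⟨S, hS⟩ := UBC90787a.exists_finset_places
    ((Finset.univ.biUnion fun i : Fin 3 => (W.addSubMap i).support.image
        fun m => (W.addSubMap i).coeff m) ∪
      (Finset.univ.biUnion fun ij : Fin 3 × Fin 3 =>
        (C (↑W.Δ'⁻¹ : L) * W.addSubMapCoeff ij).support.image
          fun m => (C (↑W.Δ'⁻¹ : L) * W.addSubMapCoeff ij).coeff m))
  refine ⟨S, fun v hv => ⟨fun i m => ?_, fun i j m => ?_⟩⟩
  · by_cases h0 : (W.addSubMap i).coeff m = 0
    · rw [h0, map_zero]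
      exact zero_le_one
    · refine (hS v hv _ ?_ h0).le
      refine Finset.mem_union_left _ (Finset.mem_biUnion.2 ⟨i, Finset.mem_univ _, ?_⟩)
      exact Finset.mem_image_of_mem _ (MvPolynomial.mem_support_iff.2 h0)
  · by_cases h0 : (C (↑W.Δ'⁻¹ : L) * W.addSubMapCoeff (i, j)).coeff m = 0
    · rw [h0, map_zero]
      exact zero_le_one
    · refine (hS v hv _ ?_ h0).le
      refine Finset.mem_union_right _ (Finset.mem_biUnion.2 ⟨(i, j), Finset.mem_univ _, ?_⟩)
      exact Finset.mem_image_of_mem _ (MvPolynomial.mem_support_iff.2 h0)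

variable {W : WeierstrassCurve L} [W.IsElliptic]

/-- Good reduction of the addition-and-subtraction map. -/
theorem GoodV.low {v : FinitePlace L} (h : GoodV W v) (z : Fin 3 → L) :
    n3 v z ^ 2 ≤ n3 v (fun i => (W.addSubMap i).eval z) := by
  have hN : 0 ≤ n3 v z := (T.v_nonneg v _).trans (le_n3 v z 0)
  have hM : 0 ≤ n3 v (fun i => (W.addSubMap i).eval z) :=
    (T.v_nonneg v _).trans (le_n3 v (fun i => (W.addSubMap i).eval z) 0)
  have key : ∀ i, v (z i) ^ 4 ≤ n3 v z ^ 2 * n3 v (fun i => (W.addSubMap i).eval z) := by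
    intro i
    rw [← map_pow, ← W.addSubMapCoeff_condition z i]
    refine v_sum_le' v _ _ (by positivity) fun j _ => ?_
    rw [map_mul]
    refine mul_le_mul ?_ (le_n3 v (fun i => (W.addSubMap i).eval z) j) (T.v_nonneg v _)
      (by positivity)
    exact eval_le v ((W.isHomogeneous_addSubMapCoeff (i, j)).C_mul _) (h.h2 i j) z hN (le_n3 v z)
  rcases eq_or_lt_of_le hN with h0 | h0
  · rw [← h0]
    simpa using hM
  · have h4 : n3 v z ^ 4 ≤ n3 v z ^ 2 * n3 v (fun i => (W.addSubMap i).eval z) := by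
      have : n3 v z = v (z 0) ∨ n3 v z = v (z 1) ∨ n3 v z = v (z 2) := by
        unfold n3
        rcases max_choice (v (z 0)) (max (v (z 1)) (v (z 2))) with h | h
        · exact Or.inl h
        · rw [h]
          right
          exact max_choice _ _
      rcases this with h | h | h
      · calc n3 v z ^ 4 = v (z 0) ^ 4 := by rw [h]
          _ ≤ _ := key 0
      · calc n3 v z ^ 4 = v (z 1) ^ 4 := by rw [h]
          _ ≤ _ := key 1
      · calc n3 v z ^ 4 = v (z 2) ^ 4 := by rw [h]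
          _ ≤ _ := key 2
    have h5 : n3 v z ^ 2 * n3 v z ^ 2 ≤
        n3 v z ^ 2 * n3 v (fun i => (W.addSubMap i).eval z) := by
      rw [← pow_add]
      exact h4
    exact le_of_mul_le_mul_left h5 (by positivity)

/-- The two `x`-coordinates are close. -/
def Cl (v : FinitePlace L) (q : ℝ) (P Q : W.toAffine.Point) : Prop :=
  v (P.xRep 0 * Q.xRep 1 - P.xRep 1 * Q.xRep 0) ≤ q * (n2 v P.xRep * n2 v Q.xRep)

/-- The point is close to the origin. -/
def Sm (v : FinitePlace L) (q : ℝ) (P : W.toAffine.Point) : Prop :=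
  v (P.xRep 1) ≤ q * n2 v P.xRep

lemma n2_pos (v : FinitePlace L) (P : W.toAffine.Point) : 0 < n2 v P.xRep := by
  have h := WeierstrassCurve.Affine.Point.xRep_ne_zero P
  by_contra hcon
  push Not at hcon
  have h0 : v (P.xRep 0) ≤ 0 := (le_max_left _ _).trans hcon
  have h1 : v (P.xRep 1) ≤ 0 := (le_max_right _ _).trans hcon
  apply h
  funext i
  fin_cases i
  · by_contra h2
    exact absurd (T.v_pos v h2) (not_lt.2 h0)
  · by_contra h2
    exact absurd (T.v_pos v h2) (not_lt.2 h1)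

variable [DecidableEq L]

/-- The identity behind everything. -/
lemma basic (v : FinitePlace L) (P Q : W.toAffine.Point) : ∃ c : L, c ≠ 0 ∧
    (W.addSubMap 0).eval (P.sym2x Q) = c * ((P + Q).xRep 0 * (P - Q).xRep 0) ∧
    (W.addSubMap 1).eval (P.sym2x Q) =
      c * ((P + Q).xRep 0 * (P - Q).xRep 1 + (P + Q).xRep 1 * (P - Q).xRep 0) ∧
    (W.addSubMap 2).eval (P.sym2x Q) = c * ((P + Q).xRep 1 * (P - Q).xRep 1) := by
  obtain ⟨c, hc, he⟩ := T.claim W P Q
  refine ⟨c, hc, ?_, ?_, ?_⟩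
  · have := congrFun he 0
    simpa [WeierstrassCurve.Affine.Point.sym2x] using this
  · have := congrFun he 1
    simpa [WeierstrassCurve.Affine.Point.sym2x] using this
  · have := congrFun he 2
    simpa [WeierstrassCurve.Affine.Point.sym2x] using this

/-- If the `x`-coordinates are close, then the sum or the difference is close to the origin. -/
theorem GoodV.sum_or_diff {v : FinitePlace L} (h : GoodV W v) {q : ℝ} (hq : 0 ≤ q)
    {P Q : W.toAffine.Point} (hcl : Cl v q P Q) : Sm v q (P + Q) ∨ Sm v q (P - Q) := by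
  by_contra hcon
  push Not at hcon
  obtain ⟨h1, h2⟩ := hcon
  unfold Sm at h1 h2
  push Not at h1 h2
  obtain ⟨c, hc, e0, e1, e2⟩ := basic v P Q
  have hlow := h.low (P.sym2x Q)
  have hg : n2 v P.xRep * n2 v Q.xRep ≤ n3 v (P.sym2x Q) := gauss v P.xRep Q.xRep
  have hup : n3 v (fun i => (W.addSubMap i).eval (P.sym2x Q)) ≤
      v c * (n2 v (P + Q).xRep * n2 v (P - Q).xRep) := by
    have hg' := gauss' v (P + Q).xRep (P - Q).xRep
    have hc0 := T.v_nonneg v c
    have l0 := le_n3 v ![(P + Q).xRep 0 * (P - Q).xRep 0,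
      (P + Q).xRep 0 * (P - Q).xRep 1 + (P + Q).xRep 1 * (P - Q).xRep 0,
      (P + Q).xRep 1 * (P - Q).xRep 1] 0
    have l1 := le_n3 v ![(P + Q).xRep 0 * (P - Q).xRep 0,
      (P + Q).xRep 0 * (P - Q).xRep 1 + (P + Q).xRep 1 * (P - Q).xRep 0,
      (P + Q).xRep 1 * (P - Q).xRep 1] 1
    have l2 := le_n3 v ![(P + Q).xRep 0 * (P - Q).xRep 0,
      (P + Q).xRep 0 * (P - Q).xRep 1 + (P + Q).xRep 1 * (P - Q).xRep 0,
      (P + Q).xRep 1 * (P - Q).xRep 1] 2
    simp only [Matrix.cons_val_zero, Matrix.cons_val_one, Matrix.cons_val] at l0 l1 l2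
    change max (v ((W.addSubMap 0).eval (P.sym2x Q))) (max (v ((W.addSubMap 1).eval (P.sym2x Q)))
      (v ((W.addSubMap 2).eval (P.sym2x Q)))) ≤ _
    rw [e0, e1, e2, map_mul v c, map_mul v c, map_mul v c]
    refine max_le ?_ (max_le ?_ ?_)
    · exact mul_le_mul_of_nonneg_left (l0.trans hg') hc0
    · exact mul_le_mul_of_nonneg_left (l1.trans hg') hc0
    · exact mul_le_mul_of_nonneg_left (l2.trans hg') hc0
  have hw : (W.addSubMap 2).eval (P.sym2x Q) =
      (P.xRep 0 * Q.xRep 1 - P.xRep 1 * Q.xRep 0) ^ 2 := by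
    have := congrFun (T.addSubMap_eval W (P.xRep 0 * Q.xRep 0)
      (P.xRep 0 * Q.xRep 1 + P.xRep 1 * Q.xRep 0) (P.xRep 1 * Q.xRep 1)) 2
    change (W.addSubMap 2).eval ![P.xRep 0 * Q.xRep 0, P.xRep 0 * Q.xRep 1 + P.xRep 1 * Q.xRep 0,
      P.xRep 1 * Q.xRep 1] = _
    rw [this]
    simp only [Matrix.cons_val]
    ring
  have hP := n2_pos v P
  have hQ := n2_pos v Q
  have hp := n2_pos v (P + Q)
  have hm := n2_pos v (P - Q)
  have hcp : 0 < v c := T.v_pos v hc
  unfold Cl at hcl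
  have h3 : v c * (v ((P + Q).xRep 1) * v ((P - Q).xRep 1)) ≤
      (q * (n2 v P.xRep * n2 v Q.xRep)) ^ 2 := by
    rw [← map_mul, ← map_mul, ← e2, hw, map_pow]
    exact pow_le_pow_left₀ (T.v_nonneg v _) hcl 2
  have h4 : (n2 v P.xRep * n2 v Q.xRep) ^ 2 ≤ v c * (n2 v (P + Q).xRep * n2 v (P - Q).xRep) :=
    (pow_le_pow_left₀ (by positivity) hg 2).trans (hlow.trans hup)
  have h5 : (q * n2 v (P + Q).xRep) * (q * n2 v (P - Q).xRep) <
      v ((P + Q).xRep 1) * v ((P - Q).xRep 1) :=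
    mul_lt_mul'' h1 h2 (by positivity) (by positivity)
  have h6 : (q * (n2 v P.xRep * n2 v Q.xRep)) ^ 2 ≤
      v c * ((q * n2 v (P + Q).xRep) * (q * n2 v (P - Q).xRep)) := by
    calc (q * (n2 v P.xRep * n2 v Q.xRep)) ^ 2 = q ^ 2 * (n2 v P.xRep * n2 v Q.xRep) ^ 2 := by ring
      _ ≤ q ^ 2 * (v c * (n2 v (P + Q).xRep * n2 v (P - Q).xRep)) := by
        exact mul_le_mul_of_nonneg_left h4 (by positivity)
      _ = _ := by ring
  have h7 : v c * ((q * n2 v (P + Q).xRep) * (q * n2 v (P - Q).xRep)) <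
      v c * (v ((P + Q).xRep 1) * v ((P - Q).xRep 1)) := mul_lt_mul_of_pos_left h5 hcp
  linarith

/-- Points close to the origin form a subgroup. -/
theorem GoodV.diff {v : FinitePlace L} (h : GoodV W v) (hb : v W.b₂ ≤ 1 ∧ v W.b₄ ≤ 1 ∧
    v W.b₆ ≤ 1 ∧ v W.b₈ ≤ 1 ∧ v (2 : L) ≤ 1 ∧ v (4 : L) ≤ 1) {q : ℝ} (hq0 : 0 < q)
    {P Q : W.toAffine.Point} (hP : Sm v q P) (hQ : Sm v q Q) : Sm v q (P - Q) := by
  rcases le_or_gt 1 q with hq | hq
  · unfold Sm
    calc v ((P - Q).xRep 1) ≤ n2 v (P - Q).xRep := le_max_right _ _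
      _ = 1 * n2 v (P - Q).xRep := (one_mul _).symm
      _ ≤ q * n2 v (P - Q).xRep := mul_le_mul_of_nonneg_right hq (n2_pos v _).le
  unfold Sm at hP hQ
  have key : ∀ R : W.toAffine.Point, v (R.xRep 1) ≤ q * n2 v R.xRep →
      n2 v R.xRep = v (R.xRep 0) := by
    intro R hR
    have h1 : v (R.xRep 1) < n2 v R.xRep := by
      have := n2_pos v R
      calc v (R.xRep 1) ≤ q * n2 v R.xRep := hR
        _ < 1 * n2 v R.xRep := mul_lt_mul_of_pos_right hq this
        _ = _ := one_mul _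
    unfold n2 at h1 ⊢
    rcases max_choice (v (R.xRep 0)) (v (R.xRep 1)) with h2 | h2
    · exact h2
    · rw [h2] at h1
      exact absurd h1 (lt_irrefl _)
  have hnP := key P hP
  have hnQ := key Q hQ
  have hP0 := n2_pos v P
  have hQ0 := n2_pos v Q
  rw [hnP] at hP hP0
  rw [hnQ] at hQ hQ0
  set p0 := P.xRep 0 with hp0
  set p1 := P.xRep 1 with hp1
  set q0 := Q.xRep 0 with hq0'
  set q1 := Q.xRep 1 with hq1
  obtain ⟨c, hc, e0, e1, e2⟩ := basic v P Q
  have hev := T.addSubMap_eval W (p0 * q0) (p0 * q1 + p1 * q0) (p1 * q1)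
  have hz : P.sym2x Q = ![p0 * q0, p0 * q1 + p1 * q0, p1 * q1] := rfl
  rw [hz] at e0 e1 e2
  have f0 := congrFun hev 0
  have f1 := congrFun hev 1
  have f2 := congrFun hev 2
  simp only [Matrix.cons_val_zero, Matrix.cons_val_one, Matrix.cons_val] at f0 f1 f2
  rw [f0] at e0
  rw [f1] at e1
  rw [f2] at e2
  set s := p0 * q0 with hs
  set t := p0 * q1 + p1 * q0 with ht
  set u := p1 * q1 with hu
  have vs : v s = v p0 * v q0 := map_mul _ _ _
  have vs0 : 0 < v s := by rw [vs]; positivity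
  have vt : v t ≤ q * v s := by
    refine (T.v_add_le v _ _).trans (max_le ?_ ?_)
    · rw [map_mul, vs]
      calc v p0 * v q1 ≤ v p0 * (q * v q0) := mul_le_mul_of_nonneg_left hQ hP0.le
        _ = _ := by ring
    · rw [map_mul, vs]
      calc v p1 * v q0 ≤ (q * v p0) * v q0 := mul_le_mul_of_nonneg_right hP hQ0.le
        _ = _ := by ring
  have vu : v u ≤ q ^ 2 * v s := by
    rw [map_mul, vs]
    calc v p1 * v q1 ≤ (q * v p0) * (q * v q0) :=
          mul_le_mul hP hQ (T.v_nonneg v _) (by positivity)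
      _ = _ := by ring
  obtain ⟨b2, b4, b6, b8, t2, t4⟩ := hb
  have hqs : q * v s < v s := by
    calc q * v s < 1 * v s := mul_lt_mul_of_pos_right hq vs0
      _ = v s := one_mul _
  have hq2 : q ^ 2 * v s ≤ q * v s := by
    have : q ^ 2 ≤ q := by nlinarith
    exact mul_le_mul_of_nonneg_right this vs0.le
  have vt0 := T.v_nonneg v t
  have vu0 := T.v_nonneg v u
  -- first coordinate
  have a0 : v (s ^ 2 - W.b₄ * s * u - W.b₆ * t * u - W.b₈ * u ^ 2) = v s ^ 2 := by
    have k1 : v (W.b₄ * s * u) < v (s ^ 2) := by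
      rw [map_mul, map_mul, map_pow]
      calc v W.b₄ * v s * v u ≤ 1 * v s * (q * v s) := by
            have : v u ≤ q * v s := vu.trans hq2
            gcongr
        _ < v s ^ 2 := by nlinarith
    have k2 : v (W.b₆ * t * u) < v (s ^ 2) := by
      rw [map_mul, map_mul, map_pow]
      calc v W.b₆ * v t * v u ≤ 1 * (q * v s) * (q * v s) := by
            have : v u ≤ q * v s := vu.trans hq2
            gcongr
        _ < v s ^ 2 := by nlinarith
    have k3 : v (W.b₈ * u ^ 2) < v (s ^ 2) := by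
      rw [map_mul, map_pow, map_pow]
      calc v W.b₈ * v u ^ 2 ≤ 1 * (q * v s) ^ 2 := by
            have : v u ≤ q * v s := vu.trans hq2
            gcongr
        _ < v s ^ 2 := by nlinarith
    have m1 : v (s ^ 2 - W.b₄ * s * u) = v (s ^ 2) := T.v_sub_eq v k1
    have m2 : v (s ^ 2 - W.b₄ * s * u - W.b₆ * t * u) = v (s ^ 2) := by
      rw [← m1]
      exact T.v_sub_eq v (by rw [m1]; exact k2)
    have m3 : v (s ^ 2 - W.b₄ * s * u - W.b₆ * t * u - W.b₈ * u ^ 2) = v (s ^ 2) := by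
      rw [← m2]
      exact T.v_sub_eq v (by rw [m2]; exact k3)
    rw [m3, map_pow]
  have a1 : v (2 * t * s + W.b₂ * s * u + W.b₄ * t * u + W.b₆ * u ^ 2) ≤ q * v s ^ 2 := by
    refine (T.v_add_le v _ _).trans (max_le ((T.v_add_le v _ _).trans (max_le
      ((T.v_add_le v _ _).trans (max_le ?_ ?_)) ?_)) ?_)
    · rw [map_mul, map_mul]
      calc v 2 * v t * v s ≤ 1 * (q * v s) * v s := by gcongr
        _ = _ := by ring
    · rw [map_mul, map_mul]
      calc v W.b₂ * v s * v u ≤ 1 * v s * (q * v s) := by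
            have : v u ≤ q * v s := vu.trans hq2
            gcongr
        _ = _ := by ring
    · rw [map_mul, map_mul]
      calc v W.b₄ * v t * v u ≤ 1 * (v s) * (q * v s) := by
            have h1 : v u ≤ q * v s := vu.trans hq2
            have h2 : v t ≤ v s := vt.trans hqs.le
            gcongr
        _ = _ := by ring
    · rw [map_mul, map_pow]
      calc v W.b₆ * v u ^ 2 = v W.b₆ * v u * v u := by ring
        _ ≤ 1 * (v s) * (q * v s) := by
            have h1 : v u ≤ q * v s := vu.trans hq2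
            have h2 : v u ≤ v s := h1.trans hqs.le
            gcongr
        _ = _ := by ring
  have a2 : v (t ^ 2 - 4 * s * u) ≤ q ^ 2 * v s ^ 2 := by
    refine (T.v_sub_le v _ _).trans (max_le ?_ ?_)
    · rw [map_pow]
      calc v t ^ 2 ≤ (q * v s) ^ 2 := by gcongr
        _ = _ := by ring
    · rw [map_mul, map_mul]
      calc v 4 * v s * v u ≤ 1 * v s * (q ^ 2 * v s) := by gcongr
        _ = _ := by ring
  rw [e0] at a0
  rw [e1] at a1
  rw [e2] at a2
  set x0 := (P + Q).xRep 0 with hx0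
  set x1 := (P + Q).xRep 1 with hx1
  set y0 := (P - Q).xRep 0 with hy0
  set y1 := (P - Q).xRep 1 with hy1
  have hcp : 0 < v c := T.v_pos v hc
  rw [map_mul, map_mul] at a0
  rw [map_mul] at a1
  rw [map_mul, map_mul] at a2
  have hxy : 0 < v x0 * v y0 := by
    have : 0 < v c * (v x0 * v y0) := by rw [a0]; positivity
    exact pos_of_mul_pos_right this hcp.le
  have hx0p : 0 < v x0 := by
    have h1 := T.v_nonneg v x0
    have h2 := T.v_nonneg v y0
    rcases eq_or_lt_of_le h1 with h3 | h3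
    · rw [← h3, zero_mul] at hxy
      exact absurd hxy (lt_irrefl _)
    · exact h3
  have hy0p : 0 < v y0 := pos_of_mul_pos_right hxy hx0p.le
  have g1 : v (x0 * y1 + x1 * y0) ≤ q * (v x0 * v y0) := by
    have : v c * v (x0 * y1 + x1 * y0) ≤ v c * (q * (v x0 * v y0)) := by
      calc v c * v (x0 * y1 + x1 * y0) ≤ q * v s ^ 2 := a1
        _ = q * (v c * (v x0 * v y0)) := by rw [a0]
        _ = _ := by ring
    exact le_of_mul_le_mul_left this hcp
  have g2 : v x1 * v y1 ≤ q ^ 2 * (v x0 * v y0) := by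
    have : v c * (v x1 * v y1) ≤ v c * (q ^ 2 * (v x0 * v y0)) := by
      calc v c * (v x1 * v y1) ≤ q ^ 2 * v s ^ 2 := a2
        _ = q ^ 2 * (v c * (v x0 * v y0)) := by rw [a0]
        _ = _ := by ring
    exact le_of_mul_le_mul_left this hcp
  -- conclusion
  have goal : v y1 ≤ q * v y0 := by
    by_contra hcon
    push Not at hcon
    have h1 : q * (v x0 * v y0) < v (x0 * y1) := by
      rw [map_mul]
      calc q * (v x0 * v y0) = v x0 * (q * v y0) := by ring
        _ < v x0 * v y1 := mul_lt_mul_of_pos_left hcon hx0p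
    have h2 : v (x0 * y1) ≤ v (x1 * y0) := by
      by_contra h3
      push Not at h3
      have := T.v_add_eq v h3
      rw [this] at g1
      linarith
    have h3 : v x0 * v y1 ≤ v x1 * v y0 := by rwa [map_mul, map_mul] at h2
    have hy1p : 0 < v y1 := lt_of_le_of_lt (by positivity) hcon
    have h4 : q * v x0 * v y0 < v x1 * v y0 := by
      calc q * v x0 * v y0 = q * (v x0 * v y0) := by ring
        _ < v x0 * v y1 := by rwa [map_mul] at h1
        _ ≤ _ := h3
    have h5 : q * v x0 < v x1 := lt_of_mul_lt_mul_right h4 hy0p.le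
    have h6 : (q * v x0) * (q * v y0) < v x1 * v y1 :=
      mul_lt_mul'' h5 hcon (by positivity) (by positivity)
    have h7 : (q * v x0) * (q * v y0) = q ^ 2 * (v x0 * v y0) := by ring
    linarith
  unfold Sm
  calc v ((P - Q).xRep 1) ≤ q * v y0 := goal
    _ ≤ q * n2 v (P - Q).xRep := mul_le_mul_of_nonneg_left (le_max_left _ _) hq0.le

/-- Three points with pairwise close `x`-coordinates: two of them are close. -/
theorem GoodV.three {v : FinitePlace L} (h : GoodV W v) (hb : v W.b₂ ≤ 1 ∧ v W.b₄ ≤ 1 ∧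
    v W.b₆ ≤ 1 ∧ v W.b₈ ≤ 1 ∧ v (2 : L) ≤ 1 ∧ v (4 : L) ≤ 1) {q : ℝ} (hq0 : 0 < q)
    {P Q R : W.toAffine.Point} (hPQ : Cl v q P Q) (hQR : Cl v q Q R) (hPR : Cl v q P R) :
    Sm v q (P - Q) ∨ Sm v q (Q - R) ∨ Sm v q (P - R) := by
  rcases h.sum_or_diff hq0.le hPQ with h1 | h1
  · rcases h.sum_or_diff hq0.le hQR with h2 | h2
    · right; right
      have := h.diff hb hq0 h1 h2
      rwa [show P + Q - (Q + R) = P - R by abel] at this
    · exact Or.inr (Or.inl h2)
  · exact Or.inl h1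

lemma psi_ge_of_sm {v : FinitePlace L} {w : ℝ} (hw : 0 ≤ w) {P : W.toAffine.Point} (hP : P ≠ 0)
    (h : Sm v (Real.exp (-w)) P) : w ≤ T.psi v P := by
  rcases P with _ | ⟨x, y, hxy⟩
  · exact absurd rfl hP
  · unfold Sm at h
    rw [WeierstrassCurve.Affine.Point.xRep_some] at h
    simp only [n2, Matrix.cons_val_zero, Matrix.cons_val_one, map_one] at h
    change w ≤ Real.posLog (v x)
    have h1 : Real.exp w ≤ max (v x) 1 := by
      have h2 : Real.exp w * 1 ≤ Real.exp w * (Real.exp (-w) * max (v x) 1) :=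
        mul_le_mul_of_nonneg_left h (Real.exp_pos _).le
      rw [← mul_assoc, ← Real.exp_add, add_neg_cancel, Real.exp_zero, one_mul, mul_one] at h2
      exact h2
    rw [Real.posLog_eq_log_max_one (T.v_nonneg v x), max_comm]
    rw [← Real.log_exp w]
    exact Real.log_le_log (Real.exp_pos _) h1

end local_lemmas

/-- The kissing argument. -/
theorem kiss_abs {L : Type} [Field L] [NumberField L] [DecidableEq L] (e₁ e₂ e₃ : L)
    [(T.WE e₁ e₂ e₃).IsElliptic] (hcov : T.CoverProp e₁ e₂ e₃) (m : ℕ) :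
    ∃ S : Finset (FinitePlace L), ∀ (κ C₁ : ℝ), 0 < κ → ∃ (N : ℕ) (H₀ : ℝ), ∀ H : ℝ, H₀ ≤ H →
      ∀ (A : Finset (T.WE e₁ e₂ e₃).toAffine.Point) (F : Finset (FinitePlace L))
        (w : FinitePlace L → ℝ), (∀ v ∈ F, v ∉ S ∧ 0 ≤ w v) → κ * H ≤ ∑ v ∈ F, w v →
        (∀ P ∈ A, T.nh P ≤ C₁ * H) →
        (∀ v ∈ F, ∃ c : (T.WE e₁ e₂ e₃).toAffine.Point → Fin m, ∀ P ∈ A, ∀ Q ∈ A, c P = c Q →
          Cl v (Real.exp (-w v)) P Q) → A.card ≤ N := by
  classical
  obtain ⟨S₁, hS₁⟩ := goodV_finite (T.WE e₁ e₂ e₃)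
  obtain ⟨S₂, hS₂⟩ := UBC90787a.exists_finset_places ({(T.WE e₁ e₂ e₃).b₂, (T.WE e₁ e₂ e₃).b₄,
    (T.WE e₁ e₂ e₃).b₆, (T.WE e₁ e₂ e₃).b₈, 2, 4} : Finset L)
  refine ⟨S₁ ∪ S₂, fun κ C₁ hκ => ?_⟩
  set k : ℕ := 2 * m + 1 with hk
  set Cc : ℝ := max C₁ 1 with hCc
  have hCc1 : 1 ≤ Cc := le_max_right _ _
  have hk0 : (0 : ℝ) < k := by rw [hk]; positivity
  set δ : ℝ := κ / (2 * (k : ℝ) ^ 2 * Cc) with hδ
  have hδ0 : 0 < δ := by positivity
  obtain ⟨N, M₀, hN⟩ := hcov δ k hδ0
  refine ⟨N, max M₀ 1, fun H hH A F w hF hsum hnh hcl => ?_⟩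
  by_contra hcon
  push Not at hcon
  have hH1 : 1 ≤ H := (le_max_right _ _).trans hH
  have hHM : M₀ ≤ Cc * H := by
    have h1 : M₀ ≤ H := (le_max_left _ _).trans hH
    nlinarith
  obtain ⟨B, hBA, hBk, hB⟩ := hN (Cc * H) hHM A (fun P hP => (hnh P hP).trans (by
    have : C₁ ≤ Cc := le_max_left _ _
    nlinarith)) hcon
  have h1 : ∀ v ∈ F, ∃ P ∈ B, ∃ Q ∈ B, w v ≤ T.psi v (P - Q) := by
    intro v hv
    obtain ⟨hvS, hw⟩ := hF v hv
    rw [Finset.mem_union, not_or] at hvS
    obtain ⟨c, hc⟩ := hcl v hv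
    have hgood := hS₁ v hvS.1
    have hle : ∀ x ∈ ({(T.WE e₁ e₂ e₃).b₂, (T.WE e₁ e₂ e₃).b₄,
        (T.WE e₁ e₂ e₃).b₆, (T.WE e₁ e₂ e₃).b₈, 2, 4} : Finset L), v x ≤ 1 := by
      intro x hx
      by_cases h0 : x = 0
      · rw [h0, map_zero]
        exact zero_le_one
      · exact (hS₂ v hvS.2 x hx h0).le
    have hb : v (T.WE e₁ e₂ e₃).b₂ ≤ 1 ∧ v (T.WE e₁ e₂ e₃).b₄ ≤ 1 ∧
        v (T.WE e₁ e₂ e₃).b₆ ≤ 1 ∧ v (T.WE e₁ e₂ e₃).b₈ ≤ 1 ∧ v (2 : L) ≤ 1 ∧ v (4 : L) ≤ 1 :=
      ⟨hle _ (by simp), hle _ (by simp), hle _ (by simp), hle _ (by simp), hle _ (by simp),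
        hle _ (by simp)⟩
    have hcard : (Finset.univ : Finset (Fin m)).card * 2 < B.card := by
      rw [hBk, Finset.card_univ, Fintype.card_fin, hk]
      omega
    obtain ⟨y, _, hy⟩ := Finset.exists_lt_card_fiber_of_mul_lt_card_of_maps_to
      (f := c) (fun P _ => Finset.mem_univ _) hcard
    obtain ⟨P, hP, Q, hQ, R, hR, hPQ, hPR, hQR⟩ := Finset.two_lt_card.1 hy
    rw [Finset.mem_filter] at hP hQ hR
    have hcPQ := hc P (hBA hP.1) Q (hBA hQ.1) (hP.2.trans hQ.2.symm)
    have hcQR := hc Q (hBA hQ.1) R (hBA hR.1) (hQ.2.trans hR.2.symm)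
    have hcPR := hc P (hBA hP.1) R (hBA hR.1) (hP.2.trans hR.2.symm)
    rcases hgood.three hb (Real.exp_pos _) hcPQ hcQR hcPR with h | h | h
    · exact ⟨P, hP.1, Q, hQ.1, psi_ge_of_sm hw (sub_ne_zero.2 hPQ) h⟩
    · exact ⟨Q, hQ.1, R, hR.1, psi_ge_of_sm hw (sub_ne_zero.2 hQR) h⟩
    · exact ⟨P, hP.1, R, hR.1, psi_ge_of_sm hw (sub_ne_zero.2 hPR) h⟩
  have h2 := T.kiss_count B F w (δ * (Cc * H)) h1 hB
  rw [hBk] at h2
  have h3 : (k : ℝ) ^ 2 * (δ * (Cc * H)) = κ * H / 2 := by
    rw [hδ]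
    field_simp
  have h4 : 0 < κ * H := by positivity
  rw [h3] at h2
  linarith

end Pool.Agent.MP90787a.B
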