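import Pool.Agent.Lib.MP_90787a_nt.B.KissAbs
import Pool.Agent.Lib.MP_90787a_nt.T.KissCube

set_option autoImplicit false
set_option linter.unusedSectionVars false
set_option linter.unusedVariables false

/-!
From the kissing argument on an elliptic curve to the property `KissB`.
-/

namespace Pool.Agent.MP90787a.B

open NumberField Height

section general

variable {L : Type} [Field L] [NumberField L] [DecidableEq L]

/-- A parametrisation of `D` by points of a fixed elliptic curve gives the property `KissB`. -/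
theorem kissB_of {d : ℕ} (hd : 0 < d) (m' n : ℕ) (hm' : 0 < m') {e₁ e₂ e₃ : L}
    [(T.WE e₁ e₂ e₃).IsElliptic] (hcov : T.CoverProp e₁ e₂ e₃) {D : Set L}
    (pt : L → (T.WE e₁ e₂ e₃).toAffine.Point) {a c θ : ℝ} (ha : 0 ≤ a) (hθ : 0 < θ)
    (S₀ : Finset (FinitePlace L)) (hnh : ∀ t ∈ D, T.nh (pt t) ≤ a * logHeight₁ t + c)
    (hfib : ∀ P, ∀ A : Finset L, (∀ t ∈ A, t ∈ D ∧ pt t = P) → A.card ≤ n)
    (hcl : ∀ v : FinitePlace L, v ∉ S₀ → ∀ ζ : L, ζ ^ d = 1 → ∀ w : ℝ, 0 ≤ w →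
      ∃ g : L → Fin m', ∀ t ∈ D, ∀ t' ∈ D, v (t - ζ) ≤ Real.exp (-w) →
        v (t' - ζ) ≤ Real.exp (-w) → g t = g t' → Cl v (Real.exp (-(θ * w))) (pt t) (pt t')) :
    KissB L d D := by
  classical
  haveI : Nonempty (Fin m') := ⟨⟨0, hm'⟩⟩
  set R : Finset L := Polynomial.nthRootsFinset d (1 : L) with hR
  have hR1 : ∀ ζ : L, ζ ^ d = 1 ↔ ζ ∈ R := fun ζ => by
    rw [hR, Polynomial.mem_nthRootsFinset hd]
  have hRc : 0 < R.card := Finset.card_pos.2 ⟨1, (hR1 1).1 (one_pow d)⟩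
  obtain ⟨S₁, hS₁⟩ := kiss_abs e₁ e₂ e₃ hcov (R.card * m')
  refine ⟨S₀ ∪ S₁, fun κ C₁ hκ => ?_⟩
  obtain ⟨N', H₀', hN'⟩ := hS₁ (κ * θ) (a * max C₁ 0 + |c|) (by positivity)
  refine ⟨n * N', max H₀' 1, fun H hH A F w hF hsum hA => ?_⟩
  have hH1 : 1 ≤ H := (le_max_right _ _).trans hH
  have hB : (A.image pt).card ≤ N' := by
    refine hN' H ((le_max_left _ _).trans hH) (A.image pt) F (fun v => θ * w v) ?_ ?_ ?_ ?_
    · intro v hv
      obtain ⟨h1, h2⟩ := hF v hv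
      rw [Finset.mem_union, not_or] at h1
      exact ⟨h1.2, by positivity⟩
    · rw [← Finset.mul_sum]
      calc κ * θ * H = θ * (κ * H) := by ring
        _ ≤ _ := mul_le_mul_of_nonneg_left hsum hθ.le
    · intro P hP
      obtain ⟨t, ht, rfl⟩ := Finset.mem_image.1 hP
      obtain ⟨h1, h2, -⟩ := hA t ht
      have h3 : logHeight₁ t ≤ max C₁ 0 * H := by
        have h4 : C₁ ≤ max C₁ 0 := le_max_left _ _
        nlinarith
      have h4 := mul_le_mul_of_nonneg_left h3 ha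
      have h5 : c ≤ |c| * H := by
        have h6 := le_abs_self c
        have h7 := abs_nonneg c
        nlinarith
      have h6 := hnh t h1
      linarith
    · intro v hv
      obtain ⟨hvS, hw⟩ := hF v hv
      rw [Finset.mem_union, not_or] at hvS
      choose! g hg using fun ζ (hζ : ζ ^ d = 1) => hcl v hvS.1 ζ hζ (w v) hw
      have hζ : ∀ t ∈ A, ∃ ζ : L, ζ ^ d = 1 ∧ v (t - ζ) ≤ Real.exp (-w v) :=
        fun t ht => (hA t ht).2.2 v hv
      choose! z hz1 hz2 using hζ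
      have hrep : ∀ P ∈ A.image pt, ∃ t, t ∈ A ∧ pt t = P := fun P hP => by
        obtain ⟨t, ht, h⟩ := Finset.mem_image.1 hP
        exact ⟨t, ht, h⟩
      choose! r hr1 hr2 using hrep
      let idx : L → Fin R.card := fun ζ => if h : ζ ∈ R then R.equivFin ⟨ζ, h⟩ else ⟨0, hRc⟩
      have hidx : ∀ ζ ∈ R, ∀ ζ' ∈ R, idx ζ = idx ζ' → ζ = ζ' := by
        intro ζ h ζ' h' he
        simp only [idx, h, h', dif_pos] at he
        have := R.equivFin.injective he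
        exact congrArg Subtype.val this
      refine ⟨fun P => finProdFinEquiv (idx (z (r P)), g (z (r P)) (r P)), ?_⟩
      intro P hP Q hQ he
      have he' := finProdFinEquiv.injective he
      rw [Prod.mk.injEq] at he'
      have hzz : z (r P) = z (r Q) :=
        hidx _ ((hR1 _).1 (hz1 _ (hr1 P hP))) _ ((hR1 _).1 (hz1 _ (hr1 Q hQ))) he'.1
      have hgg : g (z (r P)) (r P) = g (z (r P)) (r Q) := by
        rw [he'.2, hzz]
      have := hg (z (r P)) (hz1 _ (hr1 P hP)) (r P) (hA _ (hr1 P hP)).1 (r Q)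
        (hA _ (hr1 Q hQ)).1 (hz2 _ (hr1 P hP)) (by rw [hzz]; exact hz2 _ (hr1 Q hQ)) hgg
      rw [hr2 P hP, hr2 Q hQ] at this
      exact this
  refine (Finset.card_le_mul_card_image A n fun P _ => ?_).trans (Nat.mul_le_mul_left _ hB)
  exact hfib P _ fun t ht => by
    rw [Finset.mem_filter] at ht
    exact ⟨(hA t ht.1).1, ht.2⟩

/-- The curve is elliptic. -/
theorem WE_isElliptic {e₁ e₂ e₃ : L} (h12 : e₁ ≠ e₂) (h13 : e₁ ≠ e₃) (h23 : e₂ ≠ e₃) :
    (T.WE e₁ e₂ e₃).IsElliptic := by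
  refine ⟨?_⟩
  rw [isUnit_iff_ne_zero]
  have h : (T.WE e₁ e₂ e₃).Δ = 16 * ((e₁ - e₂) * (e₁ - e₃) * (e₂ - e₃)) ^ 2 := by
    simp only [T.WE, WeierstrassCurve.Δ, WeierstrassCurve.b₂, WeierstrassCurve.b₄,
      WeierstrassCurve.b₆, WeierstrassCurve.b₈]
    ring
  rw [h]
  exact mul_ne_zero (by norm_num) (pow_ne_zero 2 (mul_ne_zero (mul_ne_zero
    (sub_ne_zero.2 h12) (sub_ne_zero.2 h13)) (sub_ne_zero.2 h23)))

/-- Four linear forms whose product is a square. -/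
theorem kissB_sq
    (hcov : ∀ e₁ e₂ e₃ : L, e₁ ≠ e₂ → e₁ ≠ e₃ → e₂ ≠ e₃ → T.CoverProp e₁ e₂ e₃) (d : ℕ)
    (hd : 0 < d) (α : Fin 4 → L) (hα : Function.Injective α) :
    KissB L d {t | ∃ w : L, w ≠ 0 ∧ ∏ i, (t - α i) = w ^ 2} := by
  classical
  obtain ⟨b₀, hb₀⟩ : ∃ b, b = α 0 := ⟨_, rfl⟩
  obtain ⟨b₁, hb₁⟩ : ∃ b, b = α 1 := ⟨_, rfl⟩
  obtain ⟨b₂, hb₂⟩ : ∃ b, b = α 2 := ⟨_, rfl⟩
  obtain ⟨b₃, hb₃⟩ : ∃ b, b = α 3 := ⟨_, rfl⟩
  have n01 : b₀ - b₁ ≠ 0 := by rw [hb₀, hb₁]; exact sub_ne_zero.2 (hα.ne (by decide))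
  have n02 : b₀ - b₂ ≠ 0 := by rw [hb₀, hb₂]; exact sub_ne_zero.2 (hα.ne (by decide))
  have n12 : b₁ - b₂ ≠ 0 := by rw [hb₁, hb₂]; exact sub_ne_zero.2 (hα.ne (by decide))
  have n03 : b₀ - b₃ ≠ 0 := by rw [hb₀, hb₃]; exact sub_ne_zero.2 (hα.ne (by decide))
  have n13 : b₁ - b₃ ≠ 0 := by rw [hb₁, hb₃]; exact sub_ne_zero.2 (hα.ne (by decide))
  have n23 : b₂ - b₃ ≠ 0 := by rw [hb₂, hb₃]; exact sub_ne_zero.2 (hα.ne (by decide))
  obtain ⟨c, hc⟩ : ∃ c, c = (b₀ - b₃) * (b₁ - b₃) * (b₂ - b₃) := ⟨_, rfl⟩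
  have hc0 : c ≠ 0 := by rw [hc]; exact mul_ne_zero (mul_ne_zero n03 n13) n23
  have he : ∀ {x y : L}, x - b₃ ≠ 0 → y - b₃ ≠ 0 → x - y ≠ 0 → c / (b₃ - x) ≠ c / (b₃ - y) := by
    intro x y hx hy hxy h
    have hx' : b₃ - x ≠ 0 := by rw [← neg_sub]; exact neg_ne_zero.2 hx
    have hy' : b₃ - y ≠ 0 := by rw [← neg_sub]; exact neg_ne_zero.2 hy
    rw [div_eq_div_iff hx' hy'] at h
    have h2 := mul_left_cancel₀ hc0 h
    apply hxy
    linear_combination h2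
  set e₀ := c / (b₃ - b₀) with he₀
  set e₁ := c / (b₃ - b₁) with he₁
  set e₂ := c / (b₃ - b₂) with he₂
  have h01 : e₀ ≠ e₁ := he n03 n13 n01
  have h02 : e₀ ≠ e₂ := he n03 n23 n02
  have h12 : e₁ ≠ e₂ := he n13 n23 n12
  haveI : (T.WE e₀ e₁ e₂).IsElliptic := WE_isElliptic h01 h02 h12
  set D : Set L := {t | ∃ w : L, w ≠ 0 ∧ ∏ i, (t - α i) = w ^ 2} with hD
  have hprod : ∀ t, ∏ i, (t - α i) = (t - b₀) * (t - b₁) * (t - b₂) * (t - b₃) := by
    intro t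
    rw [Fin.prod_univ_four, hb₀, hb₁, hb₂, hb₃]
  have hpt : ∀ t ∈ D, ∃ (y : L) (h : (T.WE e₀ e₁ e₂).toAffine.Nonsingular (c / (b₃ - t)) y),
      t ≠ b₃ := by
    rintro t ⟨w, hw, h⟩
    rw [hprod] at h
    have hne : (t - b₀) * (t - b₁) * (t - b₂) * (t - b₃) ≠ 0 := by
      rw [h]
      exact pow_ne_zero 2 hw
    have ht3 : t - b₃ ≠ 0 := right_ne_zero_of_mul hne
    have ht3' : b₃ - t ≠ 0 := by rw [← neg_sub]; exact neg_ne_zero.2 ht3
    have n30 : b₃ - b₀ ≠ 0 := by rw [← neg_sub]; exact neg_ne_zero.2 n03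
    have n31 : b₃ - b₁ ≠ 0 := by rw [← neg_sub]; exact neg_ne_zero.2 n13
    have n32 : b₃ - b₂ ≠ 0 := by rw [← neg_sub]; exact neg_ne_zero.2 n23
    refine ⟨c * w / (b₃ - t) ^ 2, T.WE_nonsing ?_ (div_ne_zero (mul_ne_zero hc0 hw)
      (pow_ne_zero 2 ht3')), sub_ne_zero.1 ht3⟩
    have hw2 : (c * w / (b₃ - t) ^ 2) ^ 2 =
        c ^ 2 * ((t - b₀) * (t - b₁) * (t - b₂) * (t - b₃)) / (b₃ - t) ^ 4 := by
      rw [h]
      field_simp
    rw [hw2, he₀, he₁, he₂]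
    rw [div_sub_div _ _ ht3' n30, div_sub_div _ _ ht3' n31, div_sub_div _ _ ht3' n32,
      div_mul_div_comm, div_mul_div_comm, div_eq_div_iff (pow_ne_zero 4 ht3')
        (mul_ne_zero (mul_ne_zero (mul_ne_zero ht3' n30) (mul_ne_zero ht3' n31))
          (mul_ne_zero ht3' n32))]
    rw [hc]
    ring
  choose! yy hyy using hpt
  let pt : L → (T.WE e₀ e₁ e₂).toAffine.Point := fun t =>
    if h : t ∈ D then WeierstrassCurve.Affine.Point.some _ _ (hyy t h).1 else 0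
  have hptD : ∀ t (h : t ∈ D), pt t = WeierstrassCurve.Affine.Point.some _ _ (hyy t h).1 := by
    intro t h
    simp only [pt, h, dif_pos]
  obtain ⟨a, k, ha, hk⟩ : T.KissCubeAux.LB (fun t : L => c / (b₃ - t)) := by
    have := (T.KissCubeAux.LB.const (L := L) c).mul ((T.KissCubeAux.LB.const (L := L) b₃).sub T.KissCubeAux.LB.id).inv
    simpa only [div_eq_mul_inv] using this
  obtain ⟨S₀, hS₀⟩ := UBC90787a.exists_finset_places ({c} : Finset L)
  refine kissB_of hd 1 1 one_pos (hcov _ _ _ h01 h02 h12) (D := D) pt (a := a) (c := k) (θ := 1) ha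
    one_pos S₀ ?_ ?_ ?_
  · intro t ht
    rw [hptD t ht, T.nh_some]
    exact hk t
  · intro P A hA
    rw [Finset.card_le_one]
    intro t ht t' ht'
    obtain ⟨h1, h2⟩ := hA t ht
    obtain ⟨h3, h4⟩ := hA t' ht'
    rw [hptD t h1] at h2
    rw [hptD t' h3, ← h2] at h4
    have h5 := (WeierstrassCurve.Affine.Point.some.inj h4).1
    have hx : b₃ - t ≠ 0 := sub_ne_zero.2 (Ne.symm (hyy t h1).2)
    have hy : b₃ - t' ≠ 0 := sub_ne_zero.2 (Ne.symm (hyy t' h3).2)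
    rw [div_eq_div_iff hy hx] at h5
    have h6 := mul_left_cancel₀ hc0 h5
    linear_combination -h6
  · intro v hv ζ hζ w hw
    refine ⟨fun _ => 0, fun t ht t' ht' h1 h2 _ => ?_⟩
    have hvc : v c = 1 := hS₀ v hv c (by simp) hc0
    rw [hptD t ht, hptD t' ht', one_mul]
    unfold Cl
    rw [WeierstrassCurve.Affine.Point.xRep_some, WeierstrassCurve.Affine.Point.xRep_some]
    simp only [n2, Matrix.cons_val_zero, Matrix.cons_val_one, map_one, mul_one, one_mul]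
    have hx : b₃ - t ≠ 0 := sub_ne_zero.2 (Ne.symm (hyy t ht).2)
    have hy : b₃ - t' ≠ 0 := sub_ne_zero.2 (Ne.symm (hyy t' ht').2)
    have hvx := T.v_pos v hx
    have hvy := T.v_pos v hy
    have e1 : c / (b₃ - t) - c / (b₃ - t') = c * (t - t') / ((b₃ - t) * (b₃ - t')) := by
      field_simp
      ring
    have e2 : v (t - t') ≤ Real.exp (-w) := by
      have : t - t' = (t - ζ) - (t' - ζ) := by ring
      rw [this]
      exact (T.v_sub_le v _ _).trans (max_le h1 h2)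
    rw [e1, map_div₀, map_mul, map_mul, hvc, one_mul, map_div₀, hvc, map_div₀, hvc]
    calc v (t - t') / (v (b₃ - t) * v (b₃ - t'))
        ≤ Real.exp (-w) / (v (b₃ - t) * v (b₃ - t')) := by gcongr
      _ = Real.exp (-w) * (1 / v (b₃ - t) * (1 / v (b₃ - t'))) := by
        field_simp
      _ ≤ _ := by
        gcongr
        · exact le_max_left _ _
        · exact le_max_left _ _

end general

end Pool.Agent.MP90787a.B
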