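import Pool.Agent.Lib.MP_90787a_nt.B.KissMu
import Pool.Agent.Lib.MP_90787a_nt.T.PackEven

set_option autoImplicit false
set_option linter.unusedVariables false

/-!
Ratios of controlled points give points of one fixed elliptic curve over one number field.
-/

namespace Pool.Agent.MP90787a.B

open NumberField Height

/-- The package: all ratios of controlled points lie in one set with the property `KissB`. -/
theorem pack (K : Type) [Field K] [NumberField K] (d : ℕ) (hd : 5 ≤ d)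
    (ω : K) (hω : IsPrimitiveRoot ω d) (S₀ : Finset (FinitePlace K)) :
    ∃ (L : Type) (_ : Field L) (_ : NumberField L) (f : K →+* L) (D : Set L),
      KissB L d D ∧ ∀ x y : K, y ≠ 0 → (∀ i : ℕ, i < d → x - ω ^ i * y ≠ 0) →
        (∀ v : FinitePlace K, v ∉ S₀ → ∀ ζ ζ' : K, ζ ^ d = 1 → ζ' ^ d = 1 → ζ ≠ 1 → ζ' ≠ 1 →
          ∃ b : K, b ≠ 0 ∧ v (x - ζ * y) = v (x - ζ' * y) * v b ^ 2) →
        f (x / y) ∈ D := by
  classical
  have hr : ∀ i : ℕ, (ω ^ i) ^ d = 1 := fun i => by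
    rw [← pow_mul, mul_comm, pow_mul, hω.pow_eq_one, one_pow]
  have hne : ∀ i j : ℕ, i < d → j < d → i ≠ j → ω ^ i ≠ ω ^ j := fun i j hi hj hij h =>
    hij (hω.pow_inj hi hj h)
  have hne1 : ∀ i : ℕ, 0 < i → i < d → ω ^ i ≠ 1 := fun i h0 hi h =>
    hne i 0 hi (by omega) (by omega) (by rw [h, pow_zero])
  obtain ⟨T₁, hT₁, hsel₁⟩ := T.selmer K 2 (by norm_num) S₀
  obtain ⟨L, _, _, f, hr₁⟩ := T.exists_ext K
    (T₁.image (fun τ => Polynomial.X ^ 2 - Polynomial.C τ)) (by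
    intro p hp
    obtain ⟨τ, _, rfl⟩ := Finset.mem_image.mp hp
    rw [Polynomial.degree_X_pow_sub_C (by norm_num)]
    exact ⟨by norm_num, Polynomial.X_pow_sub_C_ne_zero (by norm_num) _⟩)
  have hσ : ∀ τ ∈ T₁, ∃ σ : L, σ ^ 2 = f τ := by
    intro τ hτ
    obtain ⟨x, hx⟩ := hr₁ (Polynomial.X ^ 2 - Polynomial.C τ)
      (Finset.mem_image_of_mem _ hτ)
    refine ⟨x, ?_⟩
    simp only [Polynomial.eval₂_sub, Polynomial.eval₂_pow, Polynomial.eval₂_X,
      Polynomial.eval₂_C] at hx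
    exact sub_eq_zero.mp hx
  have hinj : Function.Injective fun i : Fin 4 => f (ω ^ ((i : ℕ) + 1)) := by
    intro i j hij
    have h1 := hω.pow_inj (by omega) (by omega) (f.injective hij)
    exact Fin.ext (by omega)
  refine ⟨L, inferInstance, inferInstance, f, _, kissB_sq (L := L)
    (fun e₁ e₂ e₃ => T.coverProp e₁ e₂ e₃) d (by omega)
    (fun i : Fin 4 => f (ω ^ ((i : ℕ) + 1))) hinj, ?_⟩
  intro x y hy hxy hv
  have key : ∀ i : ℕ, 0 < i → i < 5 →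
      ∃ a : L, a ≠ 0 ∧ f (x - ω ^ i * y) = a ^ 2 * f (x - ω ^ 4 * y) := by
    intro i hi0 hi
    have h4 : x - ω ^ 4 * y ≠ 0 := hxy 4 (by omega)
    obtain ⟨τ, hτ, w, hw, hq⟩ := hsel₁ ((x - ω ^ i * y) / (x - ω ^ 4 * y))
      (div_ne_zero (hxy i (by omega)) h4) (by
      intro v hvS
      obtain ⟨b, hb, hb'⟩ := hv v hvS (ω ^ i) (ω ^ 4) (hr i) (hr 4) (hne1 i hi0 (by omega))
        (hne1 4 (by omega) (by omega))
      refine ⟨b, hb, ?_⟩
      rw [map_div₀, hb', mul_div_cancel_left₀]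
      exact (T.v_pos v h4).ne')
    obtain ⟨σ, hσ'⟩ := hσ τ hτ
    have hσ0 : σ ≠ 0 := by
      rintro rfl
      rw [zero_pow two_ne_zero] at hσ'
      exact hT₁ τ hτ ((map_eq_zero f).mp hσ'.symm)
    refine ⟨σ * f w, mul_ne_zero hσ0 ((map_ne_zero f).mpr hw), ?_⟩
    have h3 : x - ω ^ i * y = τ * w ^ 2 * (x - ω ^ 4 * y) := by
      rw [← hq, div_mul_cancel₀ _ h4]
    rw [mul_pow, hσ', ← map_pow, ← map_mul, ← map_mul, ← h3]
  obtain ⟨a₁, ha₁0, ha₁⟩ := key 1 (by omega) (by omega)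
  obtain ⟨a₂, ha₂0, ha₂⟩ := key 2 (by omega) (by omega)
  obtain ⟨a₃, ha₃0, ha₃⟩ := key 3 (by omega) (by omega)
  have h4 : f (x - ω ^ 4 * y) ≠ 0 := (map_ne_zero f).mpr (hxy 4 (by omega))
  have hfy : f y ≠ 0 := (map_ne_zero f).2 hy
  refine ⟨a₁ * a₂ * a₃ * (f (x - ω ^ 4 * y) / f y) ^ 2, ?_, ?_⟩
  · exact mul_ne_zero (mul_ne_zero (mul_ne_zero ha₁0 ha₂0) ha₃0)
      (pow_ne_zero _ (div_ne_zero h4 hfy))
  · rw [Fin.prod_univ_four]
    have e : ∀ i : ℕ, f (x / y) - f (ω ^ i) = f (x - ω ^ i * y) / f y := by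
      intro i
      rw [map_div₀, map_sub, map_mul]
      field_simp
    have e1 := e 1
    have e2 := e 2
    have e3 := e 3
    have e4 := e 4
    change (f (x / y) - f (ω ^ 1)) * (f (x / y) - f (ω ^ 2)) * (f (x / y) - f (ω ^ 3)) *
      (f (x / y) - f (ω ^ 4)) = _
    rw [e1, e2, e3, e4, ha₁, ha₂, ha₃]
    field_simp

end Pool.Agent.MP90787a.B
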