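import Pool.Agent.Lib.MP_90787a_nt.B.KissMu
import Pool.Agent.Lib.MP_90787a_nt.B.Pack
import Pool.Agent.Lib.MP_90787a_nt.G.Pack
import Pool.Agent.Lib.MP_90787a_nt.T.Dyn

set_option autoImplicit false
set_option linter.unusedVariables false
set_option linter.unusedSectionVars false

/-!
From the kissing property for functions without zeros and poles to the property `KissB`.
-/

namespace Pool.Agent.MP90787a.B

open NumberField Height

section mob

variable {L : Type} [Field L]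

/-- The Möbius transformation which maps `α`, `β`, `γ` to `0`, `1`, `∞`. -/
noncomputable def mob (α β γ t : L) : L := (t - α) * (β - γ) / ((t - γ) * (β - α))

theorem one_sub_mob {α β γ t : L} (hαβ : β ≠ α) (ht : t ≠ γ) :
    1 - mob α β γ t = (t - β) * (γ - α) / ((t - γ) * (β - α)) := by
  have h1 := sub_ne_zero.2 hαβ
  have h2 := sub_ne_zero.2 ht
  unfold mob
  field_simp
  ring

theorem mob_sub_mob {α β γ t t' : L} (hαβ : β ≠ α) (ht : t ≠ γ) (ht' : t' ≠ γ) :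
    mob α β γ t - mob α β γ t' =
      (t - t') * (α - γ) * (β - γ) / ((t - γ) * (t' - γ) * (β - α)) := by
  have h1 := sub_ne_zero.2 hαβ
  have h2 := sub_ne_zero.2 ht
  have h3 := sub_ne_zero.2 ht'
  unfold mob
  field_simp
  ring

theorem mob_injOn {α β γ t t' : L} (hαβ : β ≠ α) (hαγ : α ≠ γ) (hβγ : β ≠ γ) (ht : t ≠ γ)
    (ht' : t' ≠ γ) (h : mob α β γ t = mob α β γ t') : t = t' := by
  have h1 := mob_sub_mob hαβ ht ht'
  rw [h, sub_self, eq_comm, div_eq_zero_iff] at h1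
  have n1 := sub_ne_zero.2 hαβ
  have n2 := sub_ne_zero.2 ht
  have n3 := sub_ne_zero.2 ht'
  have n4 := sub_ne_zero.2 hαγ
  have n5 := sub_ne_zero.2 hβγ
  rcases h1 with h1 | h1
  · rcases mul_eq_zero.1 h1 with h2 | h2
    · rcases mul_eq_zero.1 h2 with h3 | h3
      · exact sub_eq_zero.1 h3
      · exact absurd h3 n4
    · exact absurd h2 n5
  · exact absurd h1 (mul_ne_zero (mul_ne_zero n2 n3) n1)

/-- Points near a root of unity have close images. -/
theorem close_mob (v : AbsoluteValue L ℝ) (hv : IsNonarchimedean v) {α β γ ζ t t' : L} {θ : ℝ}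
    (hθ : θ < 1) (hαβ : v (β - α) = 1) (hαγ : v (α - γ) = 1) (hβγ : v (β - γ) = 1)
    (hα : ζ ≠ α → v (ζ - α) = 1) (hβ : ζ ≠ β → v (ζ - β) = 1) (hγ : ζ ≠ γ → v (ζ - γ) = 1)
    (htγ : t ≠ γ) (htγ' : t' ≠ γ) (ht : v (t - ζ) ≤ θ) (ht' : v (t' - ζ) ≤ θ) :
    G.Close v θ (mob α β γ t) (mob α β γ t') := by
  have n1 : β ≠ α := by
    rintro rfl
    rw [sub_self, map_zero] at hαβ
    norm_num at hαβ
  have n2 : α ≠ γ := by
    rintro rfl
    rw [sub_self, map_zero] at hαγ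
    norm_num at hαγ
  have n3 : β ≠ γ := by
    rintro rfl
    rw [sub_self, map_zero] at hβγ
    norm_num at hβγ
  have key : ∀ s δ : L, v (s - ζ) ≤ θ → v (ζ - δ) = 1 → v (s - δ) = 1 := by
    intro s δ hs h
    have e : s - δ = (s - ζ) + (ζ - δ) := by ring
    rw [e]
    have h1 : v (s - ζ) < v (ζ - δ) := by rw [h]; exact hs.trans_lt hθ
    rw [add_comm]
    have h2 := T.v_sub_of_lt v hv (x := ζ - δ) (y := -(s - ζ)) (by rwa [v.map_neg])
    rw [sub_neg_eq_add] at h2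
    rw [h2, h]
  have hαγ' : v (γ - α) = 1 := by rw [← v.map_neg, neg_sub]; exact hαγ
  have hm : ∀ s, v (mob α β γ s) = v (s - α) / v (s - γ) := by
    intro s
    unfold mob
    rw [map_div₀, map_mul, map_mul, hαβ, hβγ, mul_one, mul_one]
  have hm1 : ∀ s, s ≠ γ → v (1 - mob α β γ s) = v (s - β) / v (s - γ) := by
    intro s hs
    rw [one_sub_mob n1 hs, map_div₀, map_mul, map_mul, hαβ, hαγ', mul_one, mul_one]
  by_cases h1 : ζ = α
  · left
    rw [h1] at ht ht' key hγ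
    have h2 := key t γ ht (by rwa [h1] at *)
    have h3 := key t' γ ht' (by rwa [h1] at *)
    rw [hm, hm, h2, h3, div_one, div_one]
    exact ⟨ht, ht'⟩
  · by_cases h2 : ζ = β
    · right; left
      have h3 := key t γ ht (by rw [h2]; exact hβγ)
      have h4 := key t' γ ht' (by rw [h2]; exact hβγ)
      rw [hm1 _ htγ, hm1 _ htγ', h3, h4, div_one, div_one, ← h2]
      exact ⟨ht, ht'⟩
    · by_cases h3 : ζ = γ
      · right; right; left
        have h4 := key t α ht (hα h1)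
        have h5 := key t' α ht' (hα h1)
        rw [hm, hm, h4, h5, one_div, one_div]
        have p1 : 0 < v (t - γ) := v.pos (sub_ne_zero.2 htγ)
        have p2 : 0 < v (t' - γ) := v.pos (sub_ne_zero.2 htγ')
        rw [h3] at ht ht'
        exact ⟨inv_anti₀ p1 ht, inv_anti₀ p2 ht'⟩
      · right; right; right
        have a1 := key t α ht (hα h1)
        have a2 := key t β ht (hβ h2)
        have a3 := key t γ ht (hγ h3)
        have b1 := key t' α ht' (hα h1)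
        have b2 := key t' β ht' (hβ h2)
        have b3 := key t' γ ht' (hγ h3)
        refine ⟨?_, ?_, ?_, ?_, ?_⟩
        · rw [hm, a1, a3, div_one]
        · rw [hm1 _ htγ, a2, a3, div_one]
        · rw [hm, b1, b3, div_one]
        · rw [hm1 _ htγ', b2, b3, div_one]
        · rw [mob_sub_mob n1 htγ htγ', map_div₀, map_mul, map_mul, map_mul, map_mul, a3, b3, hαβ,
            hαγ, hβγ]
          simp only [mul_one, div_one]
          have e : t - t' = (t - ζ) - (t' - ζ) := by ring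
          rw [e]
          exact (T.KissCubeAux.v_sub_le hv _ _).trans (max_le ht ht')

end mob

/-- `KissT` implies `KissB`. -/
theorem kissB_of_kissT {L : Type} [Field L] [NumberField L] {d : ℕ} (hd : 0 < d) {D : Set L}
    (hD : G.KissT L D) {α β γ : L} (hα : α ^ d = 1) (hβ : β ^ d = 1) (hγ : γ ^ d = 1)
    (hαβ : β ≠ α) (hαγ : α ≠ γ) (hβγ : β ≠ γ) :
    KissB L d {t | t ≠ γ ∧ mob α β γ t ∈ D} := by
  classical
  set R : Finset L := Polynomial.nthRootsFinset d (1 : L) with hR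
  have hR1 : ∀ ζ : L, ζ ^ d = 1 ↔ ζ ∈ R := fun ζ => by
    rw [hR, Polynomial.mem_nthRootsFinset hd]
  obtain ⟨S₁, hS₁⟩ := hD
  obtain ⟨S₂, hS₂⟩ := UBC90787a.exists_finset_places ((R ×ˢ R).image fun p => p.1 - p.2)
  have hroot : ∀ v : FinitePlace L, v ∉ S₂ → ∀ ζ ζ' : L, ζ ^ d = 1 → ζ' ^ d = 1 → ζ ≠ ζ' →
      v (ζ - ζ') = 1 := fun v hv ζ ζ' hζ hζ' hne =>
    hS₂ v hv _ (Finset.mem_image.2 ⟨(ζ, ζ'), Finset.mem_product.2 ⟨(hR1 _).1 hζ, (hR1 _).1 hζ'⟩,
      rfl⟩) (sub_ne_zero.2 hne)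
  obtain ⟨a, k, ha, hk⟩ : T.KissCubeAux.LB (fun t : L => mob α β γ t) := by
    have h1 := ((T.KissCubeAux.LB.id.sub (T.KissCubeAux.LB.const α)).mul
      (T.KissCubeAux.LB.const (β - γ))).mul
      (((T.KissCubeAux.LB.id.sub (T.KissCubeAux.LB.const γ)).mul
        (T.KissCubeAux.LB.const (β - α))).inv)
    simpa only [mob, div_eq_mul_inv] using h1
  refine ⟨S₁ ∪ S₂, fun κ C₁ hκ => ?_⟩
  obtain ⟨N', H₀', hN'⟩ := hS₁ κ (a * max C₁ 0 + |k|) R.card hκ
  refine ⟨N', max H₀' 1, fun H hH A F w hF hsum hA => ?_⟩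
  have hH1 : 1 ≤ H := (le_max_right _ _).trans hH
  have hcard : (A.image (mob α β γ)).card = A.card := by
    refine Finset.card_image_of_injOn ?_
    intro t ht t' ht' h
    exact mob_injOn hαβ hαγ hβγ (hA t ht).1.1 (hA t' ht').1.1 h
  rw [← hcard]
  refine hN' H ((le_max_left _ _).trans hH) (A.image (mob α β γ)) (F.filter fun v => 0 < w v)
    (fun v => Real.exp (-w v)) ?_ ?_ ?_
  · intro T hT
    obtain ⟨t, ht, rfl⟩ := Finset.mem_image.1 hT
    obtain ⟨h1, h2, -⟩ := hA t ht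
    refine ⟨h1.2, ?_⟩
    have h3 : logHeight₁ t ≤ max C₁ 0 * H := by
      have h4 : C₁ ≤ max C₁ 0 := le_max_left _ _
      nlinarith
    have h4 := mul_le_mul_of_nonneg_left h3 ha
    have h5 : k ≤ |k| * H := by
      have h6 := le_abs_self k
      have h7 := abs_nonneg k
      nlinarith
    have h6 := hk t
    simp only at h6
    linarith
  · intro v hv
    rw [Finset.mem_filter] at hv
    obtain ⟨hvF, hw0⟩ := hv
    obtain ⟨hvS, -⟩ := hF v hvF
    rw [Finset.mem_union, not_or] at hvS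
    have hθ1 : Real.exp (-w v) < 1 := by
      rw [Real.exp_lt_one_iff]
      linarith
    refine ⟨hvS.1, Real.exp_pos _, hθ1, ?_⟩
    have hζ : ∀ t ∈ A, ∃ ζ : L, ζ ^ d = 1 ∧ v (t - ζ) ≤ Real.exp (-w v) :=
      fun t ht => (hA t ht).2.2 v hvF
    choose! z hz1 hz2 using hζ
    have hrep : ∀ T ∈ A.image (mob α β γ), ∃ t, t ∈ A ∧ mob α β γ t = T := fun P hP => by
      obtain ⟨t, ht, h⟩ := Finset.mem_image.1 hP
      exact ⟨t, ht, h⟩
    choose! r hr1 hr2 using hrep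
    have hRc : 0 < R.card := Finset.card_pos.2 ⟨1, (hR1 1).1 (one_pow d)⟩
    let idx : L → Fin R.card := fun ζ => if h : ζ ∈ R then R.equivFin ⟨ζ, h⟩ else ⟨0, hRc⟩
    have hidx : ∀ ζ ∈ R, ∀ ζ' ∈ R, idx ζ = idx ζ' → ζ = ζ' := by
      intro ζ h ζ' h' he
      simp only [idx, h, h', dif_pos] at he
      have := R.equivFin.injective he
      exact congrArg Subtype.val this
    refine ⟨fun T => idx (z (r T)), fun T hT T' hT' he => ?_⟩
    have hzz : z (r T) = z (r T') :=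
      hidx _ ((hR1 _).1 (hz1 _ (hr1 T hT))) _ ((hR1 _).1 (hz1 _ (hr1 T' hT'))) he
    have hzr := hz1 _ (hr1 T hT)
    have := close_mob v.1 (fun x y => FinitePlace.add_le v x y) (α := α) (β := β) (γ := γ)
      (ζ := z (r T)) (t := r T) (t' := r T') hθ1
      (hroot v hvS.2 _ _ hβ hα hαβ) (hroot v hvS.2 _ _ hα hγ hαγ) (hroot v hvS.2 _ _ hβ hγ hβγ)
      (fun h => hroot v hvS.2 _ _ hzr hα h) (fun h => hroot v hvS.2 _ _ hzr hβ h)
      (fun h => hroot v hvS.2 _ _ hzr hγ h) (hA _ (hr1 T hT)).1.1 (hA _ (hr1 T' hT')).1.1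
      (hz2 _ (hr1 T hT)) (by rw [hzz]; exact hz2 _ (hr1 T' hT'))
    rw [hr2 T hT, hr2 T' hT'] at this
    exact this
  · refine hsum.trans ?_
    rw [Finset.sum_filter]
    refine Finset.sum_le_sum fun v hv => ?_
    split_ifs with h
    · rw [Real.log_exp, neg_neg]
    · exact not_lt.1 h

/-- The package for all `n`. -/
theorem pack_gen (K : Type) [Field K] [NumberField K] (d n : ℕ) (hd : 4 ≤ d) (hn : 2 ≤ n)
    (hdn : 5 ≤ d ∨ 3 ≤ n) (ω : K) (hω : IsPrimitiveRoot ω d) (S₀ : Finset (FinitePlace K)) :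
    ∃ (L : Type) (_ : Field L) (_ : NumberField L) (f : K →+* L) (D : Set L) (E : Finset K),
      KissB L d D ∧ ∀ x y : K, y ≠ 0 → x / y ∉ E → (∀ i : ℕ, i < d → x - ω ^ i * y ≠ 0) →
        (∀ v : FinitePlace K, v ∉ S₀ → ∀ ζ ζ' : K, ζ ^ d = 1 → ζ' ^ d = 1 → ζ ≠ 1 → ζ' ≠ 1 →
          ∃ b : K, b ≠ 0 ∧ v (x - ζ * y) = v (x - ζ' * y) * v b ^ n) →
        f (x / y) ∈ D := by
  classical
  rcases (by omega : n = 2 ∨ 3 ≤ n) with rfl | hn3
  · obtain ⟨L, h1, h2, f, D, hD, h⟩ := pack K d (by omega) ω hω S₀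
    exact ⟨L, h1, h2, f, D, ∅, hD, fun x y hy _ hxy hv => h x y hy hxy hv⟩
  · have hr : ∀ i : ℕ, (ω ^ i) ^ d = 1 := fun i => by
      rw [← pow_mul, mul_comm, pow_mul, hω.pow_eq_one, one_pow]
    have hne : ∀ i j : ℕ, i < d → j < d → i ≠ j → ω ^ i ≠ ω ^ j := fun i j hi hj hij h =>
      hij (hω.pow_inj hi hj h)
    have hne1 : ∀ i : ℕ, 0 < i → i < d → ω ^ i ≠ 1 := fun i h0 hi h =>
      hne i 0 hi (by omega) (by omega) (by rw [h, pow_zero])
    have h21 : ω ^ 2 ≠ ω ^ 1 := hne 2 1 (by omega) (by omega) (by omega)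
    have h13 : ω ^ 1 ≠ ω ^ 3 := hne 1 3 (by omega) (by omega) (by omega)
    have h23 : ω ^ 2 ≠ ω ^ 3 := hne 2 3 (by omega) (by omega) (by omega)
    obtain ⟨S₁, hS₁⟩ := UBC90787a.exists_finset_places
      ({ω ^ 2 - ω ^ 1, ω ^ 1 - ω ^ 3, ω ^ 2 - ω ^ 3, ω ^ 3 - ω ^ 1} : Finset K)
    have key : ∃ (L : Type) (_ : Field L) (_ : NumberField L) (f : K →+* L) (D : Set L)
        (E : Finset K), G.KissT L D ∧ ∀ T : K, T ≠ 0 → T ≠ 1 → T ∉ E →
        (∀ v : FinitePlace K, v ∉ S₀ ∪ S₁ → ∃ b : K, b ≠ 0 ∧ v T = v b ^ n) →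
        (∀ v : FinitePlace K, v ∉ S₀ ∪ S₁ → ∃ b : K, b ≠ 0 ∧ v (1 - T) = v b ^ n) →
        f T ∈ D := by
      rcases Nat.even_or_odd n with hev | hodd
      · obtain ⟨L, h1, h2, f, D, E, hD, h⟩ := G.packT_even K n (by
          obtain ⟨m, hm⟩ := hev
          omega) hev (S₀ ∪ S₁)
        refine ⟨L, h1, h2, f, D, E, hD, fun T hT hT1 hTE hv hv' => h T hT hT1 hTE hv ?_⟩
        intro v hvS
        obtain ⟨b, hb, hb'⟩ := hv' v hvS
        obtain ⟨m, hm⟩ := hev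
        refine ⟨b ^ m, pow_ne_zero _ hb, ?_⟩
        rw [hb', map_pow, ← pow_mul, hm]
        congr 1
        ring
      · exact G.packT_odd K n hn3 hodd (S₀ ∪ S₁)
    obtain ⟨L, h1, h2, f, D, E, hD, h⟩ := key
    have hf : ∀ i : ℕ, f (ω ^ i) ^ d = 1 := fun i => by rw [← map_pow, hr, map_one]
    have hKB := kissB_of_kissT (d := d) (by omega) hD (hf 1) (hf 2) (hf 3) (f.injective.ne h21)
      (f.injective.ne h13) (f.injective.ne h23)
    -- the exceptional ratios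
    have hinv : ∀ T : K, ∃ t : K, ∀ s : K, s ≠ ω ^ 3 → mob (ω ^ 1) (ω ^ 2) (ω ^ 3) s = T →
        s = t := by
      intro T
      by_cases hex : ∃ s : K, s ≠ ω ^ 3 ∧ mob (ω ^ 1) (ω ^ 2) (ω ^ 3) s = T
      · obtain ⟨t, ht1, ht2⟩ := hex
        exact ⟨t, fun s hs1 hs2 => mob_injOn h21 h13 h23 hs1 ht1 (hs2.trans ht2.symm)⟩
      · exact ⟨0, fun s hs1 hs2 => absurd ⟨s, hs1, hs2⟩ hex⟩
    choose inv hinv using hinv
    refine ⟨L, h1, h2, f, _, E.image inv, hKB, ?_⟩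
    intro x y hy hE hxy hv
    have ht : ∀ i : ℕ, i < d → x / y - ω ^ i ≠ 0 := by
      intro i hi h0
      apply hxy i hi
      have : x / y = ω ^ i := sub_eq_zero.1 h0
      rw [div_eq_iff hy] at this
      rw [this, sub_self]
    have ht3 : x / y ≠ ω ^ 3 := sub_ne_zero.1 (ht 3 (by omega))
    have hTE : mob (ω ^ 1) (ω ^ 2) (ω ^ 3) (x / y) ∉ E := by
      intro hmem
      apply hE
      rw [hinv _ (x / y) ht3 rfl]
      exact Finset.mem_image_of_mem _ hmem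
    have hfm : f (mob (ω ^ 1) (ω ^ 2) (ω ^ 3) (x / y)) =
        mob (f (ω ^ 1)) (f (ω ^ 2)) (f (ω ^ 3)) (f (x / y)) := by
      unfold mob
      simp only [map_div₀, map_mul, map_sub]
    refine ⟨f.injective.ne ht3, ?_⟩
    rw [← hfm]
    have e : ∀ i : ℕ, x / y - ω ^ i = (x - ω ^ i * y) / y := by
      intro i
      field_simp
    have hS₁' : ∀ v : FinitePlace K, v ∉ S₁ → v (ω ^ 2 - ω ^ 1) = 1 ∧ v (ω ^ 2 - ω ^ 3) = 1 ∧
        v (ω ^ 3 - ω ^ 1) = 1 := fun v hvS =>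
      ⟨hS₁ v hvS _ (by simp) (sub_ne_zero.2 h21), hS₁ v hvS _ (by simp) (sub_ne_zero.2 h23),
        hS₁ v hvS _ (by simp) (sub_ne_zero.2 h13.symm)⟩
    have hlin : ∀ v : FinitePlace K, v ∉ S₀ → ∀ i : ℕ, 0 < i → i < 4 → ∃ b : K, b ≠ 0 ∧
        v (x / y - ω ^ i) / v (x / y - ω ^ 3) = v b ^ n := by
      intro v hvS i hi0 hi
      obtain ⟨b, hb, hb'⟩ := hv v hvS (ω ^ i) (ω ^ 3) (hr i) (hr 3) (hne1 i hi0 (by omega))
        (hne1 3 (by omega) (by omega))
      refine ⟨b, hb, ?_⟩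
      have p1 : v (x - ω ^ 3 * y) ≠ 0 := (T.v_pos v (hxy 3 (by omega))).ne'
      have p2 : v y ≠ 0 := (T.v_pos v hy).ne'
      rw [e, e, map_div₀, map_div₀, hb']
      field_simp
    refine h _ ?_ ?_ hTE ?_ ?_
    · unfold mob
      exact div_ne_zero (mul_ne_zero (ht 1 (by omega)) (sub_ne_zero.2 h23))
        (mul_ne_zero (ht 3 (by omega)) (sub_ne_zero.2 h21))
    · intro h0
      have h3 : 1 - mob (ω ^ 1) (ω ^ 2) (ω ^ 3) (x / y) = 0 := by rw [h0, sub_self]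
      rw [one_sub_mob h21 ht3] at h3
      exact div_ne_zero (mul_ne_zero (ht 2 (by omega)) (sub_ne_zero.2 h13.symm))
        (mul_ne_zero (ht 3 (by omega)) (sub_ne_zero.2 h21)) h3
    · intro v hvS
      rw [Finset.mem_union, not_or] at hvS
      obtain ⟨a1, a2, a3⟩ := hS₁' v hvS.2
      obtain ⟨b, hb, hb'⟩ := hlin v hvS.1 1 (by omega) (by omega)
      refine ⟨b, hb, ?_⟩
      rw [← hb']
      unfold mob
      rw [map_div₀, map_mul, map_mul, a1, a2, mul_one, mul_one]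
    · intro v hvS
      rw [Finset.mem_union, not_or] at hvS
      obtain ⟨a1, a2, a3⟩ := hS₁' v hvS.2
      obtain ⟨b, hb, hb'⟩ := hlin v hvS.1 2 (by omega) (by omega)
      refine ⟨b, hb, ?_⟩
      rw [← hb', one_sub_mob h21 ht3, map_div₀, map_mul, map_mul, a1, a3, mul_one, mul_one]

end Pool.Agent.MP90787a.B
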