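import Pool.Agent.Lib.MP_90787a_nt.B.Defs
import Pool.Agent.Lib.MP_90787a_nt.T.Dyn

set_option autoImplicit false

/-!
Local analysis of the maps `x ↦ (A x ^ d + B) / (C x ^ d + D)` at places of bad reduction: all
preperiodic points whose orbits avoid the fixed points lie in one ring.
-/

namespace Pool.Agent.MP90787a.B

open Finset

/-! ### Algebra -/

section algebra

variable {F : Type} [Field F] {d : ℕ} {A B C D : F}

lemma hm_swap (P : F × F) : hm d D C B A P.swap = (hm d A B C D P).swap := by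
  simp [hm, add_comm]

lemma hm_iterate_swap (n : ℕ) (P : F × F) :
    (hm d D C B A)^[n] P.swap = ((hm d A B C D)^[n] P).swap := by
  induction n with
  | zero => rfl
  | succ n ih => rw [Function.iterate_succ_apply', ih, hm_swap, Function.iterate_succ_apply']

lemma wd_swap (P Q : F × F) : wd P.swap Q.swap = -wd P Q := by
  simp only [wd, Prod.fst_swap, Prod.snd_swap]
  ring

lemma Adm.swap {P : F × F} (h : Adm d A B C D P) : Adm d D C B A P.swap := by
  obtain ⟨⟨i, j, hij, h1⟩, h2⟩ := h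
  refine ⟨⟨i, j, hij, ?_⟩, fun n => ?_⟩
  · rw [hm_iterate_swap, hm_iterate_swap, wd_swap, h1, neg_zero]
  · rw [hm_iterate_swap, hm_iterate_swap, wd_swap]
    exact neg_ne_zero.2 (h2 n)

lemma wd_hm (P Q : F × F) : wd (hm d A B C D P) (hm d A B C D Q) =
    (A * D - B * C) * ((P.1 * Q.2) ^ d - (P.2 * Q.1) ^ d) := by
  simp only [wd, hm]
  ring

lemma key_id (P : F × F) : A * (hm d A B C D P).2 - C * (hm d A B C D P).1 =
    (A * D - B * C) * P.2 ^ d := by
  simp only [hm]
  ring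

lemma wd_hm_zero {P Q : F × F} (h : wd P Q = 0) :
    wd (hm d A B C D P) (hm d A B C D Q) = 0 := by
  rw [wd_hm]
  have : P.1 * Q.2 = P.2 * Q.1 := sub_eq_zero.1 h
  rw [this, sub_self, mul_zero]

lemma wd_hm_iterate {P Q : F × F} (h : wd P Q = 0) (n : ℕ) :
    wd ((hm d A B C D)^[n] P) ((hm d A B C D)^[n] Q) = 0 := by
  induction n with
  | zero => exact h
  | succ n ih =>
    rw [Function.iterate_succ_apply', Function.iterate_succ_apply']
    exact wd_hm_zero ih

/-- Homogeneous and affine iterates. -/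
lemma hm_iterate_eq {x : F} (h : ∀ i : ℕ, C * ((bf d A B C D)^[i] x) ^ d + D ≠ 0) (n : ℕ) :
    ∃ l : F, l ≠ 0 ∧ (hm d A B C D)^[n] (x, 1) = (l * (bf d A B C D)^[n] x, l) := by
  induction n with
  | zero => exact ⟨1, one_ne_zero, by simp⟩
  | succ n ih =>
    obtain ⟨l, hl, h1⟩ := ih
    refine ⟨l ^ d * (C * ((bf d A B C D)^[n] x) ^ d + D), mul_ne_zero (pow_ne_zero _ hl) (h n), ?_⟩
    rw [Function.iterate_succ_apply', Function.iterate_succ_apply', h1]
    refine Prod.ext ?_ ?_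
    · simp only [hm, bf]
      have h2 := h n
      field_simp
      ring
    · simp only [hm]
      ring

lemma AdmA.adm {x : F} (h : AdmA d A B C D x) : Adm d A B C D (x, 1) := by
  obtain ⟨⟨i, j, hij, h1⟩, h2, h3⟩ := h
  have key := hm_iterate_eq (d := d) (A := A) (B := B) (C := C) (D := D) (fun i => (h3 i).2)
  refine ⟨⟨i, j, hij, ?_⟩, fun n => ?_⟩
  · obtain ⟨l, -, hl⟩ := key i
    obtain ⟨m, -, hm⟩ := key j
    rw [hl, hm, h1]
    simp only [wd]
    ring
  · obtain ⟨l, hl0, hl⟩ := key n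
    obtain ⟨m, hm0, hm⟩ := key (n + 1)
    rw [hl, hm]
    have : wd (l * (bf d A B C D)^[n] x, l) (m * (bf d A B C D)^[n + 1] x, m) =
        l * m * ((bf d A B C D)^[n] x - (bf d A B C D)^[n + 1] x) := by
      simp only [wd]
      ring
    rw [this]
    exact mul_ne_zero (mul_ne_zero hl0 hm0) (sub_ne_zero.2 (h2 n).symm)

lemma Adm.admA {x : F} (h : Adm d A B C D (x, 1))
    (h0 : ∀ n : ℕ, ((hm d A B C D)^[n] (x, 1)).1 ≠ 0 ∧ ((hm d A B C D)^[n] (x, 1)).2 ≠ 0) :
    AdmA d A B C D x := by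
  have aux : ∀ (n : ℕ) (l : F), (hm d A B C D)^[n] (x, 1) =
      (l * (bf d A B C D)^[n] x, l) → C * ((bf d A B C D)^[n] x) ^ d + D ≠ 0 := by
    intro n l h1 h2
    apply (h0 (n + 1)).2
    rw [Function.iterate_succ_apply', h1]
    simp only [hm]
    have : C * (l * (bf d A B C D)^[n] x) ^ d + D * l ^ d =
        l ^ d * (C * ((bf d A B C D)^[n] x) ^ d + D) := by ring
    rw [this, h2, mul_zero]
  have key : ∀ n : ℕ, ∃ l : F, l ≠ 0 ∧ (hm d A B C D)^[n] (x, 1) =
      (l * (bf d A B C D)^[n] x, l) := by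
    intro n
    induction n with
    | zero => exact ⟨1, one_ne_zero, by simp⟩
    | succ n ih =>
      obtain ⟨l, hl, h1⟩ := ih
      have h2 := aux n l h1
      refine ⟨l ^ d * (C * ((bf d A B C D)^[n] x) ^ d + D),
        mul_ne_zero (pow_ne_zero _ hl) h2, ?_⟩
      rw [Function.iterate_succ_apply', Function.iterate_succ_apply', h1]
      refine Prod.ext ?_ ?_
      · simp only [hm, bf]
        field_simp
        ring
      · simp only [hm]
        ring
  have hden : ∀ n : ℕ, C * ((bf d A B C D)^[n] x) ^ d + D ≠ 0 := fun n => by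
    obtain ⟨l, -, h1⟩ := key n
    exact aux n l h1
  obtain ⟨⟨i, j, hij, h1⟩, h2⟩ := h
  refine ⟨⟨i, j, hij, ?_⟩, fun n => ?_, fun n => ⟨?_, hden n⟩⟩
  · obtain ⟨l, hl0, hl⟩ := key i
    obtain ⟨m, hm0, hm⟩ := key j
    rw [hl, hm] at h1
    have h3 : l * m * ((bf d A B C D)^[i] x - (bf d A B C D)^[j] x) = 0 := by
      rw [← h1]
      simp only [wd]
      ring
    exact sub_eq_zero.1 ((mul_eq_zero.1 h3).resolve_left (mul_ne_zero hl0 hm0))
  · obtain ⟨l, hl0, hl⟩ := key n
    obtain ⟨m, hm0, hm⟩ := key (n + 1)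
    intro h3
    apply h2 n
    rw [hl, hm, h3]
    simp only [wd]
    ring
  · obtain ⟨l, hl0, hl⟩ := key n
    intro h3
    apply (h0 n).1
    rw [hl, h3]
    simp

lemma bf_inv {x : F} (hx : x ≠ 0) : bf d D C B A x⁻¹ = (bf d A B C D x)⁻¹ := by
  simp only [bf]
  rw [inv_div, inv_pow]
  have hxd : x ^ d ≠ 0 := pow_ne_zero _ hx
  have h1 : D * (x ^ d)⁻¹ + C = (C * x ^ d + D) / x ^ d := by
    field_simp
    ring
  have h2 : B * (x ^ d)⁻¹ + A = (A * x ^ d + B) / x ^ d := by
    field_simp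
    ring
  rw [h1, h2, div_div_div_cancel_right₀ hxd]

lemma AdmA.iterate_inv {x : F} (h : AdmA d A B C D x) (n : ℕ) :
    (bf d D C B A)^[n] x⁻¹ = ((bf d A B C D)^[n] x)⁻¹ := by
  induction n with
  | zero => rfl
  | succ n ih =>
    rw [Function.iterate_succ_apply', Function.iterate_succ_apply', ih, bf_inv (h.2.2 n).1]

lemma AdmA.inv {x : F} (h : AdmA d A B C D x) : AdmA d D C B A x⁻¹ := by
  have key := h.iterate_inv
  obtain ⟨⟨i, j, hij, h1⟩, h2, h3⟩ := h
  refine ⟨⟨i, j, hij, ?_⟩, fun n => ?_, fun n => ⟨?_, ?_⟩⟩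
  · rw [key, key, h1]
  · rw [key, key]
    exact fun hc => h2 n (inv_injective hc)
  · rw [key]
    exact inv_ne_zero (h3 n).1
  · rw [key, inv_pow]
    intro hc
    have hx := (h3 n).1
    have hxd : ((bf d A B C D)^[n] x) ^ d ≠ 0 := pow_ne_zero _ hx
    apply (h3 (n + 1)).1
    rw [Function.iterate_succ_apply']
    have h4 : A * ((bf d A B C D)^[n] x) ^ d + B = 0 := by
      have h5 : A * ((bf d A B C D)^[n] x) ^ d + B =
          (B * (((bf d A B C D)^[n] x) ^ d)⁻¹ + A) * ((bf d A B C D)^[n] x) ^ d := by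
        field_simp
        ring
      rw [h5, hc, zero_mul]
    have h6 : bf d A B C D ((bf d A B C D)^[n] x) =
        (A * ((bf d A B C D)^[n] x) ^ d + B) / (C * ((bf d A B C D)^[n] x) ^ d + D) := rfl
    rw [h6, h4, zero_div]

lemma AdmA.step {x : F} (h : AdmA d A B C D x) : AdmA d A B C D (bf d A B C D x) := by
  obtain ⟨⟨i, j, hij, h1⟩, h2, h3⟩ := h
  refine ⟨⟨i, j, hij, ?_⟩, fun n => ?_, fun n => ?_⟩
  · rw [← Function.iterate_succ_apply, ← Function.iterate_succ_apply,
      Function.iterate_succ_apply', Function.iterate_succ_apply', h1]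
  · rw [← Function.iterate_succ_apply, ← Function.iterate_succ_apply]
    exact h2 (n + 1)
  · rw [← Function.iterate_succ_apply]
    exact h3 (n + 1)

lemma AdmA.iterate {x : F} (h : AdmA d A B C D x) (n : ℕ) :
    AdmA d A B C D ((bf d A B C D)^[n] x) := by
  induction n with
  | zero => exact h
  | succ n ih => rw [Function.iterate_succ_apply']; exact ih.step

end algebra

/-! ### The first case -/

/-- Data at a bad place in the first case. -/
structure Bad {F : Type} [Field F] (v : AbsoluteValue F ℝ) (d : ℕ) (A B C D : F) (ρ q : ℝ) :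
    Prop where
  hd : 2 ≤ d
  hκ : A * D - B * C ≠ 0
  a0 : 0 < v A
  r0 : 0 < ρ
  q0 : 0 < q
  q1 : q < 1
  hb : v A * ρ ^ d = v B
  hk : v (A * D - B * C) = q * (v A ^ 2 * ρ ^ (d - 1))
  hc : v C * ρ ≤ v A
  nr : v A ^ (d + 1) ≤ v (A ^ (d + 1) + B * C ^ d)

section real

/-- The elementary inequalities behind the first case. -/
lemma real_case {n : ℕ} (hn : 1 ≤ n) {a b c e k ρ : ℝ} (ha : 0 < a) (hc : 0 ≤ c)
    (hρ : 0 < ρ) (hb : a * ρ ^ (n + 1) = b)
    (hk : k < a ^ 2 * ρ ^ n)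
    (h2 : e ^ (n + 2) * c ^ n ≤ a ^ (n + 2) * b ^ n)
    (hu : k < b * c → a * e = b * c) (hu' : k < a * e → a * e = b * c) :
    c * ρ ≤ a ∧ e ≤ a * ρ ^ n := by
  have hE : 0 < a ^ 2 * ρ ^ n := by positivity
  have hρn : 0 < ρ ^ n := by positivity
  -- the two ratios agree if one of them is larger than one
  have key : a * e = b * c → e = c * ρ * ρ ^ n := by
    intro h
    have : a * e = a * (c * ρ * ρ ^ n) := by
      rw [h, ← hb]
      ring
    exact mul_left_cancel₀ ha.ne' this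
  have fin : e = c * ρ * ρ ^ n → c * ρ ≤ a := by
    intro h
    by_contra hcon
    push Not at hcon
    have hcpos : 0 < c := by
      rcases eq_or_lt_of_le hc with h0 | h0
      · rw [← h0, zero_mul] at hcon
        exact absurd ha (not_lt.2 hcon.le)
      · exact h0
    have h3 : e ^ (n + 2) * c ^ n * ρ ^ n =
        (c * ρ) ^ (2 * n + 2) * ρ ^ (n * (n + 2)) := by
      rw [h]
      ring
    have h4 : a ^ (n + 2) * b ^ n * ρ ^ n = a ^ (2 * n + 2) * ρ ^ (n * (n + 2)) := by
      rw [← hb]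
      ring
    have h5 : a ^ (2 * n + 2) < (c * ρ) ^ (2 * n + 2) := pow_lt_pow_left₀ hcon ha.le (by omega)
    have h6 : a ^ (n + 2) * b ^ n * ρ ^ n < e ^ (n + 2) * c ^ n * ρ ^ n := by
      rw [h3, h4]
      exact mul_lt_mul_of_pos_right h5 (by positivity)
    exact absurd (mul_le_mul_of_nonneg_right h2 hρn.le) (not_le.2 h6)
  have h7 : c * ρ ≤ a := by
    by_contra hcon
    push Not at hcon
    have h8 : k < b * c := by
      refine hk.trans ?_
      have : a ^ 2 * ρ ^ n < a * ρ ^ n * (c * ρ) := by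
        have : a ^ 2 * ρ ^ n = a * ρ ^ n * a := by ring
        rw [this]
        exact mul_lt_mul_of_pos_left hcon (by positivity)
      refine this.trans_le (le_of_eq ?_)
      rw [← hb]
      ring
    exact absurd (fin (key (hu h8))) (not_le.2 hcon)
  refine ⟨h7, ?_⟩
  by_contra hcon
  push Not at hcon
  have h8 : k < a * e := by
    refine hk.trans ?_
    have : a ^ 2 * ρ ^ n = a * (a * ρ ^ n) := by ring
    rw [this]
    exact mul_lt_mul_of_pos_left hcon ha
  have h9 := key (hu' h8)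
  rw [h9] at hcon
  exact absurd (mul_le_mul_of_nonneg_right h7 hρn.le) (not_le.2 hcon)

end real

section case

variable {F : Type} [Field F] (v : AbsoluteValue F ℝ) (hv : IsNonarchimedean v) {d : ℕ}
  {A B C D : F}

include hv

lemma ultra_eq (h : v (A * D - B * C) < v B * v C) : v A * v D = v B * v C := by
  by_contra hne
  rcases lt_or_gt_of_ne hne with h1 | h1
  · rw [← map_mul, ← map_mul] at h1
    rw [T.v_sub_of_lt' v hv h1, map_mul] at h
    exact lt_irrefl _ h
  · have h2 := h1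
    rw [← map_mul, ← map_mul] at h2
    rw [T.v_sub_of_lt v hv h2, map_mul] at h
    exact lt_asymm h h1

lemma ultra_eq' (h : v (A * D - B * C) < v A * v D) : v A * v D = v B * v C := by
  by_contra hne
  rcases lt_or_gt_of_ne hne with h1 | h1
  · have h2 := h1
    rw [← map_mul, ← map_mul] at h2
    rw [T.v_sub_of_lt' v hv h2, map_mul] at h
    exact lt_asymm h h1
  · rw [← map_mul, ← map_mul] at h1
    rw [T.v_sub_of_lt v hv h1, map_mul] at h
    exact lt_irrefl _ h

/-- The first case gives the data. -/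
lemma exists_bad (hd : 2 ≤ d) (hκ : A * D - B * C ≠ 0)
    (hk : v (A * D - B * C) ^ d < v A ^ (d + 1) * v B ^ (d - 1))
    (hAB : v D ^ (d + 1) * v C ^ (d - 1) ≤ v A ^ (d + 1) * v B ^ (d - 1))
    (h1 : NR v d A B C D) :
    ∃ ρ : ℝ, Bad v d A B C D ρ (Real.exp (-Rv v d A B C D)) := by
  obtain ⟨n, rfl⟩ : ∃ n, d = n + 1 := ⟨d - 1, by omega⟩
  simp only [Nat.add_sub_cancel] at hk hAB
  have hn : 1 ≤ n := by omega
  have hk0 : 0 < v (A * D - B * C) := v.pos hκ
  have hM : 0 < v A ^ (n + 1 + 1) * v B ^ n := lt_of_le_of_lt (by positivity) hk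
  have ha : 0 < v A := by
    rcases eq_or_lt_of_le (v.nonneg A) with h0 | h0
    · rw [← h0, zero_pow (by omega), zero_mul] at hM
      exact absurd hM (lt_irrefl _)
    · exact h0
  have hb : 0 < v B := by
    rcases eq_or_lt_of_le (v.nonneg B) with h0 | h0
    · rw [← h0, zero_pow (by omega), mul_zero] at hM
      exact absurd hM (lt_irrefl _)
    · exact h0
  set ρ : ℝ := (v B / v A) ^ (((n + 1 : ℕ) : ℝ)⁻¹) with hρdef
  have hρ : 0 < ρ := Real.rpow_pos_of_pos (div_pos hb ha) _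
  have hρd : ρ ^ (n + 1) = v B / v A := Real.rpow_inv_natCast_pow (div_pos hb ha).le (by omega)
  have hbρ : v A * ρ ^ (n + 1) = v B := by
    rw [hρd]
    field_simp
  set E : ℝ := v A ^ 2 * ρ ^ n with hE
  have hE0 : 0 < E := by positivity
  have hEd : E ^ (n + 1) = v A ^ (n + 1 + 1) * v B ^ n := by
    rw [hE, ← hbρ]
    ring
  have hkE : v (A * D - B * C) < E := by
    rw [← hEd] at hk
    exact lt_of_pow_lt_pow_left₀ _ hE0.le hk
  obtain ⟨h3, h4⟩ := real_case hn ha (v.nonneg C) hρ hbρ hkE hAB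
    (ultra_eq v hv) (ultra_eq' v hv)
  have hVd : Vd v (n + 1) A B C D = E ^ (n + 1) := by
    unfold Vd
    rw [Nat.add_sub_cancel, ← hEd, max_eq_left (a := E ^ (n + 1)) (by rw [hEd]; exact hAB)]
    refine max_eq_right (max_le ?_ ?_)
    · refine pow_le_pow_left₀ (by positivity) ?_ _
      have : E = v A * (v A * ρ ^ n) := by rw [hE]; ring
      rw [this]
      exact mul_le_mul_of_nonneg_left h4 ha.le
    · refine pow_le_pow_left₀ (by positivity) ?_ _
      have h5 : v B * v C = v A * ρ ^ n * (v C * ρ) := by rw [← hbρ]; ring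
      have h6 : E = v A * ρ ^ n * v A := by rw [hE]; ring
      rw [h5, h6]
      exact mul_le_mul_of_nonneg_left h3 (by positivity)
  have hRv : Real.exp (-Rv v (n + 1) A B C D) = v (A * D - B * C) / E := by
    have hn0 : ((n + 1 : ℕ) : ℝ) ≠ 0 := by positivity
    unfold Rv
    rw [hVd, Real.log_pow, mul_div_cancel_left₀ _ hn0, neg_sub, Real.exp_sub,
      Real.exp_log hk0, Real.exp_log hE0]
  refine ⟨ρ, ⟨by omega, hκ, ha, hρ, Real.exp_pos _, ?_, hbρ, ?_, h3, ?_⟩⟩
  · rw [hRv, div_lt_one hE0]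
    exact hkE
  · rw [hRv, Nat.add_sub_cancel, ← hE]
    field_simp
  · rcases h1 with h | h | h
    · exact absurd hk (not_lt.2 h)
    · exact absurd h (not_lt.2 hAB)
    · exact h

/-- One of the two cases holds at every bad place. -/
lemma exists_case (hd : 2 ≤ d) (hκ : A * D - B * C ≠ 0) (hbad : 0 < Rv v d A B C D) :
    (v (A * D - B * C) ^ d < v A ^ (d + 1) * v B ^ (d - 1) ∧
      v D ^ (d + 1) * v C ^ (d - 1) ≤ v A ^ (d + 1) * v B ^ (d - 1)) ∨
    (v (A * D - B * C) ^ d < v D ^ (d + 1) * v C ^ (d - 1) ∧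
      v A ^ (d + 1) * v B ^ (d - 1) ≤ v D ^ (d + 1) * v C ^ (d - 1)) := by
  have hk0 : 0 < v (A * D - B * C) := v.pos hκ
  set k := v (A * D - B * C) with hk
  have hle : k ≤ max (v A * v D) (v B * v C) := by
    rw [hk]
    refine (T.av_sub_le v hv _ _).trans (le_of_eq ?_)
    rw [map_mul, map_mul]
  have hVk : k ^ d ≤ Vd v d A B C D := by
    unfold Vd
    refine le_max_of_le_left ?_
    rcases le_max_iff.1 hle with h | h
    · exact le_max_of_le_left (pow_le_pow_left₀ hk0.le h _)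
    · exact le_max_of_le_right (pow_le_pow_left₀ hk0.le h _)
  have hV0 : 0 < Vd v d A B C D := lt_of_lt_of_le (by positivity) hVk
  have hV : k ^ d < Vd v d A B C D := by
    have hd0 : (0 : ℝ) < d := by
      have : 0 < d := by omega
      exact_mod_cast this
    unfold Rv at hbad
    rw [sub_pos, lt_div_iff₀ hd0, ← hk, mul_comm, ← Real.log_pow] at hbad
    exact (Real.log_lt_log_iff (by positivity) hV0).1 hbad
  set M1 := v A ^ (d + 1) * v B ^ (d - 1) with hM1
  set M2 := v D ^ (d + 1) * v C ^ (d - 1) with hM2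
  have hmax : k ^ d < max M1 M2 := by
    by_contra hcon
    push Not at hcon
    have h1 : M1 ≤ k ^ d := (le_max_left _ _).trans hcon
    have h2 : M2 ≤ k ^ d := (le_max_right _ _).trans hcon
    have h3 : v A * v D = v B * v C ∧ k < v A * v D := by
      unfold Vd at hV
      rw [← hM1, ← hM2] at hV
      rcases lt_max_iff.1 hV with h | h
      · rcases lt_max_iff.1 h with h | h
        · have h4 := lt_of_pow_lt_pow_left₀ _ (by positivity) h
          exact ⟨ultra_eq' v hv h4, h4⟩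
        · have h4 := lt_of_pow_lt_pow_left₀ _ (by positivity) h
          have h5 := ultra_eq v hv h4
          exact ⟨h5, by rw [h5]; exact h4⟩
      · exact absurd h (not_lt.2 hcon)
    obtain ⟨h4, h5⟩ := h3
    have h6 : M1 * M2 = (v A * v D) ^ (d + 1) * (v B * v C) ^ (d - 1) := by
      rw [hM1, hM2, mul_pow, mul_pow]
      ring
    have h7 : M1 * M2 = (v A * v D) ^ d * (v A * v D) ^ d := by
      rw [h6, ← h4, ← pow_add, ← pow_add]
      congr 1
      omega
    have h8 : k ^ d < (v A * v D) ^ d := pow_lt_pow_left₀ h5 hk0.le (by omega)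
    have h9 : M1 * M2 ≤ k ^ d * k ^ d := mul_le_mul h1 h2 (by positivity) (by positivity)
    have h10 : k ^ d * k ^ d < (v A * v D) ^ d * (v A * v D) ^ d :=
      mul_lt_mul'' h8 h8 (by positivity) (by positivity)
    rw [h7] at h9
    exact absurd h9 (not_le.2 h10)
  rcases le_total M2 M1 with h | h
  · left
    rw [max_eq_left h] at hmax
    exact ⟨hmax, h⟩
  · right
    rw [max_eq_right h] at hmax
    exact ⟨hmax, h⟩

omit hv in
lemma det_swap : D * A - C * B = A * D - B * C := by ring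

omit hv in
lemma Vd_swap : Vd v d D C B A = Vd v d A B C D := by
  unfold Vd
  rw [mul_comm (v D) (v A), mul_comm (v C) (v B), max_comm (v D ^ (d + 1) * v C ^ (d - 1))]

omit hv in
lemma Rv_swap : Rv v d D C B A = Rv v d A B C D := by
  unfold Rv
  rw [Vd_swap, det_swap]

end case

/-! ### Dynamics in the first case -/

section dyn

variable {F : Type} [Field F] {v : AbsoluteValue F ℝ} {d : ℕ} {A B C D : F} {ρ q : ℝ}

/-- The neighbourhood of the critical value. -/
def Nb (v : AbsoluteValue F ℝ) (A C : F) (ρ : ℝ) (P : F × F) : Prop :=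
  P.1 ≠ 0 ∧ v (A * P.2 - C * P.1) * ρ < v A * v P.1

lemma Bad.b0 (h : Bad v d A B C D ρ q) : 0 < v B := by
  rw [← h.hb]
  exact mul_pos h.a0 (pow_pos h.r0 _)

lemma Bad.rd (h : Bad v d A B C D ρ q) : ρ ^ (d - 1) * ρ = ρ ^ d := by
  rw [← pow_succ]
  congr 1
  have := h.hd
  omega

lemma Bad.kρ (h : Bad v d A B C D ρ q) : v (A * D - B * C) * ρ = q * v A * v B := by
  rw [h.hk, ← h.hb, ← h.rd]
  ring

/-- If the image is not in the neighbourhood then the point is in the ring. -/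
lemma Bad.ring (hv : IsNonarchimedean v) (h : Bad v d A B C D ρ q) {P : F × F} (hP : P ≠ 0)
    (hN : ¬ Nb v A C ρ (hm d A B C D P)) : v P.1 = ρ * v P.2 ∧ P.2 ≠ 0 := by
  have ha := h.a0
  have hb := h.b0
  have hd := h.hd
  have h1 : v A * v (hm d A B C D P).1 ≤ v (A * D - B * C) * v P.2 ^ d * ρ := by
    by_cases h0 : (hm d A B C D P).1 = 0
    · rw [h0, map_zero, mul_zero]
      have := h.r0
      positivity
    · by_contra hcon
      push Not at hcon
      apply hN
      refine ⟨h0, ?_⟩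
      rw [key_id, map_mul, map_pow]
      exact hcon
  have h2 : v (A * P.1 ^ d + B * P.2 ^ d) ≤ q * (v B * v P.2 ^ d) := by
    have h3 : v (A * D - B * C) * v P.2 ^ d * ρ = v A * (q * (v B * v P.2 ^ d)) := by
      have : v (A * D - B * C) * v P.2 ^ d * ρ = v (A * D - B * C) * ρ * v P.2 ^ d := by ring
      rw [this, h.kρ]
      ring
    rw [h3] at h1
    exact le_of_mul_le_mul_left h1 ha
  have hY : P.2 ≠ 0 := by
    intro h0
    apply hP
    rw [h0, map_zero, zero_pow (by omega), zero_pow (by omega), mul_zero, mul_zero, mul_zero,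
      add_zero] at h2
    have h3 : A * P.1 ^ d = 0 := v.eq_zero.1 (le_antisymm h2 (v.nonneg _))
    have hA : A ≠ 0 := v.pos_iff.1 ha
    have h4 : P.1 = 0 := pow_eq_zero_iff (by omega) |>.1 ((mul_eq_zero.1 h3).resolve_left hA)
    exact Prod.ext h4 h0
  have hY0 : 0 < v P.2 := v.pos hY
  refine ⟨?_, hY⟩
  have h3 : v (A * P.1 ^ d + B * P.2 ^ d) < v (B * P.2 ^ d) := by
    rw [map_mul v B, map_pow]
    refine h2.trans_lt ?_
    have : 0 < v B * v P.2 ^ d := by positivity
    calc q * (v B * v P.2 ^ d) < 1 * (v B * v P.2 ^ d) := mul_lt_mul_of_pos_right h.q1 this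
      _ = _ := one_mul _
  have h4 : v (A * P.1 ^ d) = v (B * P.2 ^ d) := by
    have : A * P.1 ^ d = (A * P.1 ^ d + B * P.2 ^ d) - B * P.2 ^ d := by ring
    rw [this]
    exact T.v_sub_of_lt' v hv h3
  rw [map_mul, map_mul, map_pow, map_pow, ← h.hb, mul_assoc, ← mul_pow] at h4
  have h5 := mul_left_cancel₀ ha.ne' h4
  exact (pow_left_inj₀ (v.nonneg _) (mul_nonneg h.r0.le hY0.le) (by omega)).1 h5

lemma Nb.le (hv : IsNonarchimedean v) (h : Bad v d A B C D ρ q) {P : F × F}
    (hP : Nb v A C ρ P) : v P.2 * ρ ≤ v P.1 := by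
  have ha := h.a0
  have h1 : v (A * P.2) ≤ max (v (A * P.2 - C * P.1)) (v (C * P.1)) := by
    have := hv (A * P.2 - C * P.1) (C * P.1)
    rwa [sub_add_cancel] at this
  have h2 : v A * (v P.2 * ρ) ≤ v A * v P.1 := by
    rw [← mul_assoc, ← map_mul]
    rcases le_max_iff.1 h1 with h3 | h3
    · exact (mul_le_mul_of_nonneg_right h3 h.r0.le).trans hP.2.le
    · refine (mul_le_mul_of_nonneg_right h3 h.r0.le).trans ?_
      rw [map_mul]
      calc v C * v P.1 * ρ = v C * ρ * v P.1 := by ring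
        _ ≤ v A * v P.1 := mul_le_mul_of_nonneg_right h.hc (v.nonneg _)
  exact le_of_mul_le_mul_left h2 ha

lemma v_pow_sub_le (hv : IsNonarchimedean v) {x y : F} {r : ℝ} (hr : 0 ≤ r) (hx : v x ≤ r)
    (hy : v y ≤ r) {d : ℕ} (hd : 1 ≤ d) : v (x ^ d - y ^ d) ≤ v (x - y) * r ^ (d - 1) := by
  obtain ⟨n, rfl⟩ : ∃ n, d = n + 1 := ⟨d - 1, by omega⟩
  rw [Nat.add_sub_cancel]
  have h1 : x ^ (n + 1) - y ^ (n + 1) =
      (x - y) * ∑ i ∈ range (n + 1), x ^ i * y ^ (n - i) := by
    rw [mul_comm, ← Commute.geom_sum₂_mul (Commute.all x y)]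
    rfl
  rw [h1, map_mul]
  refine mul_le_mul_of_nonneg_left ?_ (v.nonneg _)
  refine T.v_sum_le v hv _ _ (by positivity) fun i hi => ?_
  have hi' : i ≤ n := by
    have := mem_range.1 hi
    omega
  rw [map_mul, map_pow, map_pow]
  calc v x ^ i * v y ^ (n - i) ≤ r ^ i * r ^ (n - i) :=
        mul_le_mul (pow_le_pow_left₀ (v.nonneg _) hx _) (pow_le_pow_left₀ (v.nonneg _) hy _)
          (by positivity) (by positivity)
    _ = r ^ n := by rw [← pow_add]; congr 1; omega

/-- The first coordinate of the image of a point of the neighbourhood. -/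
lemma Nb.fst (hv : IsNonarchimedean v) (h : Bad v d A B C D ρ q) {P : F × F}
    (hP : Nb v A C ρ P) : v (hm d A B C D P).1 = v A * v P.1 ^ d := by
  have ha := h.a0
  have hr := h.r0
  have hd := h.hd
  have hle := hP.le hv h
  have hX0 : 0 < v P.1 := v.pos hP.1
  show v (A * P.1 ^ d + B * P.2 ^ d) = _
  have hBY : v (B * P.2 ^ d) = v A * (v P.2 * ρ) ^ d := by
    rw [map_mul, map_pow, ← h.hb, mul_pow]
    ring
  have hAX : v (A * P.1 ^ d) = v A * v P.1 ^ d := by rw [map_mul, map_pow]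
  rcases eq_or_lt_of_le hle with heq | hlt
  · -- the resonant case
    have h1 : v A * v P.1 ≤ v C * v P.1 * ρ := by
      have h2 : v (A * P.2) ≤ max (v (A * P.2 - C * P.1)) (v (C * P.1)) := by
        have := hv (A * P.2 - C * P.1) (C * P.1)
        rwa [sub_add_cancel] at this
      rcases le_max_iff.1 h2 with h3 | h3
      · have h4 := (mul_le_mul_of_nonneg_right h3 h.r0.le).trans_lt hP.2
        rw [map_mul, mul_assoc, heq] at h4
        exact absurd h4 (lt_irrefl _)
      · have h4 := mul_le_mul_of_nonneg_right h3 h.r0.le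
        rw [map_mul, mul_assoc, heq, map_mul] at h4
        exact h4
    have hcρ : v C * ρ = v A := by
      refine le_antisymm h.hc ?_
      have : v C * v P.1 * ρ = v C * ρ * v P.1 := by ring
      rw [this] at h1
      exact le_of_mul_le_mul_right h1 hX0
    have hc0 : 0 < v C := by
      rcases eq_or_lt_of_le (v.nonneg C) with h0 | h0
      · rw [← h0, zero_mul] at hcρ
        exact absurd hcρ ha.ne
      · exact h0
    have hY0 : 0 < v P.2 := by
      by_contra h0
      have : v P.2 = 0 := le_antisymm (not_lt.1 h0) (v.nonneg _)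
      rw [this, zero_mul] at heq
      exact hX0.ne heq
    have hCX : v (C * P.1) = v (A * P.2) := by
      rw [map_mul, map_mul, ← heq, ← hcρ]
      ring
    have hdiff : v (C * P.1 - A * P.2) < v (A * P.2) := by
      rw [v.map_sub]
      have h2 : v (A * P.2 - C * P.1) * ρ < v (A * P.2) * ρ := by
        refine hP.2.trans_le (le_of_eq ?_)
        rw [map_mul, mul_assoc, heq]
      exact lt_of_mul_lt_mul_right h2 hr.le
    have hpow : v (A * ((C * P.1) ^ d - (A * P.2) ^ d)) < v A ^ (d + 1) * v P.2 ^ d := by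
      have hAY0 : 0 < v (A * P.2) := by
        rw [map_mul]
        positivity
      have h2 : v ((C * P.1) ^ d - (A * P.2) ^ d) < v (A * P.2) ^ d := by
        refine (v_pow_sub_le hv (v.nonneg (A * P.2)) hCX.le le_rfl (by omega)).trans_lt ?_
        calc v (C * P.1 - A * P.2) * v (A * P.2) ^ (d - 1)
            < v (A * P.2) * v (A * P.2) ^ (d - 1) := mul_lt_mul_of_pos_right hdiff (by positivity)
          _ = v (A * P.2) ^ d := by
            rw [← pow_succ']
            congr 1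
            omega
      rw [map_mul]
      calc v A * v ((C * P.1) ^ d - (A * P.2) ^ d) < v A * v (A * P.2) ^ d :=
            mul_lt_mul_of_pos_left h2 ha
        _ = v A ^ (d + 1) * v P.2 ^ d := by
            rw [map_mul, mul_pow]
            ring
    have hnr : v A ^ (d + 1) * v P.2 ^ d ≤ v ((A ^ (d + 1) + B * C ^ d) * P.2 ^ d) := by
      rw [map_mul, map_pow v P.2]
      exact mul_le_mul_of_nonneg_right h.nr (by positivity)
    have hid : C ^ d * (A * P.1 ^ d + B * P.2 ^ d) =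
        (A ^ (d + 1) + B * C ^ d) * P.2 ^ d + A * ((C * P.1) ^ d - (A * P.2) ^ d) := by ring
    have hge : v A ^ (d + 1) * v P.2 ^ d ≤ v C ^ d * v (A * P.1 ^ d + B * P.2 ^ d) := by
      have h2 : v C ^ d * v (A * P.1 ^ d + B * P.2 ^ d) =
          v (C ^ d * (A * P.1 ^ d + B * P.2 ^ d)) := by rw [map_mul, map_pow]
      rw [h2, hid, T.v_add_of_lt v hv (hpow.trans_le hnr)]
      exact hnr
    have hge2 : v A * v P.1 ^ d ≤ v (A * P.1 ^ d + B * P.2 ^ d) := by
      have : v A ^ (d + 1) * v P.2 ^ d = v C ^ d * (v A * v P.1 ^ d) := by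
        rw [← heq, ← hcρ]
        ring
      rw [this] at hge
      exact le_of_mul_le_mul_left hge (by positivity)
    refine le_antisymm ?_ hge2
    refine (hv _ _).trans (max_le hAX.le ?_)
    rw [hBY, heq]
  · have : v (B * P.2 ^ d) < v (A * P.1 ^ d) := by
      rw [hBY, hAX]
      refine mul_lt_mul_of_pos_left ?_ ha
      exact pow_lt_pow_left₀ hlt (mul_nonneg (v.nonneg _) hr.le) (by omega)
    rw [T.v_add_of_lt v hv this, hAX]

/-- The neighbourhood is invariant. -/
lemma Nb.step (hv : IsNonarchimedean v) (h : Bad v d A B C D ρ q) {P : F × F}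
    (hP : Nb v A C ρ P) : Nb v A C ρ (hm d A B C D P) := by
  have ha := h.a0
  have hr := h.r0
  have hq := h.q0
  have hd := h.hd
  have hX0 : 0 < v P.1 := v.pos hP.1
  have hle := hP.le hv h
  have hfst := hP.fst hv h
  refine ⟨?_, ?_⟩
  · intro h0
    rw [h0, map_zero] at hfst
    have : 0 < v A * v P.1 ^ d := by positivity
    exact this.ne hfst
  · rw [key_id, hfst, map_mul, map_pow]
    have h1 : v (A * D - B * C) * v P.2 ^ d * ρ = q * (v A ^ 2 * (v P.2 * ρ) ^ d) := by
      have : v (A * D - B * C) * v P.2 ^ d * ρ = v (A * D - B * C) * ρ * v P.2 ^ d := by ring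
      rw [this, h.kρ, ← h.hb, mul_pow]
      ring
    rw [h1]
    have h2 : (v P.2 * ρ) ^ d ≤ v P.1 ^ d := pow_le_pow_left₀ (by positivity) hle _
    calc q * (v A ^ 2 * (v P.2 * ρ) ^ d) ≤ q * (v A ^ 2 * v P.1 ^ d) := by gcongr
      _ < 1 * (v A ^ 2 * v P.1 ^ d) := mul_lt_mul_of_pos_right h.q1 (by positivity)
      _ = v A * (v A * v P.1 ^ d) := by ring

/-- Contraction on the neighbourhood. -/
lemma Nb.contr (hv : IsNonarchimedean v) (h : Bad v d A B C D ρ q) {P Q : F × F}
    (hP : Nb v A C ρ P) (hQ : Nb v A C ρ Q) :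
    v ((hm d A B C D P).2 / (hm d A B C D P).1 - (hm d A B C D Q).2 / (hm d A B C D Q).1)
      ≤ q * v (P.2 / P.1 - Q.2 / Q.1) := by
  have ha := h.a0
  have hr := h.r0
  have hq := h.q0
  have hd := h.hd
  have hXP : 0 < v P.1 := v.pos hP.1
  have hXQ : 0 < v Q.1 := v.pos hQ.1
  have hP' := (hP.step hv h).1
  have hQ' := (hQ.step hv h).1
  have hP1 := hP.1
  have hQ1 := hQ.1
  have hval : ∀ {R : F × F}, Nb v A C ρ R → v (R.2 / R.1) ≤ ρ⁻¹ := by
    intro R hR
    have h1 := hR.le hv h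
    have h2 : 0 < v R.1 := v.pos hR.1
    rw [map_div₀, div_le_iff₀ h2, inv_mul_eq_div, le_div_iff₀ hr]
    exact h1
  have hid : (hm d A B C D P).2 / (hm d A B C D P).1 - (hm d A B C D Q).2 / (hm d A B C D Q).1 =
      (A * D - B * C) * ((P.1 ^ d * Q.1 ^ d) * ((P.2 / P.1) ^ d - (Q.2 / Q.1) ^ d)) /
        ((hm d A B C D P).1 * (hm d A B C D Q).1) := by
    have h1 : (P.1 ^ d * Q.1 ^ d) * ((P.2 / P.1) ^ d - (Q.2 / Q.1) ^ d) =
        (P.2 * Q.1) ^ d - (P.1 * Q.2) ^ d := by
      rw [div_pow, div_pow, mul_pow, mul_pow]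
      field_simp
    rw [h1, div_sub_div _ _ hP' hQ']
    congr 1
    simp only [hm]
    ring
  have h1 : v ((P.2 / P.1) ^ d - (Q.2 / Q.1) ^ d) ≤ v (P.2 / P.1 - Q.2 / Q.1) * ρ⁻¹ ^ (d - 1) :=
    v_pow_sub_le hv (by positivity) (hval hP) (hval hQ) (by omega)
  rw [hid, map_div₀, map_mul, map_mul, map_mul, map_mul, hP.fst hv h, hQ.fst hv h, h.hk, map_pow,
    map_pow]
  set w := v ((P.2 / P.1) ^ d - (Q.2 / Q.1) ^ d) with hw
  have h2 : q * (v A ^ 2 * ρ ^ (d - 1)) * (v P.1 ^ d * v Q.1 ^ d * w) /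
      (v A * v P.1 ^ d * (v A * v Q.1 ^ d)) = q * (ρ ^ (d - 1) * w) := by
    field_simp
  rw [h2]
  refine mul_le_mul_of_nonneg_left ?_ hq.le
  calc ρ ^ (d - 1) * w ≤ ρ ^ (d - 1) * (v (P.2 / P.1 - Q.2 / Q.1) * ρ⁻¹ ^ (d - 1)) := by gcongr
    _ = v (P.2 / P.1 - Q.2 / Q.1) * (ρ ^ (d - 1) * ρ⁻¹ ^ (d - 1)) := by ring
    _ = v (P.2 / P.1 - Q.2 / Q.1) := by
      rw [← mul_pow, mul_inv_cancel₀ hr.ne', one_pow, mul_one]

lemma Nb.iterate (hv : IsNonarchimedean v) (h : Bad v d A B C D ρ q) {P : F × F}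
    (hP : Nb v A C ρ P) (n : ℕ) : Nb v A C ρ ((hm d A B C D)^[n] P) := by
  induction n with
  | zero => exact hP
  | succ n ih => rw [Function.iterate_succ_apply']; exact ih.step hv h

/-- The orbit of an admissible point avoids the neighbourhood. -/
lemma Bad.not_nb (hv : IsNonarchimedean v) (h : Bad v d A B C D ρ q) {P : F × F}
    (hP : Adm d A B C D P) (n : ℕ) : ¬ Nb v A C ρ ((hm d A B C D)^[n] P) := by
  intro hN
  obtain ⟨⟨i, j, hij, h1⟩, h2⟩ := hP
  set R : ℕ → F × F := fun m => (hm d A B C D)^[n + m] P with hR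
  have hRs : ∀ m, R (m + 1) = hm d A B C D (R m) := by
    intro m
    simp only [hR]
    rw [← add_assoc, Function.iterate_succ_apply']
  have hRN : ∀ m, Nb v A C ρ (R m) := by
    intro m
    have := hN.iterate hv h m
    rwa [← Function.iterate_add_apply, add_comm] at this
  have hRw : ∀ s : ℕ, wd (R (i + s)) (R (j + s)) = 0 := by
    intro s
    have := wd_hm_iterate (d := d) (A := A) (B := B) (C := C) (D := D) h1 (n + s)
    rw [← Function.iterate_add_apply, ← Function.iterate_add_apply] at this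
    simp only [hR]
    rw [show n + (i + s) = n + s + i by ring, show n + (j + s) = n + s + j by ring]
    exact this
  set u : ℕ → F := fun m => (R m).2 / (R m).1 with hu
  have heq : ∀ {m m' : ℕ}, wd (R m) (R m') = 0 ↔ u m = u m' := by
    intro m m'
    have h3 := (hRN m).1
    have h4 := (hRN m').1
    simp only [hu]
    rw [div_eq_div_iff h3 h4]
    simp only [wd]
    constructor
    · intro h5
      linear_combination -h5
    · intro h5
      linear_combination -h5
  have hcontr : ∀ m s : ℕ, v (u (m + s + 1) - u (m + s)) ≤ q ^ s * v (u (m + 1) - u m) := by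
    intro m s
    induction s with
    | zero => simp
    | succ s ih =>
      have h3 := (hRN (m + s + 1)).contr hv h (hRN (m + s))
      rw [← hRs, ← hRs] at h3
      refine h3.trans ?_
      rw [pow_succ, mul_comm (q ^ s), mul_assoc]
      exact mul_le_mul_of_nonneg_left ih h.q0.le
  obtain ⟨s, rfl⟩ : ∃ s, j = i + s := ⟨j - i, by omega⟩
  have hs : s ≠ 0 := by omega
  have h3 : u i = u (i + s) := heq.1 (hRw 0)
  have h4 : u (i + 1) = u (i + s + 1) := heq.1 (hRw 1)
  have h5 := hcontr i s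
  rw [← h3, ← h4] at h5
  have h6 : q ^ s < 1 := pow_lt_one₀ h.q0.le h.q1 hs
  have h7 : v (u (i + 1) - u i) = 0 := by
    by_contra hne
    have h8 : 0 < v (u (i + 1) - u i) := lt_of_le_of_ne (v.nonneg _) (Ne.symm hne)
    have h9 := mul_lt_mul_of_pos_right h6 h8
    rw [one_mul] at h9
    exact absurd h5 (not_le.2 h9)
  have h8 : u i = u (i + 1) := (sub_eq_zero.1 (v.eq_zero.1 h7)).symm
  exact h2 (n + i) (heq.2 h8)

/-- All iterates of an admissible point are in the ring. -/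
lemma Bad.all_ring (hv : IsNonarchimedean v) (h : Bad v d A B C D ρ q) {P : F × F}
    (hP : Adm d A B C D P) (n : ℕ) : v ((hm d A B C D)^[n] P).1 = ρ * v ((hm d A B C D)^[n] P).2 ∧
      ((hm d A B C D)^[n] P).2 ≠ 0 := by
  have h0 : (hm d A B C D)^[n] P ≠ 0 := by
    intro h0
    apply hP.2 n
    rw [h0]
    simp [wd]
  refine h.ring hv h0 ?_
  have := h.not_nb hv hP (n + 1)
  rwa [Function.iterate_succ_apply'] at this

lemma Bad.ne_zero (hv : IsNonarchimedean v) (h : Bad v d A B C D ρ q) {P : F × F}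
    (hP : Adm d A B C D P) (n : ℕ) : ((hm d A B C D)^[n] P).1 ≠ 0 ∧
      ((hm d A B C D)^[n] P).2 ≠ 0 := by
  obtain ⟨h1, h2⟩ := h.all_ring hv hP n
  refine ⟨fun h0 => ?_, h2⟩
  rw [h0, map_zero] at h1
  exact (mul_pos h.r0 (v.pos h2)).ne h1

lemma Bad.val (hv : IsNonarchimedean v) (h : Bad v d A B C D ρ q) {x : F}
    (hx : AdmA d A B C D x) : v x = ρ := by
  have := (h.all_ring hv hx.adm 0).1
  simpa using this

/-- The size of the denominator. -/
lemma Bad.den (hv : IsNonarchimedean v) (h : Bad v d A B C D ρ q) {x : F}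
    (hx : AdmA d A B C D x) : v A * v (C * x ^ d + D) = v (A * D - B * C) := by
  have ha := h.a0
  have hr := h.r0
  have h1 := h.not_nb hv hx.adm 1
  have h2 := (h.all_ring hv hx.adm 1).1
  have h3 := (h.ne_zero hv hx.adm 1).1
  rw [Function.iterate_one] at h1 h2 h3
  have hid := key_id (d := d) (A := A) (B := B) (C := C) (D := D) (x, (1 : F))
  have hY : (hm d A B C D (x, 1)).2 = C * x ^ d + D := by simp [hm]
  set X' := (hm d A B C D (x, 1)).1 with hX'
  rw [hY] at hid h2
  set Y' := C * x ^ d + D with hY'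
  simp only [one_pow, mul_one] at hid
  have h4 : v A * v X' ≤ v (A * Y' - C * X') * ρ := by
    by_contra hcon
    push Not at hcon
    apply h1
    refine ⟨h3, ?_⟩
    rw [hY]
    exact hcon
  rw [h2] at h4
  refine le_antisymm ?_ ?_
  · rw [← hid]
    have : v A * (ρ * v Y') = v A * v Y' * ρ := by ring
    rw [this] at h4
    exact le_of_mul_le_mul_right h4 hr
  · rw [← hid]
    refine (T.av_sub_le v hv _ _).trans (max_le (le_of_eq (map_mul _ _ _)) ?_)
    rw [map_mul, h2]
    calc v C * (ρ * v Y') = v C * ρ * v Y' := by ring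
      _ ≤ v A * v Y' := mul_le_mul_of_nonneg_right h.hc (v.nonneg _)

/-- The map expands distances of `d`-th powers by a constant factor. -/
lemma Bad.expand (hv : IsNonarchimedean v) (h : Bad v d A B C D ρ q) {x y : F}
    (hx : AdmA d A B C D x) (hy : AdmA d A B C D y) :
    v (x ^ d - y ^ d) = q * ρ ^ (d - 1) * v (bf d A B C D x - bf d A B C D y) := by
  have ha := h.a0
  have hr := h.r0
  have hq := h.q0
  have hx0 : C * x ^ d + D ≠ 0 := (hx.2.2 0).2
  have hy0 : C * y ^ d + D ≠ 0 := (hy.2.2 0).2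
  have hx1 := h.den hv hx
  have hy1 := h.den hv hy
  have hk0 : 0 < v (A * D - B * C) := v.pos h.hκ
  have hid : (bf d A B C D x - bf d A B C D y) * ((C * x ^ d + D) * (C * y ^ d + D)) =
      (A * D - B * C) * (x ^ d - y ^ d) := by
    have aux : ∀ p r : F, C * p + D ≠ 0 → C * r + D ≠ 0 →
        ((A * p + B) / (C * p + D) - (A * r + B) / (C * r + D)) *
          ((C * p + D) * (C * r + D)) = (A * D - B * C) * (p - r) := by
      intro p r hp hr
      rw [div_sub_div _ _ hp hr, div_mul_cancel₀ _ (mul_ne_zero hp hr)]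
      ring
    exact aux _ _ hx0 hy0
  have h1 := congrArg v hid
  rw [map_mul, map_mul, map_mul] at h1
  have h2 : v (bf d A B C D x - bf d A B C D y) * v (A * D - B * C) ^ 2 =
      v A ^ 2 * (v (A * D - B * C) * v (x ^ d - y ^ d)) := by
    rw [← h1]
    nth_rewrite 1 [sq]
    nth_rewrite 1 [← hx1]
    rw [← hy1]
    ring
  have h3 : v (bf d A B C D x - bf d A B C D y) * v (A * D - B * C) =
      v A ^ 2 * v (x ^ d - y ^ d) := by
    have : v (A * D - B * C) * (v (bf d A B C D x - bf d A B C D y) * v (A * D - B * C)) =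
        v (A * D - B * C) * (v A ^ 2 * v (x ^ d - y ^ d)) := by
      calc _ = v (bf d A B C D x - bf d A B C D y) * v (A * D - B * C) ^ 2 := by ring
        _ = _ := by rw [h2]; ring
    exact mul_left_cancel₀ hk0.ne' this
  rw [h.hk] at h3
  have h4 : v A ^ 2 * v (x ^ d - y ^ d) =
      v A ^ 2 * (q * ρ ^ (d - 1) * v (bf d A B C D x - bf d A B C D y)) := by
    rw [← h3]
    ring
  exact mul_left_cancel₀ (by positivity) h4

/-! ### Tame places -/

lemma v_prod' (v : AbsoluteValue F ℝ) {ω : F} (hω : IsPrimitiveRoot ω d) (hd : 0 < d) (x y : F) :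
    v (x ^ d - y ^ d) = ∏ ζ ∈ Polynomial.nthRootsFinset d (1 : F), v (x - ζ * y) := by
  rw [hω.pow_sub_pow_eq_prod_sub_mul x y hd, map_prod]

lemma ring_step (hv : IsNonarchimedean v) {ω : F} (hω : IsPrimitiveRoot ω d) (hd : 2 ≤ d)
    (hvd : v (d : F) = 1) {x y ζ : F} (hy : v y = ρ) (hζ : ζ ^ d = 1)
    (hlt : v (x - ζ * y) < ρ) : v (x ^ d - y ^ d) = v (x - ζ * y) * ρ ^ (d - 1) := by
  classical
  have hd0 : 0 < d := by omega
  rw [v_prod' v hω hd0, ← Finset.mul_prod_erase _ _ ((T.mem_roots_iff hd0).2 hζ)]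
  congr 1
  have h1 : ∀ ξ ∈ (Polynomial.nthRootsFinset d (1 : F)).erase ζ, v (x - ξ * y) = ρ := by
    intro ξ hξ
    obtain ⟨hne, hξ'⟩ := Finset.mem_erase.1 hξ
    have hξ1 := (T.mem_roots_iff hd0).1 hξ'
    have h2 : x - ξ * y = (ζ - ξ) * y + (x - ζ * y) := by ring
    have h3 : v ((ζ - ξ) * y) = ρ := by
      rw [map_mul, T.v_root_sub v hv hd0 hvd hζ hξ1 (Ne.symm hne), one_mul, hy]
    rw [h2, T.v_add_of_lt v hv (by rw [h3]; exact hlt), h3]
  rw [Finset.prod_congr rfl h1, Finset.prod_const, Finset.card_erase_of_mem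
    ((T.mem_roots_iff hd0).2 hζ), hω.card_nthRootsFinset]

lemma Bad.near (hv : IsNonarchimedean v) (h : Bad v d A B C D ρ q) {ω : F}
    (hω : IsPrimitiveRoot ω d) (hvd : v (d : F) = 1) {x y ζ : F} (hx : AdmA d A B C D x)
    (hy : AdmA d A B C D y) (hζ : ζ ^ d = 1) (hlt : v (x - ζ * y) < ρ) :
    v (x - ζ * y) = q * v (bf d A B C D x - bf d A B C D y) := by
  have hr := h.r0
  have h1 := ring_step hv hω h.hd hvd (h.val hv hy) hζ hlt
  rw [h.expand hv hx hy] at h1
  have h2 : ρ ^ (d - 1) * v (x - ζ * y) =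
      ρ ^ (d - 1) * (q * v (bf d A B C D x - bf d A B C D y)) := by
    linear_combination -h1
  exact mul_left_cancel₀ (by positivity) h2

lemma Bad.sub_le (hv : IsNonarchimedean v) (h : Bad v d A B C D ρ q) {x y : F}
    (hx : AdmA d A B C D x) (hy : AdmA d A B C D y) : v (x - y) ≤ ρ := by
  refine (T.av_sub_le v hv _ _).trans (le_of_eq ?_)
  rw [h.val hv hx, h.val hv hy, max_self]

/-- Closeness to a root of unity. -/
lemma Bad.close (hv : IsNonarchimedean v) (h : Bad v d A B C D ρ q) {ω : F}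
    (hω : IsPrimitiveRoot ω d) (hvd : v (d : F) = 1) {x y : F} (hx : AdmA d A B C D x)
    (hy : AdmA d A B C D y) : ∃ ζ : F, ζ ^ d = 1 ∧ v (x - ζ * y) ≤ q * ρ := by
  classical
  have hr := h.r0
  have hd := h.hd
  have hd0 : 0 < d := by omega
  by_contra hcon
  push Not at hcon
  have hfle := h.sub_le hv hx.step hy.step
  have hge : ∀ ζ : F, ζ ^ d = 1 → ρ ≤ v (x - ζ * y) := by
    intro ζ hζ
    by_contra hlt
    push Not at hlt
    have h1 := h.near hv hω hvd hx hy hζ hlt
    have h2 := hcon ζ hζ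
    rw [h1] at h2
    exact absurd (mul_le_mul_of_nonneg_left hfle h.q0.le) (not_le.2 h2)
  have h1 := h.expand hv hx hy
  rw [v_prod' v hω hd0] at h1
  have h2 : ρ ^ d ≤ ∏ ζ ∈ Polynomial.nthRootsFinset d (1 : F), v (x - ζ * y) := by
    calc ρ ^ d = ∏ ζ ∈ Polynomial.nthRootsFinset d (1 : F), ρ := by
          rw [Finset.prod_const, hω.card_nthRootsFinset]
      _ ≤ _ := Finset.prod_le_prod (fun _ _ => hr.le)
          fun ζ hζ => hge ζ ((T.mem_roots_iff hd0).1 hζ)
  rw [h1] at h2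
  have h3 : q * ρ ^ (d - 1) * v (bf d A B C D x - bf d A B C D y) < ρ ^ d := by
    calc q * ρ ^ (d - 1) * v (bf d A B C D x - bf d A B C D y) ≤ q * ρ ^ (d - 1) * ρ :=
          mul_le_mul_of_nonneg_left hfle (mul_nonneg h.q0.le (by positivity))
      _ = q * ρ ^ d := by rw [mul_assoc, h.rd]
      _ < 1 * ρ ^ d := mul_lt_mul_of_pos_right h.q1 (by positivity)
      _ = ρ ^ d := one_mul _
  exact absurd h2 (not_le.2 h3)

/-- Distances of distinct points. -/
lemma Bad.dist (hv : IsNonarchimedean v) (h : Bad v d A B C D ρ q) {ω : F}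
    (hω : IsPrimitiveRoot ω d) (hvd : v (d : F) = 1) {x y : F} (hx : AdmA d A B C D x)
    (hy : AdmA d A B C D y) (hne : x ≠ y) : ∃ k : ℕ, v (x - y) = q ^ k * ρ := by
  have hr := h.r0
  have hq := h.q0
  set E : ℕ → ℝ := fun n => v ((bf d A B C D)^[n] x - (bf d A B C D)^[n] y) with hE
  have hEle : ∀ n, E n ≤ ρ := fun n => h.sub_le hv (hx.iterate n) (hy.iterate n)
  have hstep : ∀ n, E n < ρ → E n = q * E (n + 1) := by
    intro n hn
    have := h.near hv hω hvd (hx.iterate n) (hy.iterate n) (one_pow d)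
      (by rw [one_mul]; exact hn)
    rw [one_mul] at this
    simp only [hE, Function.iterate_succ_apply']
    exact this
  have hE0 : 0 < E 0 := v.pos (sub_ne_zero.2 hne)
  have hex : ∃ n, ¬ E n < ρ := by
    by_contra hcon
    push Not at hcon
    have h1 : ∀ n, E 0 = q ^ n * E n := by
      intro n
      induction n with
      | zero => simp
      | succ n ih => rw [ih, hstep n (hcon n), pow_succ]; ring
    obtain ⟨n, hn⟩ := exists_pow_lt_of_lt_one (div_pos hE0 hr) h.q1
    rw [lt_div_iff₀ hr] at hn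
    have h2 : E 0 ≤ q ^ n * ρ := by
      rw [h1 n]
      exact mul_le_mul_of_nonneg_left (hEle n) (by positivity)
    exact absurd h2 (not_le.2 hn)
  classical
  set m := Nat.find hex with hm
  have hm1 : ¬ E m < ρ := Nat.find_spec hex
  have hm2 : ∀ i < m, E i < ρ := fun i hi => not_not.1 (Nat.find_min hex hi)
  have hpow : ∀ i ≤ m, E 0 = q ^ i * E i := by
    intro i
    induction i with
    | zero => simp
    | succ i ih =>
      intro hi
      rw [ih (by omega), hstep i (hm2 i (by omega)), pow_succ]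
      ring
  refine ⟨m, ?_⟩
  have h1 := hpow m le_rfl
  rw [le_antisymm (hEle m) (not_lt.1 hm1)] at h1
  exact h1

/-- Distances of points with distinct images. -/
lemma Bad.struct (hv : IsNonarchimedean v) (h : Bad v d A B C D ρ q) {ω : F}
    (hω : IsPrimitiveRoot ω d) (hvd : v (d : F) = 1) {x y ζ : F} (hx : AdmA d A B C D x)
    (hy : AdmA d A B C D y) (hne : bf d A B C D x ≠ bf d A B C D y) (hζ : ζ ^ d = 1) :
    ∃ k : ℕ, v (x - ζ * y) = q ^ k * ρ := by
  have hd := h.hd
  have hle : v (x - ζ * y) ≤ ρ := by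
    refine (T.av_sub_le v hv _ _).trans (le_of_eq ?_)
    rw [map_mul, T.v_root v (by omega) hζ, one_mul, h.val hv hx, h.val hv hy, max_self]
  rcases eq_or_lt_of_le hle with heq | hlt
  · exact ⟨0, by rw [heq]; simp⟩
  · obtain ⟨k, hk⟩ := h.dist hv hω hvd hx.step hy.step hne
    refine ⟨k + 1, ?_⟩
    rw [h.near hv hω hvd hx hy hζ hlt, hk, pow_succ]
    ring

end dyn

/-! ### The statements -/

/-- The two cases at a bad place. -/
lemma bad_cases {F : Type} [Field F] (v : AbsoluteValue F ℝ) (hv : IsNonarchimedean v) {d : ℕ}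
    (hd : 3 ≤ d) {A B C D : F} (hκ : A * D - B * C ≠ 0) (hbad : 0 < Rv v d A B C D)
    (h1 : NR v d A B C D) (h2 : NR v d D C B A) :
    (∃ ρ : ℝ, Bad v d A B C D ρ (Real.exp (-Rv v d A B C D)) ∧
      v (A * D - B * C) ^ d < v A ^ (d + 1) * v B ^ (d - 1) ∧
      v D ^ (d + 1) * v C ^ (d - 1) ≤ v A ^ (d + 1) * v B ^ (d - 1)) ∨
    (∃ ρ : ℝ, Bad v d D C B A ρ (Real.exp (-Rv v d A B C D)) ∧
      v (A * D - B * C) ^ d < v D ^ (d + 1) * v C ^ (d - 1) ∧
      v A ^ (d + 1) * v B ^ (d - 1) ≤ v D ^ (d + 1) * v C ^ (d - 1)) := by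
  rcases exists_case v hv (by omega) hκ hbad with ⟨h3, h4⟩ | ⟨h3, h4⟩
  · left
    obtain ⟨ρ, hρ⟩ := exists_bad v hv (by omega) hκ h3 h4 h1
    exact ⟨ρ, hρ, h3, h4⟩
  · right
    have hκ' : D * A - C * B ≠ 0 := by rwa [det_swap]
    obtain ⟨ρ, hρ⟩ := exists_bad v hv (by omega) hκ' (by rwa [det_swap]) h4 h2
    rw [Rv_swap] at hρ
    exact ⟨ρ, hρ, h3, h4⟩

/-- Admissible points in affine coordinates. -/
theorem admA_of_adm {F : Type} [Field F] (v : AbsoluteValue F ℝ) (hv : IsNonarchimedean v) {d : ℕ}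
    (hd : 3 ≤ d) {A B C D : F} (hκ : A * D - B * C ≠ 0) (hbad : 0 < Rv v d A B C D)
    (h1 : NR v d A B C D) (h2 : NR v d D C B A) {x : F} (hx : Adm d A B C D (x, 1)) :
    AdmA d A B C D x := by
  refine hx.admA fun n => ?_
  rcases bad_cases v hv hd hκ hbad h1 h2 with ⟨ρ, h, -, -⟩ | ⟨ρ, h, -, -⟩
  · exact h.ne_zero hv hx n
  · have := h.ne_zero hv hx.swap n
    rw [hm_iterate_swap] at this
    exact ⟨this.2, this.1⟩

/-- The structure of the set of admissible points at a tame bad place. -/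
theorem ring_struct {F : Type} [Field F] (v : AbsoluteValue F ℝ) (hv : IsNonarchimedean v) {d : ℕ}
    (hd : 3 ≤ d) (hvd : v (d : F) = 1) {ω : F} (hω : IsPrimitiveRoot ω d)
    {A B C D : F} (hκ : A * D - B * C ≠ 0) (hbad : 0 < Rv v d A B C D)
    (h1 : NR v d A B C D) (h2 : NR v d D C B A) {x y : F} (hx : AdmA d A B C D x)
    (hy : AdmA d A B C D y) :
    (∃ ζ : F, ζ ^ d = 1 ∧ v (y - ζ * x) ≤ Real.exp (-Rv v d A B C D) * v x) ∧
    (bf d A B C D x ≠ bf d A B C D y → ∀ ζ : F, ζ ^ d = 1 →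
      ∃ k : ℕ, v (x - ζ * y) = Real.exp (-Rv v d A B C D) ^ k * v x) := by
  rcases bad_cases v hv hd hκ hbad h1 h2 with ⟨ρ, h, -, -⟩ | ⟨ρ, h, -, -⟩
  · refine ⟨?_, fun hne ζ hζ => ?_⟩
    · rw [h.val hv hx]
      exact h.close hv hω hvd hy hx
    · rw [h.val hv hx]
      exact h.struct hv hω hvd hx hy hne hζ
  · have hx0 : x ≠ 0 := (hx.2.2 0).1
    have hy0 : y ≠ 0 := (hy.2.2 0).1
    have hvx0 : 0 < v x := v.pos hx0
    have hvy0 : 0 < v y := v.pos hy0
    have hxi := h.val hv hx.inv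
    have hyi := h.val hv hy.inv
    have hxy : v x = v y := by
      rw [← hyi, map_inv₀, map_inv₀] at hxi
      exact inv_injective hxi
    have hρ : ρ * v x = 1 := by
      rw [← hxi, map_inv₀, inv_mul_cancel₀ hvx0.ne']
    -- roots of unity are invertible
    have hinv : ∀ ζ : F, ζ ^ d = 1 → ζ ≠ 0 ∧ ζ⁻¹ ^ d = 1 := by
      intro ζ hζ
      refine ⟨?_, by rw [inv_pow, hζ, inv_one]⟩
      rintro rfl
      rw [zero_pow (by omega)] at hζ
      exact zero_ne_one hζ
    have key : ∀ (a b ζ : F), a ≠ 0 → b ≠ 0 → v a = v x → v b = v x → ζ ^ d = 1 →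
        v (a⁻¹ - ζ⁻¹ * b⁻¹) * (v x * v x) = v (a - ζ * b) := by
      intro a b ζ ha hb hva hvb hζ
      obtain ⟨hζ0, -⟩ := hinv ζ hζ
      have h3 : a⁻¹ - ζ⁻¹ * b⁻¹ = -(ζ⁻¹ * (a - ζ * b) / (a * b)) := by
        field_simp
        ring
      rw [h3, v.map_neg, map_div₀, map_mul, map_mul, hva, hvb, map_inv₀,
        T.v_root v (by omega) hζ, inv_one, one_mul, div_mul_cancel₀]
      positivity
    refine ⟨?_, fun hne ζ hζ => ?_⟩
    · obtain ⟨ζ, hζ, h3⟩ := h.close hv hω hvd hy.inv hx.inv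
      obtain ⟨hζ0, hζi⟩ := hinv ζ hζ
      refine ⟨ζ⁻¹, hζi, ?_⟩
      have h4 := key y x ζ⁻¹ hy0 hx0 hxy.symm rfl hζi
      rw [inv_inv] at h4
      rw [← h4]
      calc v (y⁻¹ - ζ * x⁻¹) * (v x * v x)
          ≤ Real.exp (-Rv v d A B C D) * ρ * (v x * v x) := by gcongr
        _ = Real.exp (-Rv v d A B C D) * (ρ * v x) * v x := by ring
        _ = Real.exp (-Rv v d A B C D) * v x := by rw [hρ, mul_one]
    · obtain ⟨hζ0, hζi⟩ := hinv ζ hζ
      have hne' : bf d D C B A x⁻¹ ≠ bf d D C B A y⁻¹ := by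
        rw [bf_inv hx0, bf_inv hy0]
        exact fun hc => hne (inv_injective hc)
      obtain ⟨k, hk⟩ := h.struct hv hω hvd hx.inv hy.inv hne' hζi
      refine ⟨k, ?_⟩
      rw [← key x y ζ hx0 hy0 rfl hxy.symm hζ, hk]
      calc Real.exp (-Rv v d A B C D) ^ k * ρ * (v x * v x)
          = Real.exp (-Rv v d A B C D) ^ k * (ρ * v x) * v x := by ring
        _ = Real.exp (-Rv v d A B C D) ^ k * v x := by rw [hρ, mul_one]

/-- The level of the ring. -/
theorem ring_level {F : Type} [Field F] (v : AbsoluteValue F ℝ) (hv : IsNonarchimedean v) {d : ℕ}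
    (hd : 3 ≤ d) {A B C D : F} (hκ : A * D - B * C ≠ 0) (hbad : 0 < Rv v d A B C D)
    (h1 : NR v d A B C D) (h2 : NR v d D C B A) {x : F} (hx : AdmA d A B C D x) :
    (v (A * D - B * C) ^ d < v A ^ (d + 1) * v B ^ (d - 1) ∧
      v D ^ (d + 1) * v C ^ (d - 1) ≤ v A ^ (d + 1) * v B ^ (d - 1) ∧
      v A * v x ^ d = v B ∧
      Real.exp (-Rv v d A B C D) * (v A ^ 2 * v x ^ (d - 1)) = v (A * D - B * C)) ∨
    (v (A * D - B * C) ^ d < v D ^ (d + 1) * v C ^ (d - 1) ∧
      v A ^ (d + 1) * v B ^ (d - 1) ≤ v D ^ (d + 1) * v C ^ (d - 1) ∧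
      v D * v x⁻¹ ^ d = v C ∧
      Real.exp (-Rv v d A B C D) * (v D ^ 2 * v x⁻¹ ^ (d - 1)) = v (A * D - B * C)) := by
  rcases bad_cases v hv hd hκ hbad h1 h2 with ⟨ρ, h, h3, h4⟩ | ⟨ρ, h, h3, h4⟩
  · left
    refine ⟨h3, h4, ?_, ?_⟩
    · rw [h.val hv hx]
      exact h.hb
    · rw [h.val hv hx]
      exact h.hk.symm
  · right
    refine ⟨h3, h4, ?_, ?_⟩
    · rw [h.val hv hx.inv]
      exact h.hb
    · rw [h.val hv hx.inv, ← h.hk, det_swap]

end Pool.Agent.MP90787a.B
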