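import Pool.Agent.Lib.MP_90787a_nt.B.Final
import Pool.Agent.Lib.MP_90787a_nt.T.Dyn

set_option autoImplicit false
set_option linter.unusedVariables false

/-!
The family `c + b / (x ^ d + e)`.
-/

namespace Pool.Agent.MP90787a.B

open NumberField Height

section

variable {F : Type} [Field F] {v : AbsoluteValue F ℝ} (hv : IsNonarchimedean v) {d : ℕ}
  {c e b : F}

include hv in
theorem v_add_eq {x y : F} (h : v y < v x) : v (x + y) = v x := by
  have h1 := T.v_sub_of_lt v hv (x := x) (y := -y) (by rwa [v.map_neg])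
  rwa [sub_neg_eq_add] at h1

/-- The power condition for `n = 2` and odd `d`. -/
theorem ratio_two (hodd : Odd d) {A κ y₀ : F} (hκ : κ ≠ 0) (hy₀ : v κ = v y₀ ^ 2) (x : F) :
    ∃ y : F, v A ^ 2 * v x ^ (d - 1) = v κ * v y ^ 2 := by
  obtain ⟨m, hm⟩ := hodd
  have hm2 : d - 1 = 2 * m := by omega
  have h0 : v y₀ ≠ 0 := by
    intro h
    rw [h, zero_pow two_ne_zero] at hy₀
    exact hκ (v.eq_zero.1 hy₀)
  refine ⟨A * x ^ m / y₀, ?_⟩
  rw [hy₀, map_div₀, map_mul, map_pow, hm2]
  field_simp
  ring

include hv in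
/-- Tameness for `c + b / (x ^ d + e)`. -/
theorem tame_ceb (hodd : Odd d) (hd : 3 ≤ d) (hb0 : b ≠ 0) {y₀ : F} (hy₀ : v b = v y₀ ^ 2)
    (h : v c ^ (d + 1) ≤ v b ∨ v c ^ d ≤ v (c ^ d + e)) :
    Tame v d 2 c (c * e + b) 1 e ∧ Tame v d 2 e 1 (c * e + b) c := by
  have k1' : c * e - (c * e + b) * 1 = -b := by ring
  have k2' : e * c - 1 * (c * e + b) = -b := by ring
  have k1 : v (c * e - (c * e + b) * 1) = v b := by rw [k1', v.map_neg]
  have k2 : v (e * c - 1 * (c * e + b)) = v b := by rw [k2', v.map_neg]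
  have hβ : 0 < v b := v.pos hb0
  have c0 := v.nonneg c
  have e0 := v.nonneg e
  have v1 : v (1 : F) = 1 := v.map_one
  have r1 : ∀ A x : F, ∃ y : F, v A ^ 2 * v x ^ (d - 1) =
      v (c * e - (c * e + b) * 1) * v y ^ 2 := fun A x => by
    rw [k1]
    exact ratio_two hodd hb0 hy₀ x
  have r2 : ∀ A x : F, ∃ y : F, v A ^ 2 * v x ^ (d - 1) =
      v (e * c - 1 * (c * e + b)) * v y ^ 2 := fun A x => by
    rw [k2]
    exact ratio_two hodd hb0 hy₀ x
  obtain ⟨n, rfl⟩ : ∃ n, d = n + 1 := ⟨d - 1, by omega⟩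
  simp only [Nat.add_sub_cancel] at *
  have hn : 2 ≤ n := by omega
  -- the third alternative for `(e, 1, c e + b, c)`
  have third : v (c * e + b) ^ (n + 1) < v e ^ (n + 1 + 1) →
      v e ^ (n + 1 + 1) ≤ v (e ^ (n + 1 + 1) + 1 * (c * e + b) ^ (n + 1)) := by
    intro hlt
    rw [v_add_eq hv (by rw [one_mul, map_pow, map_pow]; exact hlt), map_pow]
  -- the value of `c e + b`
  have hce : v b < v c * v e → v (c * e + b) = v c * v e := by
    intro hlt
    rw [v_add_eq hv (by rw [map_mul]; exact hlt), map_mul]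
  have hce' : v c * v e ≤ v b → v (c * e + b) ≤ v b := by
    intro hle
    refine (hv _ _).trans (max_le ?_ le_rfl)
    rwa [map_mul]
  rcases le_or_gt (v c ^ (n + 1 + 1)) (v b) with hC | hC
  · -- case I
    rcases le_or_gt (v c * v e) (v b) with hle | hlt
    · have hB := hce' hle
      refine ⟨Or.inl ?_, ?_⟩
      · rw [k1, pow_succ (v b) n, mul_comm (v b ^ n)]
        exact mul_le_mul hC (pow_le_pow_left₀ (v.nonneg _) hB _) (pow_nonneg (v.nonneg _) _) hβ.le
      · rcases le_or_gt (v e ^ (n + 1 + 1)) (v b ^ (n + 1)) with h1 | h1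
        · left
          rw [k2, v1, one_pow, mul_one]
          exact h1
        · right; right
          exact ⟨third ((pow_le_pow_left₀ (v.nonneg _) hB _).trans_lt h1), fun x _ => r2 e x⟩
    · have hB := hce hlt
      have hc0 : 0 < v c := by
        rcases eq_or_lt_of_le c0 with h0 | h0
        · rw [← h0, zero_mul] at hlt
          exact absurd hlt (not_lt.2 hβ.le)
        · exact h0
      have hCE : v c ^ (n + 1) < v e := by
        have h1 : v c * v c ^ (n + 1) < v c * v e := by
          calc v c * v c ^ (n + 1) = v c ^ (n + 1 + 1) := by ring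
            _ ≤ v b := hC
            _ < _ := hlt
        exact lt_of_mul_lt_mul_left h1 c0
      have he0 : 0 < v e := (pow_pos hc0 _).trans hCE
      refine ⟨Or.inr (Or.inl ?_), Or.inr (Or.inr ⟨third ?_, fun x _ => r2 e x⟩)⟩
      · rw [hB, v1, one_pow, mul_one]
        calc v c ^ (n + 1 + 1) * (v c * v e) ^ n = v e ^ n * (v c ^ (n + 1) * v c ^ (n + 1)) := by
              ring
          _ < v e ^ n * (v e * v e) := by
              refine mul_lt_mul_of_pos_left ?_ (pow_pos he0 _)
              exact mul_lt_mul hCE hCE.le (pow_pos hc0 _) e0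
          _ = _ := by ring
      · rw [hB]
        calc (v c * v e) ^ (n + 1) = v e ^ (n + 1) * v c ^ (n + 1) := by ring
          _ < v e ^ (n + 1) * v e := mul_lt_mul_of_pos_left hCE (pow_pos he0 _)
          _ = _ := by ring
  · -- case II
    have hD : v c ^ (n + 1) ≤ v (c ^ (n + 1) + e) := by
      rcases h with h | h
      · exact absurd h (not_le.2 hC)
      · exact h
    have hc0 : 0 < v c := by
      rcases eq_or_lt_of_le c0 with h0 | h0
      · rw [← h0, zero_pow (by omega)] at hC
        exact absurd hC (not_lt.2 hβ.le)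
      · exact h0
    refine ⟨Or.inr (Or.inr ⟨?_, fun x _ => r1 c x⟩), ?_⟩
    · have e1 : c ^ (n + 1 + 1) + (c * e + b) * 1 ^ (n + 1) = c * (c ^ (n + 1) + e) + b := by ring
      have h2 : v c ^ (n + 1 + 1) ≤ v (c * (c ^ (n + 1) + e)) := by
        rw [map_mul]
        calc v c ^ (n + 1 + 1) = v c * v c ^ (n + 1) := by ring
          _ ≤ _ := mul_le_mul_of_nonneg_left hD c0
      rw [e1, v_add_eq hv (hC.trans_le h2)]
      exact h2
    · rcases lt_or_ge (v e) (v c ^ (n + 1)) with hE | hE
      · rcases le_or_gt (v c * v e) (v b) with hle | hlt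
        · left
          rw [k2, v1, one_pow, mul_one]
          have h3 : v c ^ (n + 1 + 1) * v e ^ (n + 1 + 1) ≤ v c ^ (n + 1 + 1) * v b ^ (n + 1) := by
            calc v c ^ (n + 1 + 1) * v e ^ (n + 1 + 1) = (v c * v e) ^ (n + 1 + 1) := by ring
              _ ≤ v b ^ (n + 1 + 1) := pow_le_pow_left₀ (mul_nonneg c0 e0) hle _
              _ = v b * v b ^ (n + 1) := by ring
              _ ≤ _ := mul_le_mul_of_nonneg_right hC.le (pow_nonneg hβ.le _)
          exact le_of_mul_le_mul_left h3 (pow_pos hc0 _)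
        · right; left
          have he0 : 0 < v e := by
            rcases eq_or_lt_of_le e0 with h0 | h0
            · rw [← h0, mul_zero] at hlt
              exact absurd hlt (not_lt.2 hβ.le)
            · exact h0
          rw [hce hlt, v1, one_pow, mul_one, Nat.add_sub_cancel]
          calc v e ^ (n + 1 + 1) = v e ^ n * (v e * v e) := by ring
            _ < v e ^ n * (v c ^ (n + 1) * v c ^ (n + 1)) := by
                refine mul_lt_mul_of_pos_left ?_ (pow_pos he0 _)
                exact mul_lt_mul hE hE.le he0 (pow_nonneg c0 _)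
            _ = _ := by ring
      · -- `|e| ≥ |c| ^ d`
        right; right
        refine ⟨?_, fun x _ => r2 e x⟩
        have he0 : 0 < v e := (pow_pos hc0 _).trans_le hE
        have hsum : v (c ^ (n + 1) + e) = v e := by
          rcases eq_or_lt_of_le hE with h1 | h1
          · refine le_antisymm ((hv _ _).trans (max_le ?_ le_rfl)) (h1 ▸ hD)
            rw [map_pow]
            exact hE
          · rw [add_comm, v_add_eq hv (by rw [map_pow]; exact h1)]
        have hlt : v b < v c * v e := by
          calc v b < v c ^ (n + 1 + 1) := hC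
            _ = v c * v c ^ (n + 1) := by ring
            _ ≤ _ := mul_le_mul_of_nonneg_left hE c0
        have hB := hce hlt
        have hdiff : v ((c * e + b) ^ (n + 1) - (c * e) ^ (n + 1)) < v e ^ (n + 1 + 1) := by
          have h2 := v_pow_sub_le hv (x := c * e + b) (y := c * e) (r := v c * v e)
            (mul_nonneg c0 e0) hB.le (by rw [map_mul]) (d := n + 1) (by omega)
          have e2 : c * e + b - c * e = b := by ring
          rw [e2, Nat.add_sub_cancel] at h2
          refine h2.trans_lt ?_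
          calc v b * (v c * v e) ^ n < v c ^ (n + 1 + 1) * (v c * v e) ^ n :=
                mul_lt_mul_of_pos_right hC (pow_pos (mul_pos hc0 he0) _)
            _ = v e ^ n * (v c ^ (n + 1) * v c ^ (n + 1)) := by ring
            _ ≤ v e ^ n * (v e * v e) := by
                refine mul_le_mul_of_nonneg_left ?_ (pow_nonneg e0 _)
                exact mul_le_mul hE hE (pow_nonneg c0 _) e0
            _ = _ := by ring
        have hmain : v (e ^ (n + 1) * (c ^ (n + 1) + e)) = v e ^ (n + 1 + 1) := by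
          rw [map_mul, map_pow, hsum]
          ring
        have e3 : e ^ (n + 1 + 1) + 1 * (c * e + b) ^ (n + 1) =
            e ^ (n + 1) * (c ^ (n + 1) + e) + ((c * e + b) ^ (n + 1) - (c * e) ^ (n + 1)) := by
          ring
        rw [e3, v_add_eq hv (by rw [hmain]; exact hdiff), hmain]

end

/-- The family `c + b / (x ^ d + e)`. -/
theorem two_param (K : Type) [Field K] [NumberField K] (d : ℕ) (hd : 5 ≤ d) (hodd : Odd d)
    (S : Finset (FinitePlace K)) :
    ∃ N : ℕ, ∀ b c e : K, b ≠ 0 →
      (∀ v : FinitePlace K, v ∉ S → (∃ y : K, v b = v y ^ 2) ∧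
        (v c ^ (d + 1) ≤ v b ∨ v c ^ d ≤ v (c ^ d + e))) →
      ∀ Z : Finset K, (∀ x ∈ Z, Adm d c (c * e + b) 1 e (x, 1)) → Z.card ≤ N := by
  obtain ⟨N, hN⟩ := main K d 2 (by omega) le_rfl (Or.inl hd) S
  refine ⟨N, fun b c e hb h Z hZ => hN _ _ _ _ ?_ (fun v hv => ?_) Z hZ⟩
  · have : c * e - (c * e + b) * 1 = -b := by ring
    rw [this]
    exact neg_ne_zero.2 hb
  · obtain ⟨⟨y₀, h1⟩, h2⟩ := h v hv
    exact tame_ceb (nonarch v) hodd (by omega) hb h1 h2

end Pool.Agent.MP90787a.B
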