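import Pool.Agent.Lib.MP_90787a_nt.B.Defs
import Pool.Agent.Lib.MP_90787a_nt.RF.Weights

set_option autoImplicit false

/-!
Comparison of the weights `finWeight`, `archWeight` with the logarithmic size `Rv` for the maps
`x ↦ (A x ^ d + B) / (C x ^ d + D)`.
-/

namespace Pool.Agent.MP90787a.B

open NumberField Height Polynomial

section res

lemma wgt_homog_bin {L : Type} [Field L] {d : ℕ} (hd : 1 ≤ d) (A B : L) (x : L × L) :
    UBC90787a.homog (C A * X ^ d + C B) d x = A * x.1 ^ d + B * x.2 ^ d := by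
  unfold UBC90787a.homog
  have h1 : ∀ i ∈ Finset.range (d + 1), (C A * X ^ d + C B : L[X]).coeff i * x.1 ^ i *
      x.2 ^ (d - i) = (if i = d then A * x.1 ^ d else 0) + (if i = 0 then B * x.2 ^ d else 0) := by
    intro i _
    rw [coeff_add, coeff_C_mul, coeff_X_pow, coeff_C, add_mul, add_mul]
    congr 1
    · by_cases h : i = d
      · subst h
        simp
      · simp [h]
    · by_cases h : i = 0
      · subst h
        simp
      · simp [h]
  rw [Finset.sum_congr rfl h1, Finset.sum_add_distrib, Finset.sum_ite_eq', Finset.sum_ite_eq']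
  simp

lemma wgt_res_of_ne {L : Type} [Field L] [IsAlgClosed L] {d : ℕ} (hd : 1 ≤ d) {A B C₁ D : L}
    (hA : A ≠ 0) : resultant (C A * X ^ d + C B) (C C₁ * X ^ d + C D) d d =
      (A * D - B * C₁) ^ d := by
  set g : L[X] := C A * X ^ d + C B with hg
  set h : L[X] := C C₁ * X ^ d + C D with hh
  have hgd : g.natDegree = d := by
    rw [hg, natDegree_add_C, natDegree_C_mul_X_pow _ _ hA]
  have hhd : h.natDegree ≤ d := by
    rw [hh, natDegree_add_C]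
    exact natDegree_C_mul_X_pow_le _ _
  have hlc : g.leadingCoeff = A := by
    rw [leadingCoeff, hgd, hg, coeff_add, coeff_C_mul, coeff_X_pow_self, coeff_C_of_ne_zero (by omega)]
    ring
  have hg0 : g ≠ 0 := by
    rw [Ne, ← leadingCoeff_eq_zero, hlc]
    exact hA
  have hsp : g.Splits := IsAlgClosed.splits g
  have hcard : Multiset.card g.roots = d := by
    rw [splits_iff_card_roots.mp hsp, hgd]
  have h1 := resultant_eq_prod_eval g h d hhd hsp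
  rw [hgd] at h1
  rw [h1, hlc]
  have h2 : Multiset.map (fun x => eval x h) g.roots =
      Multiset.map (fun _ => (A * D - B * C₁) / A) g.roots := by
    refine Multiset.map_congr rfl (fun r hr => ?_)
    have h3 : eval r g = 0 := (mem_roots hg0).mp hr
    rw [hg] at h3
    simp only [eval_add, eval_mul, eval_C, eval_pow, eval_X] at h3
    rw [hh]
    simp only [eval_add, eval_mul, eval_C, eval_pow, eval_X]
    rw [eq_div_iff hA]
    linear_combination C₁ * h3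
  rw [h2, Multiset.map_const', Multiset.prod_replicate, hcard, div_pow]
  field_simp

lemma wgt_map {K L : Type} [Field K] [Field L] (ι : K →+* L) (A B : K) (d : ℕ) :
    (C A * X ^ d + C B : K[X]).map ι = C (ι A) * X ^ d + C (ι B) := by
  simp

/-- The norm of the resultant over an arbitrary normed extension. -/
lemma wgt_res_map {K L : Type} [Field K] [NormedField L] (ι : K →+* L) {d : ℕ} (hd : 1 ≤ d)
    {A B C₁ D : K} (hκ : A * D - B * C₁ ≠ 0) :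
    ‖ι (resultant (C A * X ^ d + C B) (C C₁ * X ^ d + C D) d d)‖ =
      ‖ι (A * D - B * C₁)‖ ^ d := by
  -- over the algebraic closure of `K`
  have key : resultant (C A * X ^ d + C B) (C C₁ * X ^ d + C D) d d = (A * D - B * C₁) ^ d ∨
      resultant (C A * X ^ d + C B) (C C₁ * X ^ d + C D) d d =
        (-1) ^ (d * d) * (C₁ * B - D * A) ^ d := by
    have hinj : Function.Injective (algebraMap K (AlgebraicClosure K)) :=
      (algebraMap K (AlgebraicClosure K)).injective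
    by_cases hA : A = 0
    · right
      have hC : C₁ ≠ 0 := by
        rintro rfl
        apply hκ
        rw [hA]
        ring
      have hC' : algebraMap K (AlgebraicClosure K) C₁ ≠ 0 := by
        rwa [Ne, map_eq_zero_iff _ hinj]
      apply hinj
      rw [← resultant_map_map, wgt_map, wgt_map, resultant_comm, wgt_res_of_ne hd hC']
      simp
    · left
      have hA' : algebraMap K (AlgebraicClosure K) A ≠ 0 := by
        rwa [Ne, map_eq_zero_iff _ hinj]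
      apply hinj
      rw [← resultant_map_map, wgt_map, wgt_map, wgt_res_of_ne hd hA']
      simp
  rcases key with h | h
  · rw [h, map_pow, norm_pow]
  · rw [h]
    simp only [map_mul, map_pow, norm_mul, norm_pow, map_neg, map_one, norm_neg, norm_one,
      one_pow, one_mul]
    rw [← norm_neg, ← map_neg]
    congr 3
    ring

end res

section core

lemma wgt_coeff_one {L : Type} [Field L] (p q : L) (d : ℕ) :
    ((C p + C q * X) ^ d : L[X]).coeff 1 = d * p ^ (d - 1) * q := by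
  have h1 := coeff_derivative ((C p + C q * X) ^ d : L[X]) 0
  rw [derivative_pow, coeff_zero_eq_eval_zero] at h1
  simp at h1
  rw [← h1]

/-- The constant of the extraction of the linear coefficient. -/
noncomputable def wgtW {K : Type} [Field K] (v : AbsoluteValue K ℝ) (d : ℕ) : ℝ :=
  ∑ i ∈ Finset.range (d + 1),
    v ((Lagrange.basis (Finset.range (d + 1)) (fun i : ℕ => (i : K)) i).coeff 1)

lemma wgt_basis_map {K L : Type} [Field K] [Field L] (ι : K →+* L) (s : Finset ℕ) (i : ℕ) :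
    Lagrange.basis s (fun i : ℕ => (i : L)) i =
      (Lagrange.basis s (fun i : ℕ => (i : K)) i).map ι := by
  unfold Lagrange.basis Lagrange.basisDivisor
  rw [Polynomial.map_prod]
  refine Finset.prod_congr rfl (fun j _ => ?_)
  simp

lemma wgt_extract {K L : Type} [Field K] [CharZero K] [NormedField L] (v : AbsoluteValue K ℝ)
    (ι : K →+* L) (hv : ∀ x, ‖ι x‖ = v x) (d : ℕ) (g : L[X]) (hg : g.natDegree ≤ d) (M : ℝ)
    (hM : ∀ i ≤ d, ‖g.eval (i : L)‖ ≤ M) : ‖g.coeff 1‖ ≤ wgtW v d * M := by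
  have hch : CharZero L := charZero_of_injective_ringHom ι.injective
  have h1 : g = Lagrange.interpolate (Finset.range (d + 1)) (fun i : ℕ => (i : L))
      (fun i => eval ((i : ℕ) : L) g) := by
    apply Lagrange.eq_interpolate
    · intro x _ y _ hxy
      exact Nat.cast_injective hxy
    · rw [Finset.card_range]
      exact (degree_le_of_natDegree_le hg).trans_lt (by exact_mod_cast Nat.lt_succ_self d)
  have h2 : g.coeff 1 = ∑ i ∈ Finset.range (d + 1), eval ((i : ℕ) : L) g *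
      ι ((Lagrange.basis (Finset.range (d + 1)) (fun i : ℕ => (i : K)) i).coeff 1) := by
    conv_lhs => rw [h1]
    rw [Lagrange.interpolate_apply, finsetSum_coeff]
    refine Finset.sum_congr rfl (fun i _ => ?_)
    rw [coeff_C_mul, wgt_basis_map ι, coeff_map]
  rw [h2]
  refine (norm_sum_le _ _).trans ?_
  unfold wgtW
  rw [Finset.sum_mul]
  refine Finset.sum_le_sum (fun i hi => ?_)
  rw [norm_mul, hv, mul_comm]
  have hi' : i ≤ d := by
    have := Finset.mem_range.mp hi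
    omega
  exact mul_le_mul_of_nonneg_left (hM i hi') (v.nonneg _)

lemma wgtW_nonneg {K : Type} [Field K] (v : AbsoluteValue K ℝ) (d : ℕ) : 0 ≤ wgtW v d :=
  Finset.sum_nonneg (fun _ _ => v.nonneg _)

/-- A good direction. -/
lemma wgt_dir {L : Type} [NormedField L] {δ : ℝ} (h1 : δ ≤ 1) (h2 : δ ≤ ‖(2 : L)‖)
    (a b c e : L) : ∃ t : L, ‖t‖ ≤ 1 ∧ δ / 2 * max ‖a‖ ‖b‖ ≤ ‖a + t * b‖ ∧
      δ / 2 * max ‖c‖ ‖e‖ ≤ ‖c + t * e‖ := by
  -- two bad values for one form are impossible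
  have key : ∀ a b : L, ∀ t t' : L, ‖t‖ ≤ 1 → ‖t'‖ ≤ 1 → δ ≤ ‖t - t'‖ →
      ‖a + t * b‖ < δ / 2 * max ‖a‖ ‖b‖ → ‖a + t' * b‖ < δ / 2 * max ‖a‖ ‖b‖ → False := by
    intro a b t t' ht ht' htt h3 h4
    have h5 : ‖t - t'‖ * ‖b‖ < δ * max ‖a‖ ‖b‖ := by
      rw [← norm_mul]
      calc ‖(t - t') * b‖ = ‖(a + t * b) - (a + t' * b)‖ := by congr 1; ring
        _ ≤ ‖a + t * b‖ + ‖a + t' * b‖ := norm_sub_le _ _
        _ < δ / 2 * max ‖a‖ ‖b‖ + δ / 2 * max ‖a‖ ‖b‖ := add_lt_add h3 h4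
        _ = _ := by ring
    have h6 : ‖t - t'‖ * ‖a‖ < δ * max ‖a‖ ‖b‖ := by
      rw [← norm_mul]
      calc ‖(t - t') * a‖ = ‖t * (a + t' * b) - t' * (a + t * b)‖ := by congr 1; ring
        _ ≤ ‖t * (a + t' * b)‖ + ‖t' * (a + t * b)‖ := norm_sub_le _ _
        _ ≤ 1 * ‖a + t' * b‖ + 1 * ‖a + t * b‖ := by
          rw [norm_mul, norm_mul]
          gcongr
        _ < 1 * (δ / 2 * max ‖a‖ ‖b‖) + 1 * (δ / 2 * max ‖a‖ ‖b‖) := by
          simp only [one_mul]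
          exact add_lt_add h4 h3
        _ = _ := by ring
    have h7 : ‖t - t'‖ * max ‖a‖ ‖b‖ < δ * max ‖a‖ ‖b‖ := by
      rcases le_total ‖a‖ ‖b‖ with h | h
      · rw [max_eq_right h] at h5 ⊢
        exact h5
      · rw [max_eq_left h] at h6 ⊢
        exact h6
    have h8 : 0 ≤ max ‖a‖ ‖b‖ := le_max_of_le_left (norm_nonneg _)
    have h9 : δ * max ‖a‖ ‖b‖ ≤ ‖t - t'‖ * max ‖a‖ ‖b‖ := by gcongr
    linarith
  have e01 : δ ≤ ‖(0 : L) - 1‖ := by simpa using h1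
  have e0m : δ ≤ ‖(0 : L) - (-1)‖ := by simpa using h1
  have e1m : δ ≤ ‖(1 : L) - (-1)‖ := by
    have : (1 : L) - (-1) = 2 := by norm_num
    rw [this]
    exact h2
  have n0 : ‖(0 : L)‖ ≤ 1 := by simp
  have n1 : ‖(1 : L)‖ ≤ 1 := by simp
  have nm : ‖(-1 : L)‖ ≤ 1 := by simp
  by_contra hcon
  push Not at hcon
  have c0 := hcon 0 n0
  have c1 := hcon 1 n1
  have cm := hcon (-1) nm
  by_cases a0 : δ / 2 * max ‖a‖ ‖b‖ ≤ ‖a + 0 * b‖
  · have b0 := c0 a0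
    by_cases a1 : δ / 2 * max ‖a‖ ‖b‖ ≤ ‖a + 1 * b‖
    · exact key c e 0 1 n0 n1 e01 b0 (c1 a1)
    · by_cases am : δ / 2 * max ‖a‖ ‖b‖ ≤ ‖a + (-1) * b‖
      · exact key c e 0 (-1) n0 nm e0m b0 (cm am)
      · exact key a b 1 (-1) n1 nm e1m (not_le.mp a1) (not_le.mp am)
  · by_cases a1 : δ / 2 * max ‖a‖ ‖b‖ ≤ ‖a + 1 * b‖
    · by_cases am : δ / 2 * max ‖a‖ ‖b‖ ≤ ‖a + (-1) * b‖
      · exact key c e 1 (-1) n1 nm e1m (c1 a1) (cm am)
      · exact key a b 0 (-1) n0 nm e0m (not_le.mp a0) (not_le.mp am)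
    · exact key a b 0 1 n0 n1 e01 (not_le.mp a0) (not_le.mp a1)

/-- The bound for the product of the norms of the rows. -/
lemma wgt_rows {K L : Type} [Field K] [CharZero K] [NormedField L] (v : AbsoluteValue K ℝ)
    (ι : K →+* L) (hv : ∀ x, ‖ι x‖ = v x) {d : ℕ} {δ : ℝ} (h0 : 0 < δ) (h1 : δ ≤ 1)
    (h2 : δ ≤ v 2) {A B C₁ D a b c e γ : L} (hdet : a * e - b * c = 1) {E : ℝ}
    (hγ : ‖γ‖ ^ 2 * ‖A * D - B * C₁‖ = 1)
    (hbd : ∀ x y : L, ‖γ * (e * (A * (a * x + b * y) ^ d + B * (c * x + e * y) ^ d) -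
        b * (C₁ * (a * x + b * y) ^ d + D * (c * x + e * y) ^ d))‖ ≤ E * max ‖x‖ ‖y‖ ^ d ∧
      ‖γ * (a * (C₁ * (a * x + b * y) ^ d + D * (c * x + e * y) ^ d) -
        c * (A * (a * x + b * y) ^ d + B * (c * x + e * y) ^ d))‖ ≤ E * max ‖x‖ ‖y‖ ^ d)
    (hE : 0 ≤ E) :
    v (d : K) * (δ / 2 * max ‖a‖ ‖b‖ * (δ / 2 * max ‖c‖ ‖e‖)) ^ (d - 1) ≤
      wgtW v d * (2 * ((d : ℝ) + 1) ^ d * E ^ 2) := by
  have h2' : δ ≤ ‖(2 : L)‖ := by
    have := hv 2
    rw [map_ofNat] at this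
    rw [this]
    exact h2
  obtain ⟨t, ht, hX, hY⟩ := wgt_dir h1 h2' a b c e
  set X₀ := a + t * b with hX₀
  set Y₀ := c + t * e with hY₀
  have hdet' : X₀ * e - Y₀ * b = 1 := by
    rw [hX₀, hY₀]
    linear_combination hdet
  set g : L[X] := (C (X₀ * Y₀) + C (X₀ * e) * X) ^ d - (C (X₀ * Y₀) + C (Y₀ * b) * X) ^ d with hg
  have hgd : g.natDegree ≤ d := by
    have key : ∀ p q : L, ((C p + C q * X : L[X]) ^ d).natDegree ≤ d := by
      intro p q
      refine natDegree_pow_le.trans ?_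
      have : (C p + C q * X : L[X]).natDegree ≤ 1 := by
        rw [add_comm]
        exact natDegree_linear_le
      calc d * (C p + C q * X : L[X]).natDegree ≤ d * 1 := Nat.mul_le_mul_left d this
        _ = d := mul_one d
    exact (natDegree_sub_le _ _).trans (max_le (key _ _) (key _ _))
  have hcoef : g.coeff 1 = d * (X₀ * Y₀) ^ (d - 1) := by
    rw [hg, coeff_sub, wgt_coeff_one, wgt_coeff_one]
    linear_combination (d * (X₀ * Y₀) ^ (d - 1)) * hdet'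
  have hE1 : ‖(1 : L)‖ ≤ 1 := by simp
  have hval : ∀ i ≤ d, ‖g.eval (i : L)‖ ≤ 2 * ((d : ℝ) + 1) ^ d * E ^ 2 := by
    intro i hi
    have hi1 : ‖t + (i : L)‖ ≤ (d : ℝ) + 1 := by
      have h3 : ‖(i : L)‖ ≤ i := by
        have := Nat.norm_cast_le (α := L) i
        rwa [norm_one, mul_one] at this
      have h4 : (i : ℝ) ≤ d := by exact_mod_cast hi
      have := norm_add_le t (i : L)
      linarith
    have hd1 : (1 : ℝ) ≤ (d : ℝ) + 1 := by
      have : (0 : ℝ) ≤ d := Nat.cast_nonneg d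
      linarith
    obtain ⟨b1, b2⟩ := hbd 1 t
    obtain ⟨b3, b4⟩ := hbd 1 (t + i)
    have m1 : max ‖(1 : L)‖ ‖t‖ ^ d ≤ 1 := pow_le_one₀ (le_max_of_le_left (norm_nonneg _))
      (max_le hE1 ht)
    have m2 : max ‖(1 : L)‖ ‖t + (i : L)‖ ^ d ≤ ((d : ℝ) + 1) ^ d := by
      refine pow_le_pow_left₀ (le_max_of_le_left (norm_nonneg _)) (max_le ?_ hi1) d
      rw [norm_one]
      exact hd1
    have b1' := b1.trans (mul_le_mul_of_nonneg_left m1 hE)
    have b2' := b2.trans (mul_le_mul_of_nonneg_left m1 hE)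
    have b3' := b3.trans (mul_le_mul_of_nonneg_left m2 hE)
    have b4' := b4.trans (mul_le_mul_of_nonneg_left m2 hE)
    set u1 := γ * (e * (A * (a * 1 + b * t) ^ d + B * (c * 1 + e * t) ^ d) -
        b * (C₁ * (a * 1 + b * t) ^ d + D * (c * 1 + e * t) ^ d)) with hu1
    set u2 := γ * (a * (C₁ * (a * 1 + b * t) ^ d + D * (c * 1 + e * t) ^ d) -
        c * (A * (a * 1 + b * t) ^ d + B * (c * 1 + e * t) ^ d)) with hu2
    set u3 := γ * (e * (A * (a * 1 + b * (t + i)) ^ d + B * (c * 1 + e * (t + i)) ^ d) -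
        b * (C₁ * (a * 1 + b * (t + i)) ^ d + D * (c * 1 + e * (t + i)) ^ d)) with hu3
    set u4 := γ * (a * (C₁ * (a * 1 + b * (t + i)) ^ d + D * (c * 1 + e * (t + i)) ^ d) -
        c * (A * (a * 1 + b * (t + i)) ^ d + B * (c * 1 + e * (t + i)) ^ d)) with hu4
    have hev : g.eval (i : L) = (X₀ * Y₀ + X₀ * e * i) ^ d - (X₀ * Y₀ + Y₀ * b * i) ^ d := by
      rw [hg]
      simp
    have p1 : (X₀ * Y₀ + X₀ * e * i) ^ d = (a * 1 + b * t) ^ d * (c * 1 + e * (t + i)) ^ d := by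
      rw [← mul_pow]
      congr 1
      rw [hX₀, hY₀]
      ring
    have p2 : (X₀ * Y₀ + Y₀ * b * i) ^ d = (c * 1 + e * t) ^ d * (a * 1 + b * (t + i)) ^ d := by
      rw [← mul_pow]
      congr 1
      rw [hX₀, hY₀]
      ring
    have hw : u1 * u4 - u2 * u3 = γ ^ 2 * (A * D - B * C₁) * g.eval (i : L) := by
      rw [hev, p1, p2, hu1, hu2, hu3, hu4]
      generalize (a * 1 + b * t) ^ d = x1
      generalize (c * 1 + e * t) ^ d = x2
      generalize (a * 1 + b * (t + i)) ^ d = y1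
      generalize (c * 1 + e * (t + i)) ^ d = y2
      linear_combination (γ ^ 2 * (A * D - B * C₁) * (x1 * y2 - x2 * y1)) * hdet
    have hn : ‖u1 * u4 - u2 * u3‖ = ‖g.eval (i : L)‖ := by
      rw [hw, norm_mul, norm_mul, norm_pow, hγ, one_mul]
    rw [← hn]
    calc ‖u1 * u4 - u2 * u3‖ ≤ ‖u1 * u4‖ + ‖u2 * u3‖ := norm_sub_le _ _
      _ = ‖u1‖ * ‖u4‖ + ‖u2‖ * ‖u3‖ := by rw [norm_mul u1 u4, norm_mul u2 u3]
      _ ≤ (E * 1) * (E * ((d : ℝ) + 1) ^ d) + (E * 1) * (E * ((d : ℝ) + 1) ^ d) := by gcongr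
      _ = _ := by ring
  have h3 := wgt_extract v ι hv d g hgd _ hval
  rw [hcoef, norm_mul, norm_pow, norm_mul] at h3
  have h4 : ‖(d : L)‖ = v (d : K) := by
    rw [← hv, map_natCast]
  rw [h4] at h3
  refine le_trans ?_ h3
  have h5 : 0 ≤ δ / 2 * max ‖a‖ ‖b‖ :=
    mul_nonneg (by linarith) (le_max_of_le_left (norm_nonneg _))
  have h6 : 0 ≤ δ / 2 * max ‖c‖ ‖e‖ :=
    mul_nonneg (by linarith) (le_max_of_le_left (norm_nonneg _))
  have h7 : 0 ≤ v (d : K) := v.nonneg _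
  gcongr

/-- The four coefficients are bounded in terms of the rows. -/
lemma wgt_coeffs {L : Type} [NormedField L] {d : ℕ} (hd : 1 ≤ d)
    {A B C₁ D a b c e γ : L} (hdet : a * e - b * c = 1) {E : ℝ}
    (hbd : ∀ x y : L, ‖γ * (e * (A * (a * x + b * y) ^ d + B * (c * x + e * y) ^ d) -
        b * (C₁ * (a * x + b * y) ^ d + D * (c * x + e * y) ^ d))‖ ≤ E * max ‖x‖ ‖y‖ ^ d ∧
      ‖γ * (a * (C₁ * (a * x + b * y) ^ d + D * (c * x + e * y) ^ d) -
        c * (A * (a * x + b * y) ^ d + B * (c * x + e * y) ^ d))‖ ≤ E * max ‖x‖ ‖y‖ ^ d) :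
    ‖γ‖ * ‖A‖ ≤ (2 * E) * (max ‖a‖ ‖b‖ * max ‖c‖ ‖e‖ ^ d) ∧
    ‖γ‖ * ‖C₁‖ ≤ (2 * E) * (max ‖c‖ ‖e‖ * max ‖c‖ ‖e‖ ^ d) ∧
    ‖γ‖ * ‖B‖ ≤ (2 * E) * (max ‖a‖ ‖b‖ * max ‖a‖ ‖b‖ ^ d) ∧
    ‖γ‖ * ‖D‖ ≤ (2 * E) * (max ‖c‖ ‖e‖ * max ‖a‖ ‖b‖ ^ d) := by
  have key : ∀ (u w P Q : L) (n m : ℝ), 0 ≤ m → ‖u‖ ≤ n → ‖w‖ ≤ n →
      ‖γ * (e * P - b * Q)‖ ≤ E * m → ‖γ * (a * Q - c * P)‖ ≤ E * m →
      ‖u * (γ * (e * P - b * Q)) + w * (γ * (a * Q - c * P))‖ ≤ (2 * E) * (n * m) := by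
    intro u w P Q n m hm hu hw h1 h2
    have hn : 0 ≤ n := (norm_nonneg _).trans hu
    calc _ ≤ ‖u * (γ * (e * P - b * Q))‖ + ‖w * (γ * (a * Q - c * P))‖ := norm_add_le _ _
      _ = ‖u‖ * ‖γ * (e * P - b * Q)‖ + ‖w‖ * ‖γ * (a * Q - c * P)‖ := by
        rw [norm_mul u, norm_mul w]
      _ ≤ n * (E * m) + n * (E * m) := by gcongr
      _ = _ := by ring
  have z0 : (0 : L) ^ d = 0 := zero_pow (by omega)
  have hmax : ∀ x y : L, 0 ≤ max ‖x‖ ‖y‖ ^ d := fun x y =>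
    pow_nonneg (le_max_of_le_left (norm_nonneg _)) d
  obtain ⟨h1, h2⟩ := hbd e (-c)
  obtain ⟨h3, h4⟩ := hbd (-b) a
  have e1 : a * e + b * (-c) = 1 := by linear_combination hdet
  have e2 : c * e + e * (-c) = 0 := by ring
  have e3 : a * (-b) + b * a = 0 := by ring
  have e4 : c * (-b) + e * a = 1 := by linear_combination hdet
  rw [e1, e2, z0, one_pow, norm_neg, max_comm ‖e‖ ‖c‖] at h1 h2
  rw [e3, e4, z0, one_pow, norm_neg, max_comm ‖b‖ ‖a‖] at h3 h4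
  refine ⟨?_, ?_, ?_, ?_⟩
  · have := key a b _ _ _ _ (hmax c e) (le_max_left ‖a‖ ‖b‖) (le_max_right ‖a‖ ‖b‖) h1 h2
    rw [← norm_mul]
    refine le_of_eq_of_le ?_ this
    congr 1
    linear_combination (-γ * A) * hdet
  · have := key c e _ _ _ _ (hmax c e) (le_max_left ‖c‖ ‖e‖) (le_max_right ‖c‖ ‖e‖) h1 h2
    rw [← norm_mul]
    refine le_of_eq_of_le ?_ this
    congr 1
    linear_combination (-γ * C₁) * hdet
  · have := key a b _ _ _ _ (hmax a b) (le_max_left ‖a‖ ‖b‖) (le_max_right ‖a‖ ‖b‖) h3 h4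
    rw [← norm_mul]
    refine le_of_eq_of_le ?_ this
    congr 1
    linear_combination (-γ * B) * hdet
  · have := key c e _ _ _ _ (hmax a b) (le_max_left ‖c‖ ‖e‖) (le_max_right ‖c‖ ‖e‖) h3 h4
    rw [← norm_mul]
    refine le_of_eq_of_le ?_ this
    congr 1
    linear_combination (-γ * D) * hdet

/-- The bound for the maximum. -/
lemma wgt_Vd_le {F : Type} [Field F] (v : AbsoluteValue F ℝ) {d : ℕ} (hd : 1 ≤ d) {A B C₁ D : F}
    {G g n m : ℝ} (hG : 0 ≤ G) (hg : 0 ≤ g) (hn : 0 ≤ n) (hm : 0 ≤ m)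
    (hA : G * v A ≤ g * (n * m ^ d)) (hC : G * v C₁ ≤ g * (m * m ^ d))
    (hB : G * v B ≤ g * (n * n ^ d)) (hD : G * v D ≤ g * (m * n ^ d)) :
    (G ^ 2) ^ d * Vd v d A B C₁ D ≤ (g ^ 2) ^ d * ((n * m) ^ (d + 1)) ^ d := by
  obtain ⟨k, rfl⟩ : ∃ k, d = k + 1 := ⟨d - 1, by omega⟩
  have a0 := v.nonneg A
  have b0 := v.nonneg B
  have c0 := v.nonneg C₁
  have d0 := v.nonneg D
  have hG2 : 0 ≤ (G ^ 2) ^ (k + 1) := by positivity
  have e1 : (G ^ 2) ^ (k + 1) * (v A * v D) ^ (k + 1) ≤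
      (g ^ 2) ^ (k + 1) * ((n * m) ^ (k + 1 + 1)) ^ (k + 1) := by
    calc (G ^ 2) ^ (k + 1) * (v A * v D) ^ (k + 1) = ((G * v A) * (G * v D)) ^ (k + 1) := by ring
      _ ≤ ((g * (n * m ^ (k + 1))) * (g * (m * n ^ (k + 1)))) ^ (k + 1) := by gcongr
      _ = _ := by ring
  have e2 : (G ^ 2) ^ (k + 1) * (v B * v C₁) ^ (k + 1) ≤
      (g ^ 2) ^ (k + 1) * ((n * m) ^ (k + 1 + 1)) ^ (k + 1) := by
    calc (G ^ 2) ^ (k + 1) * (v B * v C₁) ^ (k + 1) = ((G * v B) * (G * v C₁)) ^ (k + 1) := by ring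
      _ ≤ ((g * (n * n ^ (k + 1))) * (g * (m * m ^ (k + 1)))) ^ (k + 1) := by gcongr
      _ = _ := by ring
  have e3 : (G ^ 2) ^ (k + 1) * (v A ^ (k + 1 + 1) * v B ^ (k + 1 - 1)) ≤
      (g ^ 2) ^ (k + 1) * ((n * m) ^ (k + 1 + 1)) ^ (k + 1) := by
    rw [Nat.add_sub_cancel]
    calc (G ^ 2) ^ (k + 1) * (v A ^ (k + 1 + 1) * v B ^ k) =
        (G * v A) ^ (k + 1 + 1) * (G * v B) ^ k := by ring
      _ ≤ (g * (n * m ^ (k + 1))) ^ (k + 1 + 1) * (g * (n * n ^ (k + 1))) ^ k := by gcongr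
      _ = _ := by ring
  have e4 : (G ^ 2) ^ (k + 1) * (v D ^ (k + 1 + 1) * v C₁ ^ (k + 1 - 1)) ≤
      (g ^ 2) ^ (k + 1) * ((n * m) ^ (k + 1 + 1)) ^ (k + 1) := by
    rw [Nat.add_sub_cancel]
    calc (G ^ 2) ^ (k + 1) * (v D ^ (k + 1 + 1) * v C₁ ^ k) =
        (G * v D) ^ (k + 1 + 1) * (G * v C₁) ^ k := by ring
      _ ≤ (g * (m * n ^ (k + 1))) ^ (k + 1 + 1) * (g * (m * m ^ (k + 1))) ^ k := by gcongr
      _ = _ := by ring
  unfold Vd
  rw [mul_max_of_nonneg _ _ hG2, mul_max_of_nonneg _ _ hG2, mul_max_of_nonneg _ _ hG2]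
  exact max_le (max_le e1 e2) (max_le e3 e4)

lemma wgt_Vd_pos {F : Type} [Field F] (v : AbsoluteValue F ℝ) (d : ℕ) {A B C₁ D : F}
    (hκ : A * D - B * C₁ ≠ 0) : 0 < Vd v d A B C₁ D := by
  unfold Vd
  by_cases h : A * D = 0
  · have h1 : B * C₁ ≠ 0 := by
      intro h2
      rw [h, h2] at hκ
      simp at hκ
    have h2 : 0 < v B * v C₁ := by
      rw [← map_mul]
      exact v.pos h1
    exact lt_max_of_lt_left (lt_max_of_lt_right (by positivity))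
  · have h2 : 0 < v A * v D := by
      rw [← map_mul]
      exact v.pos h
    exact lt_max_of_lt_left (lt_max_of_lt_left (by positivity))

theorem wgt_core {K : Type} [Field K] [CharZero K] (v : AbsoluteValue K ℝ) {d : ℕ}
    (hd : 2 ≤ d) : ∃ c : ℝ, 0 ≤ c ∧ ∀ A B C₁ D : K, A * D - B * C₁ ≠ 0 →
      ∀ (L : Type) [NormedField L] (ι : K →+* L), (∀ x, ‖ι x‖ = v x) → ∀ ρ : ℝ,
      UBC90787a.SizeAtMost ι (C A * X ^ d + C B) (C C₁ * X ^ d + C D) d ρ → 0 ≤ ρ →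
      Rv v d A B C₁ D ≤ c * (1 + ρ) := by
  have hv2 : 0 < v 2 := v.pos two_ne_zero
  have hvd : 0 < v (d : K) := v.pos (by
    have : d ≠ 0 := by omega
    exact_mod_cast this)
  set δ : ℝ := min 1 (v 2) with hδ
  have h0 : 0 < δ := lt_min one_pos hv2
  have h1 : δ ≤ 1 := min_le_left _ _
  have h2 : δ ≤ v 2 := min_le_right _ _
  have hW := wgtW_nonneg v d
  set c3 : ℝ := 1 + ((2 / δ) ^ 2) ^ (d - 1) * ((v (d : K))⁻¹ *
    (wgtW v d * (2 * ((d : ℝ) + 1) ^ d))) with hc3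
  have hc3' : 0 ≤ ((2 / δ) ^ 2) ^ (d - 1) * ((v (d : K))⁻¹ *
    (wgtW v d * (2 * ((d : ℝ) + 1) ^ d))) := by positivity
  have hc31 : 1 ≤ c3 := by linarith
  have hlc3 : 0 ≤ Real.log c3 := Real.log_nonneg hc31
  have hlog2 : 0 < Real.log 2 := Real.log_pos (by norm_num)
  refine ⟨8 + 2 * Real.log 2 + 3 * Real.log c3, by positivity, ?_⟩
  intro A B C₁ D hκ L _ ι hv ρ hS hρ
  obtain ⟨a, b, c, e, γ, hdet, hγ, hbd⟩ := hS
  rw [wgt_res_map ι (by omega) hκ] at hγ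
  have hκ' : ι (A * D - B * C₁) = ι A * ι D - ι B * ι C₁ := by simp
  have hγ2 : ‖γ‖ ^ 2 * ‖ι A * ι D - ι B * ι C₁‖ = 1 := by
    rw [← hκ']
    have h3 : (‖γ‖ ^ 2 * ‖ι (A * D - B * C₁)‖) ^ d = 1 := by
      rw [mul_pow, ← pow_mul]
      exact hγ
    exact (pow_eq_one_iff_of_nonneg (by positivity) (by omega)).mp h3
  have hbd' : ∀ x y : L, ‖γ * (e * (ι A * (a * x + b * y) ^ d + ι B * (c * x + e * y) ^ d) -
        b * (ι C₁ * (a * x + b * y) ^ d + ι D * (c * x + e * y) ^ d))‖ ≤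
          Real.exp ρ * max ‖x‖ ‖y‖ ^ d ∧
      ‖γ * (a * (ι C₁ * (a * x + b * y) ^ d + ι D * (c * x + e * y) ^ d) -
        c * (ι A * (a * x + b * y) ^ d + ι B * (c * x + e * y) ^ d))‖ ≤
          Real.exp ρ * max ‖x‖ ‖y‖ ^ d := by
    intro x y
    have h3 := hbd x y _ _ rfl rfl
    rw [wgt_map, wgt_map, wgt_homog_bin (by omega), wgt_homog_bin (by omega)] at h3
    exact ⟨(le_max_left _ _).trans h3, (le_max_right _ _).trans h3⟩
  have hrow := wgt_rows v ι hv (d := d) h0 h1 h2 hdet hγ2 hbd' (Real.exp_pos ρ).le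
  obtain ⟨k1, k2, k3, k4⟩ := wgt_coeffs (d := d) (by omega) hdet hbd'
  set n := max ‖a‖ ‖b‖ with hn
  set m := max ‖c‖ ‖e‖ with hm
  have hn0 : 0 ≤ n := le_max_of_le_left (norm_nonneg _)
  have hm0 : 0 ≤ m := le_max_of_le_left (norm_nonneg _)
  have hnm : 0 < n * m := by
    have h3 : (1 : ℝ) ≤ 2 * (n * m) := by
      calc (1 : ℝ) = ‖a * e - b * c‖ := by rw [hdet, norm_one]
        _ ≤ ‖a * e‖ + ‖b * c‖ := norm_sub_le _ _
        _ = ‖a‖ * ‖e‖ + ‖b‖ * ‖c‖ := by rw [norm_mul, norm_mul]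
        _ ≤ n * m + n * m := by
          have i1 : ‖a‖ ≤ n := le_max_left _ _
          have i2 : ‖b‖ ≤ n := le_max_right _ _
          have i3 : ‖c‖ ≤ m := le_max_left _ _
          have i4 : ‖e‖ ≤ m := le_max_right _ _
          gcongr
        _ = _ := by ring
    linarith
  have hE : Real.exp ρ ^ 2 = Real.exp (2 * ρ) := by rw [← Real.exp_nat_mul]; norm_num
  -- the product of the rows
  have hprod : (n * m) ^ (d - 1) ≤ c3 * Real.exp (2 * ρ) := by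
    have h3 : (n * m) ^ (d - 1) = ((2 / δ) ^ 2) ^ (d - 1) * ((v (d : K))⁻¹ *
        (v (d : K) * (δ / 2 * n * (δ / 2 * m)) ^ (d - 1))) := by
      rw [inv_mul_cancel_left₀ hvd.ne', ← mul_pow]
      congr 1
      field_simp
    have h4 : ((2 / δ) ^ 2) ^ (d - 1) * ((v (d : K))⁻¹ *
        (v (d : K) * (δ / 2 * n * (δ / 2 * m)) ^ (d - 1))) ≤ ((2 / δ) ^ 2) ^ (d - 1) *
        ((v (d : K))⁻¹ * (wgtW v d * (2 * ((d : ℝ) + 1) ^ d * Real.exp ρ ^ 2))) := by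
      gcongr
    rw [h3]
    refine h4.trans ?_
    rw [hE, hc3]
    have h5 : 0 < Real.exp (2 * ρ) := Real.exp_pos _
    nlinarith
  have hlog1 : ((d : ℝ) - 1) * Real.log (n * m) ≤ Real.log c3 + 2 * ρ := by
    have h3 := Real.log_le_log (pow_pos hnm _) hprod
    rw [Real.log_pow, Real.log_mul (by linarith) (Real.exp_pos _).ne', Real.log_exp,
      Nat.cast_sub (by omega), Nat.cast_one] at h3
    exact h3
  -- the maximum
  rw [hv] at k1 k2 k3 k4
  have hV := wgt_Vd_le v (d := d) (by omega) (norm_nonneg γ)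
    (show 0 ≤ 2 * Real.exp ρ by positivity) hn0 hm0 k1 k2 k3 k4
  have hk : 0 < v (A * D - B * C₁) := v.pos hκ
  rw [← hκ', hv] at hγ2
  have hVd := wgt_Vd_pos v d hκ
  have hV2 : Vd v d A B C₁ D ≤ v (A * D - B * C₁) ^ d *
      (((2 * Real.exp ρ) ^ 2) ^ d * ((n * m) ^ (d + 1)) ^ d) := by
    have h3 : Vd v d A B C₁ D = v (A * D - B * C₁) ^ d *
        ((‖γ‖ ^ 2) ^ d * Vd v d A B C₁ D) := by
      rw [← mul_assoc, ← mul_pow, mul_comm (v _), hγ2, one_pow, one_mul]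
    rw [h3]
    gcongr
  have hlog3 := Real.log_le_log hVd hV2
  have hdR : (2 : ℝ) ≤ d := by exact_mod_cast hd
  rw [Real.log_mul (by positivity) (by positivity), Real.log_mul (by positivity) (by positivity),
    Real.log_pow, Real.log_pow, Real.log_pow, Real.log_pow, Real.log_pow,
    Real.log_mul (by norm_num) (Real.exp_pos _).ne', Real.log_exp] at hlog3
  push_cast at hlog3
  have hR : Rv v d A B C₁ D ≤ 2 * (Real.log 2 + ρ) + ((d : ℝ) + 1) * Real.log (n * m) := by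
    unfold Rv
    rw [sub_le_iff_le_add, div_le_iff₀ (by linarith)]
    linarith
  refine hR.trans ?_
  have hfin : ((d : ℝ) + 1) * Real.log (n * m) ≤ 3 * (Real.log c3 + 2 * ρ) := by
    rcases le_total 0 (Real.log (n * m)) with h | h
    · have h3 : ((d : ℝ) + 1) * Real.log (n * m) ≤ (3 * ((d : ℝ) - 1)) * Real.log (n * m) :=
        mul_le_mul_of_nonneg_right (by linarith) h
      linarith
    · have h3 : ((d : ℝ) + 1) * Real.log (n * m) ≤ 0 :=
        mul_nonpos_of_nonneg_of_nonpos (by linarith) h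
      linarith
  have f1 : 0 ≤ Real.log 2 * ρ := mul_nonneg hlog2.le hρ
  have f2 : 0 ≤ Real.log c3 * ρ := mul_nonneg hlc3 hρ
  linarith

end core

section upper

lemma wgt_scale {a b c e V r₁ r₂ : ℝ} {d : ℕ} (hd : 2 ≤ d) (ha : 0 ≤ a) (hb : 0 ≤ b) (hc : 0 ≤ c)
    (he : 0 ≤ e) (hV : 0 < V) (h1 : a * e ≤ V) (h2 : b * c ≤ V)
    (h3 : a ^ (d + 1) * b ^ (d - 1) ≤ V ^ d) (h4 : e ^ (d + 1) * c ^ (d - 1) ≤ V ^ d)
    (hr1 : 0 ≤ r₁) (hr2 : 0 ≤ r₂) (e1 : r₁ ^ (d + 1) * V = b ^ 2)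
    (e2 : r₂ ^ (d - 1) * V = e ^ 2) :
    a ^ 2 * max r₁ r₂ ^ (d - 1) ≤ V ∧ c ^ 2 * max r₁ r₂ ^ (d + 1) ≤ V ∧
      b ^ 2 ≤ V * max r₁ r₂ ^ (d + 1) ∧ e ^ 2 ≤ V * max r₁ r₂ ^ (d - 1) := by
  obtain ⟨k, rfl⟩ : ∃ k, d = k + 2 := ⟨d - 2, by omega⟩
  rw [show k + 2 - 1 = k + 1 by omega] at *
  rcases le_total r₂ r₁ with h | h
  · rw [max_eq_left h]
    refine ⟨?_, ?_, ?_, ?_⟩
    · have h5 : (a ^ 2 * r₁ ^ (k + 1)) ^ (k + 2 + 1) * V ^ (k + 1) ≤
          V ^ (k + 2 + 1) * V ^ (k + 1) := by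
        calc (a ^ 2 * r₁ ^ (k + 1)) ^ (k + 2 + 1) * V ^ (k + 1) =
            (a ^ 2) ^ (k + 2 + 1) * (r₁ ^ (k + 2 + 1) * V) ^ (k + 1) := by ring
          _ = (a ^ (k + 2 + 1) * b ^ (k + 1)) ^ 2 := by rw [e1]; ring
          _ ≤ (V ^ (k + 2)) ^ 2 := by gcongr
          _ = _ := by ring
      have h6 := le_of_mul_le_mul_right h5 (by positivity)
      exact (pow_le_pow_iff_left₀ (by positivity) hV.le (by omega)).mp h6
    · have h5 : c ^ 2 * r₁ ^ (k + 2 + 1) * V ≤ V * V := by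
        calc c ^ 2 * r₁ ^ (k + 2 + 1) * V = c ^ 2 * (r₁ ^ (k + 2 + 1) * V) := by ring
          _ = (b * c) * (b * c) := by rw [e1]; ring
          _ ≤ V * V := by gcongr
      exact le_of_mul_le_mul_right h5 hV
    · rw [← e1]
      exact le_of_eq (by ring)
    · rw [← e2, mul_comm]
      gcongr
  · rw [max_eq_right h]
    refine ⟨?_, ?_, ?_, ?_⟩
    · have h5 : a ^ 2 * r₂ ^ (k + 1) * V ≤ V * V := by
        calc a ^ 2 * r₂ ^ (k + 1) * V = a ^ 2 * (r₂ ^ (k + 1) * V) := by ring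
          _ = (a * e) * (a * e) := by rw [e2]; ring
          _ ≤ V * V := by gcongr
      exact le_of_mul_le_mul_right h5 hV
    · have h5 : (c ^ 2 * r₂ ^ (k + 2 + 1)) ^ (k + 1) * V ^ (k + 2 + 1) ≤
          V ^ (k + 1) * V ^ (k + 2 + 1) := by
        calc (c ^ 2 * r₂ ^ (k + 2 + 1)) ^ (k + 1) * V ^ (k + 2 + 1) =
            (c ^ 2) ^ (k + 1) * (r₂ ^ (k + 1) * V) ^ (k + 2 + 1) := by ring
          _ = (e ^ (k + 2 + 1) * c ^ (k + 1)) ^ 2 := by rw [e2]; ring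
          _ ≤ (V ^ (k + 2)) ^ 2 := by gcongr
          _ = _ := by ring
      have h6 := le_of_mul_le_mul_right h5 (by positivity)
      exact (pow_le_pow_iff_left₀ (by positivity) hV.le (by omega)).mp h6
    · rw [← e1, mul_comm]
      gcongr
    · rw [← e2]
      exact le_of_eq (by ring)

lemma wgt_exists_val {F : Type} [Field F] (v : AbsoluteValue F ℝ) (d : ℕ) (A B C₁ D : F) :
    ∃ W : F, v W = Vd v d A B C₁ D := by
  unfold Vd
  rcases max_choice (max ((v A * v D) ^ d) ((v B * v C₁) ^ d))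
    (max (v A ^ (d + 1) * v B ^ (d - 1)) (v D ^ (d + 1) * v C₁ ^ (d - 1))) with h | h
  · rw [h]
    rcases max_choice ((v A * v D) ^ d) ((v B * v C₁) ^ d) with h | h
    · exact ⟨(A * D) ^ d, by rw [h, map_pow, map_mul]⟩
    · exact ⟨(B * C₁) ^ d, by rw [h, map_pow, map_mul]⟩
  · rw [h]
    rcases max_choice (v A ^ (d + 1) * v B ^ (d - 1)) (v D ^ (d + 1) * v C₁ ^ (d - 1)) with h | h
    · exact ⟨A ^ (d + 1) * B ^ (d - 1), by rw [h, map_mul, map_pow, map_pow]⟩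
    · exact ⟨D ^ (d + 1) * C₁ ^ (d - 1), by rw [h, map_mul, map_pow, map_pow]⟩

lemma wgt_exp_Rv {F : Type} [Field F] (v : AbsoluteValue F ℝ) {d : ℕ} (hd : 1 ≤ d)
    {A B C₁ D : F} (hκ : A * D - B * C₁ ≠ 0) :
    (Real.exp (Rv v d A B C₁ D) * v (A * D - B * C₁)) ^ d = Vd v d A B C₁ D := by
  have hk : 0 < v (A * D - B * C₁) := v.pos hκ
  have hV := wgt_Vd_pos v d hκ
  have hd' : (d : ℝ) ≠ 0 := by
    have : d ≠ 0 := by omega
    exact_mod_cast this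
  unfold Rv
  rw [Real.exp_sub, Real.exp_log hk, div_mul_cancel₀ _ hk.ne', ← Real.exp_nat_mul,
    mul_div_cancel₀ _ hd', Real.exp_log hV]

lemma wgt_Rv_nonneg {F : Type} [Field F] (v : AbsoluteValue F ℝ) (hv : IsNonarchimedean v)
    {d : ℕ} (hd : 1 ≤ d) {A B C₁ D : F} (hκ : A * D - B * C₁ ≠ 0) :
    0 ≤ Rv v d A B C₁ D := by
  have hk : 0 < v (A * D - B * C₁) := v.pos hκ
  have hV := wgt_Vd_pos v d hκ
  have hd' : (0 : ℝ) < d := by
    have : 0 < d := by omega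
    exact_mod_cast this
  have h1 : v (A * D - B * C₁) ≤ max (v A * v D) (v B * v C₁) := by
    rw [sub_eq_add_neg]
    refine (hv _ _).trans (le_of_eq ?_)
    rw [v.map_neg, map_mul, map_mul]
  have h2 : v (A * D - B * C₁) ^ d ≤ Vd v d A B C₁ D := by
    unfold Vd
    rcases le_total (v A * v D) (v B * v C₁) with h | h
    · rw [max_eq_right h] at h1
      exact (pow_le_pow_left₀ hk.le h1 d).trans (le_max_of_le_left (le_max_right _ _))
    · rw [max_eq_left h] at h1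
      exact (pow_le_pow_left₀ hk.le h1 d).trans (le_max_of_le_left (le_max_left _ _))
  have h3 := Real.log_le_log (pow_pos hk d) h2
  rw [Real.log_pow] at h3
  unfold Rv
  rw [sub_nonneg, le_div_iff₀ hd']
  linarith

/-- The size in diagonal coordinates. -/
theorem wgt_size_le {K : Type} [Field K] (v : AbsoluteValue K ℝ) (hna : IsNonarchimedean v)
    {d : ℕ} (hd : 2 ≤ d) {A B C₁ D : K} (hκ : A * D - B * C₁ ≠ 0) {M : Type} [NormedField M]
    [IsUltrametricDist M] [IsAlgClosed M] (ι : K →+* M) (hι : ∀ x, ‖ι x‖ = v x) :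
    UBC90787a.SizeAtMost ι (C A * X ^ d + C B) (C C₁ * X ^ d + C D) d (Rv v d A B C₁ D) := by
  have hR := wgt_Rv_nonneg v hna (d := d) (by omega) hκ
  have hVd := wgt_Vd_pos v d hκ
  have hk : 0 < v (A * D - B * C₁) := v.pos hκ
  have hexp := wgt_exp_Rv v (d := d) (by omega) hκ
  set R := Rv v d A B C₁ D with hRdef
  set V : ℝ := Real.exp R * v (A * D - B * C₁) with hV
  have hV0 : 0 < V := by positivity
  obtain ⟨W, hW⟩ := wgt_exists_val v d A B C₁ D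
  have a0 := v.nonneg A
  have b0 := v.nonneg B
  have c0 := v.nonneg C₁
  have d0 := v.nonneg D
  -- the two candidates
  obtain ⟨μ₁, hμ₁⟩ := IsAlgClosed.exists_pow_nat_eq (ι (B ^ (2 * d) / W))
    (show 0 < 2 * ((d + 1) * d) by positivity)
  obtain ⟨μ₂, hμ₂⟩ := IsAlgClosed.exists_pow_nat_eq (ι (D ^ (2 * d) / W))
    (show 0 < 2 * ((d - 1) * d) by
      have : 0 < d - 1 := by omega
      positivity)
  have e1 : (‖μ₁‖ ^ 2) ^ (d + 1) * V = v B ^ 2 := by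
    have h1 : ‖μ₁‖ ^ (2 * ((d + 1) * d)) = v B ^ (2 * d) / V ^ d := by
      rw [← norm_pow, hμ₁, hι, map_div₀, map_pow, hW, hexp]
    have h2 : ((‖μ₁‖ ^ 2) ^ (d + 1) * V) ^ d = (v B ^ 2) ^ d := by
      rw [mul_pow, ← pow_mul, ← pow_mul, h1, div_mul_cancel₀ _ (pow_pos hV0 d).ne', pow_mul]
    exact (pow_left_inj₀ (by positivity) (by positivity) (by omega)).mp h2
  have e2 : (‖μ₂‖ ^ 2) ^ (d - 1) * V = v D ^ 2 := by
    have h1 : ‖μ₂‖ ^ (2 * ((d - 1) * d)) = v D ^ (2 * d) / V ^ d := by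
      rw [← norm_pow, hμ₂, hι, map_div₀, map_pow, hW, hexp]
    have h2 : ((‖μ₂‖ ^ 2) ^ (d - 1) * V) ^ d = (v D ^ 2) ^ d := by
      rw [mul_pow, ← pow_mul, ← pow_mul, h1, div_mul_cancel₀ _ (pow_pos hV0 d).ne', pow_mul]
    exact (pow_left_inj₀ (by positivity) (by positivity) (by omega)).mp h2
  -- the bounds of the maximum
  have m1 : v A * v D ≤ V := by
    refine (pow_le_pow_iff_left₀ (by positivity) hV0.le (show d ≠ 0 by omega)).mp ?_
    rw [hexp]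
    unfold Vd
    exact le_max_of_le_left (le_max_left _ _)
  have m2 : v B * v C₁ ≤ V := by
    refine (pow_le_pow_iff_left₀ (by positivity) hV0.le (show d ≠ 0 by omega)).mp ?_
    rw [hexp]
    unfold Vd
    exact le_max_of_le_left (le_max_right _ _)
  have m3 : v A ^ (d + 1) * v B ^ (d - 1) ≤ V ^ d := by
    rw [hexp]
    unfold Vd
    exact le_max_of_le_right (le_max_left _ _)
  have m4 : v D ^ (d + 1) * v C₁ ^ (d - 1) ≤ V ^ d := by
    rw [hexp]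
    unfold Vd
    exact le_max_of_le_right (le_max_right _ _)
  obtain ⟨s1, s2, s3, s4⟩ := wgt_scale hd a0 b0 c0 d0 hV0 m1 m2 m3 m4 (by positivity)
    (by positivity) e1 e2
  obtain ⟨μ, hμ⟩ : ∃ μ : M, ‖μ‖ ^ 2 = max (‖μ₁‖ ^ 2) (‖μ₂‖ ^ 2) := by
    rcases max_choice (‖μ₁‖ ^ 2) (‖μ₂‖ ^ 2) with h | h
    · exact ⟨μ₁, h.symm⟩
    · exact ⟨μ₂, h.symm⟩
  rw [← hμ] at s1 s2 s3 s4
  have hμ0 : μ ≠ 0 := by
    rintro rfl
    have i1 : (‖(0 : M)‖ ^ 2) ^ (d + 1) = 0 := by simp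
    have i2 : (‖(0 : M)‖ ^ 2) ^ (d - 1) = 0 := by
      rw [norm_zero, zero_pow two_ne_zero, zero_pow (by omega)]
    rw [i1, mul_zero] at s3
    rw [i2, mul_zero] at s4
    have hB : B = 0 := by
      have : v B = 0 := by nlinarith
      exact v.eq_zero.mp this
    have hD : D = 0 := by
      have : v D = 0 := by nlinarith
      exact v.eq_zero.mp this
    apply hκ
    rw [hB, hD]
    ring
  have hμn : 0 < ‖μ‖ := norm_pos_iff.mpr hμ0
  -- the scalar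
  obtain ⟨γ, hγ⟩ := IsAlgClosed.exists_pow_nat_eq (ι (A * D - B * C₁))⁻¹ (show 0 < 2 by norm_num)
  have hγ2 : ‖γ‖ ^ 2 * v (A * D - B * C₁) = 1 := by
    rw [← norm_pow, hγ, norm_inv, hι, inv_mul_cancel₀ hk.ne']
  have hGV : ‖γ‖ ^ 2 * V = Real.exp R := by
    rw [hV]
    linear_combination Real.exp R * hγ2
  have hexp1 : 1 ≤ Real.exp R := Real.one_le_exp hR
  have key : ∀ t : ℝ, 0 ≤ t → t ^ 2 ≤ V → ‖γ‖ * t ≤ Real.exp R := by
    intro t ht h
    refine (pow_le_pow_iff_left₀ (by positivity) (by positivity) two_ne_zero).mp ?_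
    calc (‖γ‖ * t) ^ 2 = ‖γ‖ ^ 2 * t ^ 2 := by ring
      _ ≤ ‖γ‖ ^ 2 * V := by gcongr
      _ = Real.exp R := hGV
      _ ≤ Real.exp R ^ 2 := by nlinarith
  have q1 : ‖γ‖ * (v A * ‖μ‖ ^ (d - 1)) ≤ Real.exp R := by
    refine key _ (by positivity) (le_of_eq_of_le ?_ s1)
    ring
  have q2 : ‖γ‖ * (v C₁ * ‖μ‖ ^ (d + 1)) ≤ Real.exp R := by
    refine key _ (by positivity) (le_of_eq_of_le ?_ s2)
    ring
  have q3 : ‖γ‖ * (v B * (‖μ‖ ^ (d + 1))⁻¹) ≤ Real.exp R := by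
    refine key _ (by positivity) ?_
    have : (v B * (‖μ‖ ^ (d + 1))⁻¹) ^ 2 = v B ^ 2 / (‖μ‖ ^ 2) ^ (d + 1) := by
      rw [mul_pow, inv_pow, div_eq_mul_inv]
      congr 2
      ring
    rw [this, div_le_iff₀ (by positivity)]
    exact s3
  have q4 : ‖γ‖ * (v D * (‖μ‖ ^ (d - 1))⁻¹) ≤ Real.exp R := by
    refine key _ (by positivity) ?_
    have : (v D * (‖μ‖ ^ (d - 1))⁻¹) ^ 2 = v D ^ 2 / (‖μ‖ ^ 2) ^ (d - 1) := by
      rw [mul_pow, inv_pow, div_eq_mul_inv]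
      congr 2
      ring
    rw [this, div_le_iff₀ (by positivity)]
    exact s4
  refine ⟨μ, 0, 0, μ⁻¹, γ, by field_simp; ring, ?_, ?_⟩
  · rw [wgt_res_map ι (by omega) hκ, hι, pow_mul, ← mul_pow, hγ2, one_pow]
  · intro x y P Q hP hQ
    rw [wgt_map, wgt_homog_bin (by omega)] at hP hQ
    simp only [zero_mul, add_zero, zero_add] at hP hQ
    obtain ⟨k, rfl⟩ : ∃ k, d = k + 1 := ⟨d - 1, by omega⟩
    rw [Nat.add_sub_cancel] at q1 q4
    have hmax : 0 ≤ max ‖x‖ ‖y‖ := le_max_of_le_left (norm_nonneg _)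
    have hx : ‖x‖ ^ (k + 1) ≤ max ‖x‖ ‖y‖ ^ (k + 1) :=
      pow_le_pow_left₀ (norm_nonneg _) (le_max_left _ _) _
    have hy : ‖y‖ ^ (k + 1) ≤ max ‖x‖ ‖y‖ ^ (k + 1) :=
      pow_le_pow_left₀ (norm_nonneg _) (le_max_right _ _) _
    have hexp0 : 0 ≤ Real.exp R := (Real.exp_pos R).le
    have r1 : γ * (μ⁻¹ * P - 0 * Q) = γ * (ι A * μ ^ k) * x ^ (k + 1) +
        γ * (ι B * (μ ^ (k + 1 + 1))⁻¹) * y ^ (k + 1) := by
      rw [hP, mul_pow, mul_pow, inv_pow]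
      field_simp
      ring
    have r2 : γ * (μ * Q - 0 * P) = γ * (ι C₁ * μ ^ (k + 1 + 1)) * x ^ (k + 1) +
        γ * (ι D * (μ ^ k)⁻¹) * y ^ (k + 1) := by
      rw [hQ, mul_pow, mul_pow, inv_pow]
      field_simp
      ring
    rw [r1, r2]
    refine max_le ?_ ?_
    · refine (IsUltrametricDist.norm_add_le_max _ _).trans (max_le ?_ ?_)
      · simp only [norm_mul, norm_pow, hι]
        exact mul_le_mul q1 hx (pow_nonneg (norm_nonneg _) _) hexp0
      · simp only [norm_mul, norm_pow, norm_inv, hι]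
        exact mul_le_mul q3 hy (pow_nonneg (norm_nonneg _) _) hexp0
    · refine (IsUltrametricDist.norm_add_le_max _ _).trans (max_le ?_ ?_)
      · simp only [norm_mul, norm_pow, hι]
        exact mul_le_mul q2 hx (pow_nonneg (norm_nonneg _) _) hexp0
      · simp only [norm_mul, norm_pow, norm_inv, hι]
        exact mul_le_mul q4 hy (pow_nonneg (norm_nonneg _) _) hexp0

end upper

/-! ### The three comparisons -/

lemma wgt_na {L : Type} [Field L] [NumberField L] (v : FinitePlace L) : IsNonarchimedean v.1 :=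
  fun x y => FinitePlace.add_le v x y

theorem wgt_sizeOver {L : Type} [Field L] [NumberField L] (v : FinitePlace L) (d : ℕ)
    (hd : 2 ≤ d) {A B C₁ D : L} (hκ : A * D - B * C₁ ≠ 0) :
    UBC90787a.SizeAtMostOver v (C A * X ^ d + C B) (C C₁ * X ^ d + C D) d
      (Rv v.1 d A B C₁ D) := by
  obtain ⟨M, _, _, _, ι, hι⟩ := UBC90787a.exists_ultra_field v
  exact ⟨M, _, inferInstance, inferInstance, ι, hι,
    wgt_size_le v.1 (wgt_na v) hd hκ ι hι⟩

/-- B5a -/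
theorem finWeight_le {L : Type} [Field L] [NumberField L] (v : FinitePlace L) (d : ℕ) (hd : 2 ≤ d)
    {A B C₁ D : L} (hκ : A * D - B * C₁ ≠ 0) :
    UBC90787a.finWeight v (C A * X ^ d + C B) (C C₁ * X ^ d + C D) d ≤ Rv v.1 d A B C₁ D :=
  csInf_le ⟨0, fun _ h => h.1⟩ ⟨wgt_Rv_nonneg v.1 (wgt_na v) (by omega) hκ,
    wgt_sizeOver v d hd hκ⟩

/-- From a bound for all sizes to a bound for the infimum. -/
lemma wgt_of_inf {S : Set ℝ} (hS : S.Nonempty) {R c : ℝ} (hc : 0 ≤ c)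
    (h : ∀ ρ ∈ S, R ≤ c * (1 + ρ)) : R ≤ c * (1 + sInf S) := by
  rcases hc.eq_or_lt with h0 | h0
  · obtain ⟨ρ, hρ⟩ := hS
    have := h ρ hρ
    rw [← h0, zero_mul] at this ⊢
    exact this
  · have h1 : R / c - 1 ≤ sInf S := by
      refine le_csInf hS (fun ρ hρ => ?_)
      have := h ρ hρ
      rw [sub_le_iff_le_add, div_le_iff₀ h0]
      linarith
    rw [sub_le_iff_le_add, div_le_iff₀ h0] at h1
    linarith

/-- B5b -/
theorem le_finWeight {L : Type} [Field L] [NumberField L] (v : FinitePlace L) (d : ℕ)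
    (hd : 2 ≤ d) : ∃ c : ℝ, 0 ≤ c ∧ ∀ A B C₁ D : L, A * D - B * C₁ ≠ 0 →
      Rv v.1 d A B C₁ D ≤
        c * (1 + UBC90787a.finWeight v (C A * X ^ d + C B) (C C₁ * X ^ d + C D) d) := by
  obtain ⟨c, hc, h⟩ := wgt_core v.1 hd
  refine ⟨c, hc, fun A B C₁ D hκ => wgt_of_inf ?_ hc ?_⟩
  · exact ⟨_, wgt_Rv_nonneg v.1 (wgt_na v) (by omega) hκ,
      wgt_sizeOver v d hd hκ⟩
  · rintro ρ ⟨h0, M, _, _, _, ι, hι, hs⟩
    exact h A B C₁ D hκ M ι hι ρ hs h0

/-- B5c -/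
theorem le_archWeight {L : Type} [Field L] [NumberField L] (w : InfinitePlace L) (d : ℕ)
    (hd : 2 ≤ d) : ∃ c : ℝ, 0 ≤ c ∧ ∀ A B C₁ D : L, A * D - B * C₁ ≠ 0 →
      Rv w.1 d A B C₁ D ≤
        c * (1 + UBC90787a.archWeight w.embedding (C A * X ^ d + C B) (C C₁ * X ^ d + C D) d) := by
  obtain ⟨c, hc, h⟩ := wgt_core w.1 hd
  refine ⟨c, hc, fun A B C₁ D hκ => wgt_of_inf ?_ hc ?_⟩
  · have hres : resultant (C A * X ^ d + C B) (C C₁ * X ^ d + C D) d d ≠ 0 := by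
      intro h0
      have h1 := wgt_res_map w.embedding (d := d) (by omega) hκ
      rw [h0, map_zero, norm_zero] at h1
      have h2 : ‖w.embedding (A * D - B * C₁)‖ ≠ 0 := by
        rw [norm_ne_zero_iff, Ne, map_eq_zero]
        exact hκ
      exact (pow_ne_zero d h2) h1.symm
    obtain ⟨γ, hγ⟩ := UBC90787a.exists_gamma (ι := w.embedding) (show 1 ≤ d by omega) hres
    have hset := UBC90787a.sizeSet_eq (ι := w.embedding) hγ (by omega)
    have hne := UBC90787a.sizeSet_nonempty (ι := w.embedding)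
      (p := C A * X ^ d + C B) (q := C C₁ * X ^ d + C D) (d := d) γ
    rw [← hset] at hne
    exact hne
  · rintro ρ ⟨h0, hs⟩
    exact h A B C₁ D hκ ℂ w.embedding (InfinitePlace.norm_embedding_eq w) ρ hs h0

end Pool.Agent.MP90787a.B
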